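import Pool.Agent.H97.OC.OCD
import Pool.Agent.H98.KVA.IDX

/-!
# Samples which are independent given a common label

`itr p Z K` is the law of a sample of `p` with `K` further samples, all independent given the
common value of `Z`.
-/

set_option autoImplicit false

namespace Pool.PLV

open Finset Real
open Pool.Agent.H49.Ent Pool.Agent.H32.Dense Pool.STK Pool.KA

variable {Ω ζ S T : Type} [Fintype Ω]

/-- A sample of `p` and `K` further samples, independent given the common value of `Z`. -/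
noncomputable def itr (p : Ω → ℝ) (Z : Ω → ζ) (K : ℕ) (w : Ω × (Fin K → Ω)) : ℝ :=
  p w.1 * ∏ k, Pool.Agent.H49.Ent.cond p Z (Z w.1) (w.2 k)

variable {p : Ω → ℝ} {Z : Ω → ζ} {K : ℕ}

theorem itr_nonneg (hp : IsLaw p) (w : Ω × (Fin K → Ω)) : 0 ≤ itr p Z K w :=
  mul_nonneg (hp.nonneg _) (Finset.prod_nonneg fun _ _ => cond_nonneg hp.nonneg _ _ _)

theorem itr_pos (hp : IsLaw p) {w : Ω × (Fin K → Ω)} (h : 0 < itr p Z K w) :
    0 < p w.1 ∧ ∀ k, 0 < p (w.2 k) ∧ Z (w.2 k) = Z w.1 := by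
  have h1 : 0 < p w.1 := by
    rcases (hp.nonneg w.1).eq_or_lt with h0 | h0
    · unfold itr at h
      rw [← h0, zero_mul] at h
      exact absurd h (lt_irrefl _)
    · exact h0
  refine ⟨h1, fun k => ?_⟩
  refine (cond_pos_iff hp.nonneg Z (Z w.1) (w.2 k)).1 ?_
  rcases (cond_nonneg hp.nonneg Z (Z w.1) (w.2 k)).eq_or_lt with h0 | h0
  · exfalso
    have : ∏ k, Pool.Agent.H49.Ent.cond p Z (Z w.1) (w.2 k) = 0 :=
      Finset.prod_eq_zero (Finset.mem_univ k) h0.symm
    unfold itr at h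
    rw [this, mul_zero] at h
    exact lt_irrefl _ h
  · exact h0

theorem sum_cond_pos (hp : IsLaw p) {ω : Ω} (h : 0 < p ω) :
    ∑ ω', Pool.Agent.H49.Ent.cond p Z (Z ω) ω' = 1 :=
  sum_cond p Z (law_pos hp.nonneg Z h).ne'

/-- Sums over the further samples. -/
theorem sum_pi (κ : Fin K → Ω → ℝ) : ∑ v : Fin K → Ω, ∏ k, κ k (v k) = ∏ k, ∑ ω, κ k ω := by
  classical
  rw [Finset.prod_univ_sum]
  rw [Fintype.piFinset_univ]

theorem sum_fst (hp : IsLaw p) (g : Ω → ℝ) : ∑ w, itr p Z K w * g w.1 = ∑ ω, p ω * g ω := by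
  rw [Fintype.sum_prod_type]
  refine Finset.sum_congr rfl fun ω _ => ?_
  rcases (hp.nonneg ω).eq_or_lt with h0 | h0
  · unfold itr
    dsimp only
    rw [← h0]
    simp
  · have h1 : ∑ v : Fin K → Ω, ∏ k, Pool.Agent.H49.Ent.cond p Z (Z ω) (v k) = 1 := by
      rw [sum_pi (fun _ => Pool.Agent.H49.Ent.cond p Z (Z ω))]
      exact Finset.prod_eq_one fun k _ => sum_cond_pos hp h0
    calc ∑ v, itr p Z K (ω, v) * g ω
        = ∑ v : Fin K → Ω, (p ω * g ω) * ∏ k, Pool.Agent.H49.Ent.cond p Z (Z ω) (v k) := by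
          refine Finset.sum_congr rfl fun v _ => ?_
          unfold itr
          ring
      _ = p ω * g ω := by rw [← Finset.mul_sum, h1, mul_one]

theorem itr_law (hp : IsLaw p) : IsLaw (itr p Z K) := by
  refine ⟨itr_nonneg hp, ?_⟩
  have h := sum_fst (Z := Z) (K := K) hp (fun _ => 1)
  simp only [mul_one] at h
  rw [h, hp.sum_one]

/-- Isolating one of the further samples. -/
theorem sum_update (k : Fin K) (κ : Ω → ℝ) (hκ : ∑ ω, κ ω = 1) (G : (Fin K → Ω) → ℝ) :
    ∑ v : Fin K → Ω, (∏ i, κ (v i)) * G v =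
      ∑ v : Fin K → Ω, (∏ i, κ (v i)) * ∑ ω, κ ω * G (Function.update v k ω) := by
  classical
  have key : ∀ F : (Fin K → Ω) → ℝ, ∑ v : Fin K → Ω, (∏ i, κ (v i)) * F v =
      ∑ u : {i // i ≠ k} → Ω, (∏ i, κ (u i)) *
        ∑ a, κ a * F (fun i => if h : i = k then a else u ⟨i, h⟩) := by
    intro F
    rw [← Equiv.sum_comp (Equiv.funSplitAt k Ω).symm (fun v => (∏ i, κ (v i)) * F v),
      Fintype.sum_prod_type, Finset.sum_comm]
    refine Finset.sum_congr rfl fun u _ => ?_
    rw [Finset.mul_sum]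
    refine Finset.sum_congr rfl fun a _ => ?_
    have e1 : (Equiv.funSplitAt k Ω).symm (a, u) = fun i => if h : i = k then a else u ⟨i, h⟩ := by
      funext i
      simp [Equiv.funSplitAt, Equiv.piSplitAt]
    rw [e1, Fintype.prod_eq_mul_prod_subtype_ne _ k]
    simp only [dite_true]
    have e2 : ∏ i : {i // i ≠ k}, κ (if h : (i : Fin K) = k then a else u ⟨i, h⟩) =
        ∏ i, κ (u i) := by
      refine Finset.prod_congr rfl fun i _ => ?_
      rw [dif_neg i.2]
    rw [e2]
    ring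
  rw [key G, key (fun v => ∑ ω, κ ω * G (Function.update v k ω))]
  refine Finset.sum_congr rfl fun u _ => ?_
  congr 1
  have e3 : ∀ a ω : Ω, Function.update (fun i => if h : i = k then a else u ⟨i, h⟩) k ω =
      fun i => if h : i = k then ω else u ⟨i, h⟩ := by
    intro a ω
    funext i
    by_cases h : i = k
    · subst h
      simp
    · simp [Function.update_of_ne h, h]
  simp only [e3]
  rw [← Finset.sum_mul, hκ, one_mul]

theorem sum_snd (hp : IsLaw p) (k : Fin K) (g : Ω → ℝ) :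
    ∑ w, itr p Z K w * g (w.2 k) = ∑ ω, p ω * g ω := by
  classical
  rw [Fintype.sum_prod_type]
  have h1 : ∀ ω, ∑ v, itr p Z K (ω, v) * g (v k) =
      p ω * ∑ ω', Pool.Agent.H49.Ent.cond p Z (Z ω) ω' * g ω' := by
    intro ω
    rcases (hp.nonneg ω).eq_or_lt with h0 | h0
    · unfold itr
      dsimp only
      rw [← h0]
      simp
    have h2 : ∑ v, itr p Z K (ω, v) * g (v k) =
        p ω * ∑ v : Fin K → Ω, (∏ i, Pool.Agent.H49.Ent.cond p Z (Z ω) (v i)) * g (v k) := by
      rw [Finset.mul_sum]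
      refine Finset.sum_congr rfl fun v _ => ?_
      unfold itr
      ring
    rw [h2, sum_update k _ (sum_cond_pos hp h0) (fun v => g (v k))]
    simp only [Function.update_self]
    rw [← Finset.sum_mul, sum_pi (fun _ => Pool.Agent.H49.Ent.cond p Z (Z ω)),
      Finset.prod_eq_one fun k _ => sum_cond_pos hp h0, one_mul]
  simp only [h1]
  have h3 : ∀ ω, p ω * ∑ ω', Pool.Agent.H49.Ent.cond p Z (Z ω) ω' * g ω' =
      ∑ ω', p ω * Pool.Agent.H49.Ent.cond p Z (Z ω) ω' * g ω' := by
    intro ω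
    rw [Finset.mul_sum]
    refine Finset.sum_congr rfl fun ω' _ => by ring
  simp only [h3]
  rw [Finset.sum_comm]
  refine Finset.sum_congr rfl fun ω' _ => ?_
  rw [← Finset.sum_mul]
  congr 1
  rcases (hp.nonneg ω').eq_or_lt with h0 | h0
  · rw [← h0]
    refine Finset.sum_eq_zero fun ω _ => ?_
    unfold Pool.Agent.H49.Ent.cond
    split_ifs <;> simp [← h0]
  have h4 := law_pos hp.nonneg Z h0
  have h5 : ∀ ω, p ω * Pool.Agent.H49.Ent.cond p Z (Z ω) ω' =
      (if Z ω = Z ω' then p ω else 0) * (p ω' / law p Z (Z ω')) := by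
    intro ω
    unfold Pool.Agent.H49.Ent.cond
    by_cases h : Z ω = Z ω'
    · rw [if_pos h, if_pos h.symm, h]
    · rw [if_neg h, if_neg (Ne.symm h)]
      simp
  simp only [h5]
  rw [← Finset.sum_mul]
  have h6 : ∑ ω, (if Z ω = Z ω' then p ω else 0) = law p Z (Z ω') := by
    unfold law
    refine Finset.sum_congr rfl fun ω _ => ?_
    congr
  rw [h6]
  field_simp

theorem H_fst (hp : IsLaw p) (X : Ω → S) : H (itr p Z K) (fun w => X w.1) = H p X := by
  classical
  refine H_eq_of_marginal (fun w : Ω × (Fin K → Ω) => w.1) (fun ω => ?_) X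
  have h := sum_fst (Z := Z) (K := K) hp (fun ω' => if ω' = ω then 1 else 0)
  simp only [mul_ite, mul_one, mul_zero, Finset.sum_ite_eq', Finset.mem_univ, if_true] at h
  rw [← h]

theorem H_snd (hp : IsLaw p) (k : Fin K) (X : Ω → S) :
    H (itr p Z K) (fun w => X (w.2 k)) = H p X := by
  classical
  refine H_eq_of_marginal (fun w : Ω × (Fin K → Ω) => w.2 k) (fun ω => ?_) X
  have h := sum_snd (Z := Z) hp k (fun ω' => if ω' = ω then 1 else 0)
  simp only [mul_ite, mul_one, mul_zero, Finset.sum_ite_eq', Finset.mem_univ, if_true] at h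
  rw [← h]

theorem CH_fst (hp : IsLaw p) (X : Ω → S) (W : Ω → T) :
    CH (itr p Z K) (fun w => X w.1) (fun w => W w.1) = CH p X W := by
  unfold CH
  rw [H_fst hp (fun ω => (X ω, W ω)), H_fst hp W]

theorem CH_snd (hp : IsLaw p) (k : Fin K) (X : Ω → S) (W : Ω → T) :
    CH (itr p Z K) (fun w => X (w.2 k)) (fun w => W (w.2 k)) = CH p X W := by
  unfold CH
  rw [H_snd hp k (fun ω => (X ω, W ω)), H_snd hp k W]

/-- The further samples are independent given `Z`. -/
theorem H_refs (hp : IsLaw p) (f : Ω → S) :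
    H (itr p Z K) (fun w => ((fun k => f (w.2 k)), Z w.1)) = H p Z + K * CH p f Z := by
  classical
  have hQ := itr_law (Z := Z) (K := K) hp
  have hlaw : ∀ w, 0 < itr p Z K w →
      law (itr p Z K) (fun w => ((fun k => f (w.2 k)), Z w.1)) ((fun k => f (w.2 k)), Z w.1) =
        law p Z (Z w.1) * ∏ k, (law p (fun ω => (f ω, Z ω)) (f (w.2 k), Z (w.2 k)) /
          law p Z (Z (w.2 k))) := by
    intro w hw
    obtain ⟨hw1, hw2⟩ := itr_pos hp hw
    have e0 : ∀ k, Z (w.2 k) = Z w.1 := fun k => (hw2 k).2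
    simp only [e0]
    have e1 : law (itr p Z K) (fun w => ((fun k => f (w.2 k)), Z w.1))
        ((fun k => f (w.2 k)), Z w.1) = ∑ ω, if Z ω = Z w.1 then
          p ω * ∑ v : Fin K → Ω, ∏ k, (if f (v k) = f (w.2 k) then
            Pool.Agent.H49.Ent.cond p Z (Z w.1) (v k) else 0) else 0 := by
      unfold law
      rw [Fintype.sum_prod_type]
      refine Finset.sum_congr rfl fun ω _ => ?_
      by_cases h : Z ω = Z w.1
      · rw [if_pos h, Finset.mul_sum]
        refine Finset.sum_congr rfl fun v _ => ?_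
        by_cases h2 : (fun k => f (v k)) = fun k => f (w.2 k)
        · have h3 : ∀ k, f (v k) = f (w.2 k) := fun k => congrFun h2 k
          rw [if_pos (Prod.ext h2 h)]
          simp only [h3, if_true]
          unfold itr
          rw [h]
        · rw [if_neg (fun h3 => h2 (Prod.ext_iff.mp h3).1)]
          obtain ⟨k, hk⟩ := Function.ne_iff.mp h2
          rw [Finset.prod_eq_zero (Finset.mem_univ k) (if_neg hk), mul_zero]
      · rw [if_neg h]
        refine Finset.sum_eq_zero fun v _ => ?_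
        rw [if_neg (fun h3 => h (Prod.ext_iff.mp h3).2)]
    rw [e1]
    have e2 : ∑ v : Fin K → Ω, ∏ k, (if f (v k) = f (w.2 k) then
        Pool.Agent.H49.Ent.cond p Z (Z w.1) (v k) else 0) =
        ∏ k, (law p (fun ω => (f ω, Z ω)) (f (w.2 k), Z w.1) / law p Z (Z w.1)) := by
      rw [sum_pi (fun k ω => if f ω = f (w.2 k) then
        Pool.Agent.H49.Ent.cond p Z (Z w.1) ω else 0)]
      refine Finset.prod_congr rfl fun k _ => ?_
      rw [← law_cond]
      rfl
    rw [e2]
    have e3 : ∀ ω, (if Z ω = Z w.1 then p ω * ∏ k, (law p (fun ω => (f ω, Z ω))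
        (f (w.2 k), Z w.1) / law p Z (Z w.1)) else 0) = (if Z ω = Z w.1 then p ω else 0) *
        ∏ k, (law p (fun ω => (f ω, Z ω)) (f (w.2 k), Z w.1) / law p Z (Z w.1)) := by
      intro ω
      split_ifs
      · rfl
      · simp
    simp only [e3]
    rw [← Finset.sum_mul]
    congr 1
  have hterm : ∀ w, itr p Z K w * Real.log (law (itr p Z K)
      (fun w => ((fun k => f (w.2 k)), Z w.1)) ((fun k => f (w.2 k)), Z w.1)) =
      itr p Z K w * Real.log (law p Z (Z w.1)) + ∑ k, itr p Z K w *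
        (Real.log (law p (fun ω => (f ω, Z ω)) (f (w.2 k), Z (w.2 k))) -
          Real.log (law p Z (Z (w.2 k)))) := by
    intro w
    rcases (itr_nonneg (Z := Z) hp w).eq_or_lt with h0 | h0
    · simp [← h0]
    obtain ⟨hw1, hw2⟩ := itr_pos hp h0
    rw [hlaw w h0, Real.log_mul (law_pos hp.nonneg Z hw1).ne'
      (Finset.prod_pos fun k _ => div_pos (law_pos hp.nonneg (fun ω => (f ω, Z ω)) (hw2 k).1)
        (law_pos hp.nonneg Z (hw2 k).1)).ne', Real.log_prod (fun k _ =>
      (div_pos (law_pos hp.nonneg (fun ω => (f ω, Z ω)) (hw2 k).1)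
        (law_pos hp.nonneg Z (hw2 k).1)).ne'), mul_add, Finset.mul_sum]
    congr 1
    refine Finset.sum_congr rfl fun k _ => ?_
    rw [Real.log_div (law_pos hp.nonneg (fun ω => (f ω, Z ω)) (hw2 k).1).ne'
      (law_pos hp.nonneg Z (hw2 k).1).ne']
  have h1 : H (itr p Z K) (fun w => ((fun k => f (w.2 k)), Z w.1)) =
      -∑ w, itr p Z K w * Real.log (law (itr p Z K)
      (fun w => ((fun k => f (w.2 k)), Z w.1)) ((fun k => f (w.2 k)), Z w.1)) := rfl
  rw [h1]
  simp only [hterm]
  rw [Finset.sum_add_distrib, Finset.sum_comm,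
    sum_fst hp (fun ω => Real.log (law p Z (Z ω)))]
  have h2 : ∀ k : Fin K, ∑ w, itr p Z K w *
        (Real.log (law p (fun ω => (f ω, Z ω)) (f (w.2 k), Z (w.2 k))) -
          Real.log (law p Z (Z (w.2 k)))) = -CH p f Z := by
    intro k
    rw [sum_snd hp k (fun ω => Real.log (law p (fun ω => (f ω, Z ω)) (f ω, Z ω)) -
          Real.log (law p Z (Z ω)))]
    unfold CH H
    simp only [mul_sub, Finset.sum_sub_distrib]
    ring
  simp only [h2]
  rw [Finset.sum_const, Finset.card_univ, Fintype.card_fin, nsmul_eq_mul]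
  unfold H
  ring

end Pool.PLV
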