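import Pool.Agent.H46.S6.DpwT

/-!
# Plateaus, if the frames of a typical line are not in a strip

`dp_str`: if for a typical line no strip of width `2 ^ (-(x₀ * X))` contains more than half of the
frames, then the references of one point are nondegenerate with positive probability, and the
theorem on plateaus holds with the context as the visible data.
-/

set_option autoImplicit false

namespace Pool.PLV

open Finset Real
open Pool.Agent.H49.Ent Pool.Agent.H32.Dense Pool.STK Pool.KA Pool.PRM Pool.KVA Pool.M5 Pool.K2S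

section pure

variable {A : Type} [Fintype A] {K : ℕ}

open Classical in
/-- Independent samples satisfy conditions one after the other. -/
theorem prod_ge {κ : A → ℝ} (hκ : ∀ a, 0 ≤ κ a) (h1 : ∑ a, κ a = 1)
    (OK : Fin K → (Fin K → A) → Prop)
    (hdep : ∀ j v v', (∀ i, i ≤ j → v i = v' i) → (OK j v ↔ OK j v')) {r : ℝ} (hr : 0 ≤ r)
    (hs : ∀ j v, r ≤ ∑ a, κ a * (if OK j (Function.update v j a) then 1 else 0)) :
    r ^ K ≤ ∑ v : Fin K → A, (∏ i, κ (v i)) * (if ∀ j, OK j v then 1 else 0) := by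
  have key : ∀ m : ℕ, m ≤ K → r ^ m ≤ ∑ v : Fin K → A, (∏ i, κ (v i)) *
      (if ∀ j : Fin K, (j : ℕ) < m → OK j v then 1 else 0) := by
    intro m
    induction m with
    | zero =>
      intro _
      rw [pow_zero]
      have h2 : ∑ v : Fin K → A, ∏ i, κ (v i) = 1 := by
        rw [sum_pi (fun _ => κ)]
        exact Finset.prod_eq_one fun _ _ => h1
      refine le_of_eq (h2.symm.trans ?_)
      refine Finset.sum_congr rfl fun v _ => ?_
      rw [if_pos (fun j hj => absurd hj (by omega)), mul_one]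
    | succ m ih =>
      intro hm
      have h2 := ih (by omega)
      obtain ⟨k, hk⟩ : ∃ k : Fin K, (k : ℕ) = m := ⟨⟨m, by omega⟩, rfl⟩
      rw [sum_update k κ h1 (fun v => if ∀ j : Fin K, (j : ℕ) < m + 1 → OK j v then 1 else 0)]
      have h3 : ∀ v : Fin K → A, (∏ i, κ (v i)) *
          (if ∀ j : Fin K, (j : ℕ) < m → OK j v then 1 else 0) * r ≤ (∏ i, κ (v i)) *
          ∑ a, κ a * (if ∀ j : Fin K, (j : ℕ) < m + 1 → OK j (Function.update v k a) then 1
            else 0) := by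
        intro v
        rw [mul_assoc]
        refine mul_le_mul_of_nonneg_left ?_ (Finset.prod_nonneg fun i _ => hκ _)
        by_cases h : ∀ j : Fin K, (j : ℕ) < m → OK j v
        · rw [if_pos h, one_mul]
          refine (hs k v).trans (Finset.sum_le_sum fun a _ => ?_)
          refine mul_le_mul_of_nonneg_left ?_ (hκ a)
          by_cases h4 : OK k (Function.update v k a)
          · rw [if_pos h4, if_pos]
            intro j hj
            rcases Nat.lt_succ_iff_lt_or_eq.1 hj with h5 | h5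
            · refine (hdep j v _ fun i hi => ?_).1 (h j h5)
              rw [Function.update_of_ne]
              intro h6
              rw [h6] at hi
              have : (k : ℕ) ≤ j := hi
              omega
            · have h6 : j = k := Fin.ext (h5.trans hk.symm)
              rw [h6]
              exact h4
          · rw [if_neg h4]
            split_ifs <;> norm_num
        · rw [if_neg h, zero_mul]
          exact Finset.sum_nonneg fun a _ => mul_nonneg (hκ a) (by split_ifs <;> norm_num)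
      rw [pow_succ]
      calc r ^ m * r ≤ (∑ v : Fin K → A, (∏ i, κ (v i)) *
          (if ∀ j : Fin K, (j : ℕ) < m → OK j v then 1 else 0)) * r :=
            mul_le_mul_of_nonneg_right h2 hr
        _ = ∑ v : Fin K → A, (∏ i, κ (v i)) *
          (if ∀ j : Fin K, (j : ℕ) < m → OK j v then 1 else 0) * r := Finset.sum_mul _ _ _
        _ ≤ _ := Finset.sum_le_sum fun v _ => h3 v
  refine (key K le_rfl).trans (le_of_eq ?_)
  refine Finset.sum_congr rfl fun v _ => ?_
  congr 1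
  have : (∀ j : Fin K, (j : ℕ) < K → OK j v) ↔ ∀ j, OK j v :=
    ⟨fun h j => h j j.2, fun h j _ => h j⟩
  simp only [this]

/-- Triangular system: the determinant is large. -/
theorem det_tri {n : ℕ} (N e : Fin n → Fin n → ℝ) (hN : ∀ j i, |N j i| ≤ 1)
    (h0 : ∀ j k, k < j → ∑ i, N j i * e k i = 0) {δ : ℝ} (hδ : 0 ≤ δ)
    (h : ∀ j, δ ≤ |∑ i, N j i * e j i|) :
    δ ^ n ≤ (n.factorial : ℝ) * |(Matrix.of e).det| := by
  have h1 : (Matrix.of N * (Matrix.of e).transpose).det = ∏ j, ∑ i, N j i * e j i := by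
    have h2 : (Matrix.of N * (Matrix.of e).transpose).BlockTriangular id := by
      intro j k hjk
      rw [Matrix.mul_apply]
      exact h0 j k hjk
    rw [Matrix.det_of_upperTriangular h2]
    refine Finset.prod_congr rfl fun j _ => ?_
    rw [Matrix.mul_apply]
    rfl
  rw [Matrix.det_mul, Matrix.det_transpose] at h1
  have h3 := Matrix.det_le (A := Matrix.of N) (abv := AbsoluteValue.abs) (x := (1 : ℝ))
    (fun i j => hN i j)
  rw [Fintype.card_fin, nsmul_eq_mul, one_pow, mul_one] at h3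
  have h4 : |∏ j, ∑ i, N j i * e j i| = ∏ j, |∑ i, N j i * e j i| := Finset.abs_prod _ _
  calc δ ^ n = ∏ _j : Fin n, δ := by rw [Finset.prod_const, Finset.card_univ, Fintype.card_fin]
    _ ≤ ∏ j, |∑ i, N j i * e j i| := Finset.prod_le_prod (fun _ _ => hδ) fun j _ => h j
    _ = |(Matrix.of N).det| * |(Matrix.of e).det| := by rw [← h4, ← h1, abs_mul]
    _ ≤ (n.factorial : ℝ) * |(Matrix.of e).det| :=
      mul_le_mul_of_nonneg_right h3 (abs_nonneg _)

end pure

section

variable {Ω Λ ζ : Type} [Fintype Ω] {c : ℕ}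

/-- The frames of a typical line are not in a strip. -/
def NStr (p : Ω → ℝ) (sl : Ω → Λ) (S : Ω → Fin c → ℝ) (δ ε : ℝ) : Prop :=
  Pe p (fun ω => ∃ n : Fin (c + 1) → ℝ, (∀ i, |n i| ≤ 1) ∧ (∃ i, |n i| = 1) ∧
    1 / 2 < Pe (Pool.Agent.H49.Ent.cond p sl (sl ω))
      (fun ρ => |n 0 + ∑ i : Fin c, n i.succ * S ρ i| < δ)) ≤ ε

theorem sum_cond_le {p : Ω → ℝ} (hp : ∀ ω, 0 ≤ p ω) (Z : Ω → ζ) (s : ζ) :
    ∑ ω, Pool.Agent.H49.Ent.cond p Z s ω ≤ 1 := by
  by_cases h : law p Z s = 0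
  · have : ∀ ω, Pool.Agent.H49.Ent.cond p Z s ω = 0 := by
      intro ω
      unfold Pool.Agent.H49.Ent.cond
      rw [h, div_zero, ite_self]
    simp [this]
  · exact (sum_cond p Z h).le

open Classical in
/-- The references of one point are nondegenerate with positive probability. -/
theorem str_det {p : Ω → ℝ} (hp : IsLaw p) (sl : Ω → Λ) (S : Ω → Fin c → ℝ) (Zp : Ω → ζ)
    {δ : ℝ} (hδ : 0 ≤ δ) (h : NStr p sl S δ (1 / 4)) :
    1 / 2 * (1 / 4) ^ (c + 1) ≤
      Pe (itr (dbl p sl) (fun x => Zp x.1) (c + 1))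
        (fun w => δ ^ (c + 1) ≤ ((c + 1).factorial : ℝ) *
          |(Matrix.of fun k => ev (fun x : Ω × Ω => S x.2) (w.2 k)).det|) := by
  have h0 := hp.nonneg
  obtain ⟨Bad, hBad⟩ : ∃ Bad : Ω → Prop, Bad = fun ω => ∃ n : Fin (c + 1) → ℝ,
    (∀ i, |n i| ≤ 1) ∧ (∃ i, |n i| = 1) ∧
    1 / 2 < Pe (Pool.Agent.H49.Ent.cond p sl (sl ω))
      (fun ρ => |n 0 + ∑ i : Fin c, n i.succ * S ρ i| < δ) := ⟨_, rfl⟩
  have hB : Pe p Bad ≤ 1 / 4 := by
    rw [hBad]
    exact h
  -- the law of a reference through the point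
  obtain ⟨κ, hκe⟩ : ∃ κ : Ω → Ω × Ω → ℝ, κ = fun ω x =>
    Pool.Agent.H49.Ent.cond p Zp (Zp ω) x.1 * Pool.Agent.H49.Ent.cond p sl (sl x.1) x.2 :=
    ⟨_, rfl⟩
  have hκ : ∀ ω x, 0 ≤ κ ω x := by
    intro ω x
    rw [hκe]
    exact mul_nonneg (cond_nonneg h0 _ _ _) (cond_nonneg h0 _ _ _)
  have hsl : ∀ x, 0 < p x → ∑ ρ, Pool.Agent.H49.Ent.cond p sl (sl x) ρ = 1 := fun x hx =>
    sum_cond p sl (law_pos h0 sl hx).ne'
  have hκ1 : ∀ ω, 0 < p ω → ∑ x, κ ω x = 1 := by
    intro ω hω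
    rw [hκe, Fintype.sum_prod_type]
    have h1 : ∀ x, ∑ ρ, Pool.Agent.H49.Ent.cond p Zp (Zp ω) x *
        Pool.Agent.H49.Ent.cond p sl (sl x) ρ = Pool.Agent.H49.Ent.cond p Zp (Zp ω) x := by
      intro x
      rw [← Finset.mul_sum]
      rcases (h0 x).eq_or_lt with hx | hx
      · have : Pool.Agent.H49.Ent.cond p Zp (Zp ω) x = 0 := by
          unfold Pool.Agent.H49.Ent.cond
          rw [← hx, zero_div, ite_self]
        rw [this, zero_mul]
      · rw [hsl x hx, mul_one]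
    simp only [h1]
    exact sum_cond p Zp (law_pos h0 Zp hω).ne'
  -- one step
  have step : ∀ ω, 0 < p ω → Pe (Pool.Agent.H49.Ent.cond p Zp (Zp ω)) Bad ≤ 1 / 2 →
      ∀ n : Fin (c + 1) → ℝ, (∀ i, |n i| ≤ 1) → (∃ i, |n i| = 1) →
      1 / 4 ≤ ∑ x, κ ω x * (if δ ≤ |∑ i, n i * ev S x.2 i| then 1 else 0) := by
    intro ω hω hb n hn1 hn2
    have h1 : ∀ x, (if Bad x then 0 else Pool.Agent.H49.Ent.cond p Zp (Zp ω) x * (1 / 2)) ≤
        ∑ ρ, κ ω (x, ρ) * (if δ ≤ |∑ i, n i * ev S ρ i| then 1 else 0) := by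
      intro x
      by_cases hx : Bad x
      · rw [if_pos hx]
        exact Finset.sum_nonneg fun ρ _ => mul_nonneg (hκ _ _) (by split_ifs <;> norm_num)
      rw [if_neg hx]
      rcases (h0 x).eq_or_lt with hx0 | hx0
      · have : Pool.Agent.H49.Ent.cond p Zp (Zp ω) x = 0 := by
          unfold Pool.Agent.H49.Ent.cond
          rw [← hx0, zero_div, ite_self]
        rw [this, zero_mul]
        exact Finset.sum_nonneg fun ρ _ => mul_nonneg (hκ _ _) (by split_ifs <;> norm_num)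
      have h2 : ∑ ρ, κ ω (x, ρ) * (if δ ≤ |∑ i, n i * ev S ρ i| then 1 else 0) =
          Pool.Agent.H49.Ent.cond p Zp (Zp ω) x *
          ∑ ρ, Pool.Agent.H49.Ent.cond p sl (sl x) ρ *
            (if δ ≤ |∑ i, n i * ev S ρ i| then 1 else 0) := by
        rw [hκe, Finset.mul_sum]
        refine Finset.sum_congr rfl fun ρ _ => ?_
        ring
      rw [h2]
      refine mul_le_mul_of_nonneg_left ?_ (cond_nonneg h0 _ _ _)
      have h3 : Pe (Pool.Agent.H49.Ent.cond p sl (sl x))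
          (fun ρ => |n 0 + ∑ i : Fin c, n i.succ * S ρ i| < δ) ≤ 1 / 2 := by
        by_contra h4
        rw [hBad] at hx
        exact hx ⟨n, hn1, hn2, not_le.1 h4⟩
      rw [Pe_eq] at h3
      have h4 : ∑ ρ, Pool.Agent.H49.Ent.cond p sl (sl x) ρ *
            (if δ ≤ |∑ i, n i * ev S ρ i| then (1 : ℝ) else 0) +
          ∑ ρ, (if |n 0 + ∑ i : Fin c, n i.succ * S ρ i| < δ then
            Pool.Agent.H49.Ent.cond p sl (sl x) ρ else 0) = 1 := by
        rw [← Finset.sum_add_distrib]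
        refine Eq.trans ?_ (hsl x hx0)
        refine Finset.sum_congr rfl fun ρ _ => ?_
        rw [sum_ev]
        by_cases h5 : |n 0 + ∑ i : Fin c, n i.succ * S ρ i| < δ
        · rw [if_pos h5, if_neg (not_le.2 h5)]
          ring
        · rw [if_neg h5, if_pos (not_lt.1 h5)]
          ring
      linarith
    rw [Fintype.sum_prod_type]
    refine le_trans ?_ (Finset.sum_le_sum fun x _ => h1 x)
    have h2 : ∑ x, (if Bad x then 0 else Pool.Agent.H49.Ent.cond p Zp (Zp ω) x * (1 / 2)) =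
        1 / 2 * (1 - Pe (Pool.Agent.H49.Ent.cond p Zp (Zp ω)) Bad) := by
      have h3 := sum_cond p Zp (law_pos h0 Zp hω).ne'
      have h4 : 1 / 2 * (1 - Pe (Pool.Agent.H49.Ent.cond p Zp (Zp ω)) Bad) =
          1 / 2 * (∑ x, Pool.Agent.H49.Ent.cond p Zp (Zp ω) x -
            Pe (Pool.Agent.H49.Ent.cond p Zp (Zp ω)) Bad) := by rw [h3]
      rw [h4, Pe_eq, ← Finset.sum_sub_distrib, Finset.mul_sum]
      refine Finset.sum_congr rfl fun x _ => ?_
      split_ifs <;> ring
    rw [h2]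
    linarith
  -- Markov
  have hM : 1 / 2 ≤ Pe p (fun ω => Pe (Pool.Agent.H49.Ent.cond p Zp (Zp ω)) Bad ≤ 1 / 2) := by
    have h1 : ∑ ω, p ω * Pe (Pool.Agent.H49.Ent.cond p Zp (Zp ω)) Bad = Pe p Bad := by
      have h2 : ∀ ω, p ω * Pe (Pool.Agent.H49.Ent.cond p Zp (Zp ω)) Bad =
          ∑ ρ, (if Bad ρ then p ω * Pool.Agent.H49.Ent.cond p Zp (Zp ω) ρ else 0) := by
        intro ω
        rw [Pe_eq, Finset.mul_sum]
        refine Finset.sum_congr rfl fun ρ _ => ?_
        split_ifs <;> ring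
      simp only [h2]
      rw [Finset.sum_comm, Pe_eq]
      refine Finset.sum_congr rfl fun ρ _ => ?_
      by_cases hb : Bad ρ
      · simp only [if_pos hb]
        rcases (h0 ρ).eq_or_lt with hx | hx
        · refine (Finset.sum_eq_zero fun ω _ => ?_).trans hx
          unfold Pool.Agent.H49.Ent.cond
          rw [← hx, zero_div, ite_self, mul_zero]
        · have h3 : ∀ ω, p ω * Pool.Agent.H49.Ent.cond p Zp (Zp ω) ρ =
              (if Zp ω = Zp ρ then p ω else 0) / law p Zp (Zp ρ) * p ρ := by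
            intro ω
            unfold Pool.Agent.H49.Ent.cond
            by_cases h4 : Zp ρ = Zp ω
            · rw [if_pos h4, if_pos h4.symm, h4]
              ring
            · rw [if_neg h4, if_neg (Ne.symm h4)]
              ring
          simp only [h3]
          rw [← Finset.sum_mul, ← Finset.sum_div, ← law_eq_sum,
            div_self (law_pos h0 Zp hx).ne', one_mul]
      · simp only [if_neg hb]
        exact Finset.sum_const_zero
    have h2 : ∀ ω, (if Pe (Pool.Agent.H49.Ent.cond p Zp (Zp ω)) Bad ≤ 1 / 2 then 0 else p ω) ≤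
        2 * (p ω * Pe (Pool.Agent.H49.Ent.cond p Zp (Zp ω)) Bad) := by
      intro ω
      have h5 : 0 ≤ Pe (Pool.Agent.H49.Ent.cond p Zp (Zp ω)) Bad :=
        law_nonneg (cond_nonneg h0 _ _) _ _
      by_cases h3 : Pe (Pool.Agent.H49.Ent.cond p Zp (Zp ω)) Bad ≤ 1 / 2
      · rw [if_pos h3]
        exact mul_nonneg (by norm_num) (mul_nonneg (h0 ω) h5)
      · rw [if_neg h3]
        have := mul_le_mul_of_nonneg_left (not_le.1 h3).le (h0 ω)
        linarith
    have h3 := Finset.sum_le_sum fun ω (_ : ω ∈ (univ : Finset Ω)) => h2 ω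
    rw [← Finset.mul_sum, h1] at h3
    have h4 : Pe p (fun ω => Pe (Pool.Agent.H49.Ent.cond p Zp (Zp ω)) Bad ≤ 1 / 2) +
        ∑ ω, (if Pe (Pool.Agent.H49.Ent.cond p Zp (Zp ω)) Bad ≤ 1 / 2 then 0 else p ω) = 1 := by
      rw [Pe_eq, ← Finset.sum_add_distrib, ← hp.sum_one]
      refine Finset.sum_congr rfl fun ω _ => ?_
      split_ifs <;> ring
    linarith
  -- the product
  rw [Pe_itr_dbl hp sl Zp (c + 1) (fun w => δ ^ (c + 1) ≤ ((c + 1).factorial : ℝ) *
          |(Matrix.of fun k => ev (fun x : Ω × Ω => S x.2) (w k)).det|)]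
  have h5 : ∀ ω, (if Pe (Pool.Agent.H49.Ent.cond p Zp (Zp ω)) Bad ≤ 1 / 2 then p ω else 0) *
      (1 / 4) ^ (c + 1) ≤ p ω * ∑ w : Fin (c + 1) → Ω × Ω,
        (∏ i, Pool.Agent.H49.Ent.cond p Zp (Zp ω) (w i).1 *
          Pool.Agent.H49.Ent.cond p sl (sl (w i).1) (w i).2) *
        (if δ ^ (c + 1) ≤ ((c + 1).factorial : ℝ) *
          |(Matrix.of fun k => ev (fun x : Ω × Ω => S x.2) (w k)).det| then 1 else 0) := by
    intro ω
    have hnn : ∀ w : Fin (c + 1) → Ω × Ω, 0 ≤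
        (∏ i, Pool.Agent.H49.Ent.cond p Zp (Zp ω) (w i).1 *
          Pool.Agent.H49.Ent.cond p sl (sl (w i).1) (w i).2) *
        (if δ ^ (c + 1) ≤ ((c + 1).factorial : ℝ) *
          |(Matrix.of fun k => ev (fun x : Ω × Ω => S x.2) (w k)).det| then (1 : ℝ) else 0) :=
      fun w => mul_nonneg (Finset.prod_nonneg fun i _ => mul_nonneg (cond_nonneg h0 _ _ _)
        (cond_nonneg h0 _ _ _)) (by split_ifs <;> norm_num)
    by_cases h6 : Pe (Pool.Agent.H49.Ent.cond p Zp (Zp ω)) Bad ≤ 1 / 2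
    · rw [if_pos h6]
      rcases (h0 ω).eq_or_lt with hω | hω
      · rw [← hω, zero_mul, zero_mul]
      refine mul_le_mul_of_nonneg_left ?_ (h0 ω)
      have h7 := prod_ge (K := c + 1) (hκ ω) (hκ1 ω hω)
        (fun j v => δ ≤ |∑ i, NF (fun k => ev S (v k).2) j i * ev S (v j).2 i|)
        (by
          intro j v v' hv
          have h8 : NF (fun k => ev S (v k).2) j = NF (fun k => ev S (v' k).2) j :=
            NF_congr fun k hk => by rw [hv k hk.le]
          rw [h8, hv j le_rfl]) (by norm_num : (0 : ℝ) ≤ 1 / 4)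
        (by
          intro j v
          have h8 : ∀ a, NF (fun k => ev S (Function.update v j a k).2) j =
              NF (fun k => ev S (v k).2) j := fun a =>
            NF_congr fun k hk => by rw [Function.update_of_ne hk.ne]
          refine (step ω hω h6 (NF (fun k => ev S (v k).2) j) (NF_le _ j) (NF_one _ j)).trans
            (le_of_eq ?_)
          refine Finset.sum_congr rfl fun a _ => ?_
          rw [h8, Function.update_self])
      refine h7.trans (Finset.sum_le_sum fun w _ => ?_)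
      rw [hκe]
      refine mul_le_mul_of_nonneg_left ?_ (Finset.prod_nonneg fun i _ =>
        mul_nonneg (cond_nonneg h0 _ _ _) (cond_nonneg h0 _ _ _))
      by_cases h8 : ∀ j, δ ≤ |∑ i, NF (fun k => ev S (w k).2) j i * ev S (w j).2 i|
      · rw [if_pos h8, if_pos]
        exact det_tri (fun j => NF (fun k => ev S (w k).2) j) (fun k => ev S (w k).2)
          (fun j i => NF_le _ j i) (fun j k hjk => NF_zero _ j k hjk) hδ h8
      · rw [if_neg h8]
        split_ifs <;> norm_num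
    · rw [if_neg h6, zero_mul]
      exact mul_nonneg (h0 ω) (Finset.sum_nonneg fun w _ => hnn w)
  refine le_trans ?_ (Finset.sum_le_sum fun ω _ => h5 ω)
  rw [← Finset.sum_mul]
  refine mul_le_mul_of_nonneg_right ?_ (by positivity)
  rw [Pe_eq] at hM
  exact hM

/-- **Plateaus, if the frames of a typical line are not in a strip.** The visible data may be the
context. -/
theorem dp_str (c : ℕ) (K c₀ ca : ℝ) (hK : 0 ≤ K) (hc₀ : 0 < c₀) (hca : 0 < ca) :
    ∃ (x₀ η ϖ ι : ℝ) (X₀ : ℕ), 0 < x₀ ∧ 0 < η ∧ 0 < ϖ ∧ 0 < ι ∧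
    ∀ (Ω β γ ν Λ Θ ρ υ : Type) [Fintype Ω] (p : Ω → ℝ) (b : Ω → β) (vis : Ω → ν) (G : Ω → γ)
      (sl : Ω → Λ) (T : Ω → Θ) (R : Ω → ρ) (Y : Ω → υ) (y0 om : Ω → ℝ) (z0 be : Ω → Fin c → ℝ)
      (th : Ω → ℝ) (S : Ω → Fin c → ℝ) (y : Ω → ℝ) (z : Ω → Fin c → ℝ) (X : ℕ),
      DP0 c K p b vis G sl T R Y y0 om z0 be th S y z X → X₀ ≤ X →
      Pool.DPL.DPHyp c p b vis G sl T R Y om be th y z X η ϖ ι ca →
      Pool.DPL.DPH5 c p vis T y z X ϖ c₀ →
      NStr p sl S ((2 : ℝ) ^ (-(x₀ * X))) (1 / 4) → False := by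
  obtain ⟨x₁, η, ϖ, ι, X₁, hx₁, hη, hϖ, hι, hD⟩ := dp_det Pool.DPL.lay_thm Pool.DPL.layl_thm c K c₀
    ca (1 / 2 * (1 / 4) ^ (c + 1)) hK hc₀ hca (by positivity)
  have l2 : 0 < Real.log 2 := Real.log_pos (by norm_num)
  have hc1 : (0 : ℝ) < c + 1 := by positivity
  have hM0 : (0 : ℝ) < ((c + 1).factorial : ℝ) := by positivity
  obtain ⟨X₂, hX₂⟩ := exists_nat_ge (Real.log ((c + 1).factorial : ℝ) / (x₁ / 2 * Real.log 2))
  refine ⟨x₁ / (2 * (c + 1)), η, ϖ, ι, X₁ + X₂, by positivity, hη, hϖ, hι, ?_⟩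
  intro Ω β γ ν Λ Θ ρ υ _ p b vis G sl T R Y y0 om z0 be th S y z X hd hX hh h5 hN
  refine hD Ω β γ ν Λ Θ ρ υ p b vis G sl T R Y y0 om z0 be th S y z X hd (by omega) hh h5 ?_
  have h1 := str_det hd.law sl S (fun ω => ((vis ω, T ω), blk X y z ω)) (by positivity) hN
  refine h1.trans ?_
  refine Pe_mono (itr_law (dp_gd hd).law) ?_
  intro w hw
  have h2 : ((2 : ℝ) ^ (-(x₁ / (2 * (c + 1)) * X))) ^ (c + 1) = (2 : ℝ) ^ (-(x₁ / 2 * X)) := by
    rw [← Real.rpow_natCast, ← Real.rpow_mul (by norm_num)]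
    congr 1
    push_cast
    field_simp
  rw [h2] at hw
  have h3 : (((c + 1).factorial : ℕ) : ℝ) ≤ (2 : ℝ) ^ (x₁ / 2 * X) := by
    have h4 : (Real.log ((c + 1).factorial : ℝ) / (x₁ / 2 * Real.log 2) : ℝ) ≤ X :=
      hX₂.trans (by exact_mod_cast (by omega : X₂ ≤ X))
    rw [div_le_iff₀ (by positivity)] at h4
    calc (((c + 1).factorial : ℕ) : ℝ) = Real.exp (Real.log ((c + 1).factorial : ℝ)) :=
          (Real.exp_log hM0).symm
      _ ≤ Real.exp (Real.log 2 * (x₁ / 2 * X)) := Real.exp_le_exp.2 (by linarith)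
      _ = (2 : ℝ) ^ (x₁ / 2 * X) := (Real.rpow_def_of_pos (by norm_num) _).symm
  have h5 : (2 : ℝ) ^ (-(x₁ * X)) * (2 : ℝ) ^ (x₁ / 2 * X) = (2 : ℝ) ^ (-(x₁ / 2 * X)) := by
    rw [← Real.rpow_add (by norm_num)]
    congr 1
    ring
  have h6 : (0 : ℝ) < (2 : ℝ) ^ (-(x₁ * X)) := by positivity
  have h7 : (2 : ℝ) ^ (-(x₁ * X)) * (((c + 1).factorial : ℕ) : ℝ) ≤
      (((c + 1).factorial : ℕ) : ℝ) *
      |(Matrix.of fun k => ev (fun x : Ω × Ω => S x.2) (w.2 k)).det| := by
    refine le_trans ?_ hw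
    rw [← h5]
    exact mul_le_mul_of_nonneg_left h3 h6.le
  rw [mul_comm] at h7
  exact le_of_mul_le_mul_left h7 hM0

end

end Pool.PLV
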