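import Pool.Agent.H46.S6.PlvF
import Pool.Agent.H21.UE.WD

/-!
# Theorem PLV, without hypotheses
-/

set_option autoImplicit false

namespace Pool.PLV

/-- Lemma W (helper21). -/
theorem wd : WDStmt := by
  intro ε ca hε hca
  obtain ⟨η, ϖ, ι, n₀, h1, h2, h3, h⟩ := Pool.UE.wd ε ca hε hca
  refine ⟨η, ϖ, ι, n₀, h1, h2, h3, ?_⟩
  intro Ω β Λ Θ _ p b L T om m0 th S nu X hd
  exact h Ω β Λ Θ p b L T om m0 th S nu X
    ⟨hd.law, hd.dom, hd.dm0, hd.dth, hd.dS, hd.hom, hd.hth, hd.hnu⟩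

/-- **Theorem PLV** in every dimension. -/
theorem plv (c : ℕ) : PLVStmt c := plv_of wd c

end Pool.PLV
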