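import Pool.Agent.H46.S6.Wd
import Pool.Agent.H35.K2S.Dich

/-!
# Plateaus: entropy tools
-/

set_option autoImplicit false

namespace Pool.PLV

open Finset Real
open Pool.Agent.H49.Ent Pool.Agent.H32.Dense Pool.STK Pool.KA Pool.PRM Pool.KVA Pool.M5 Pool.K2S

section tools

variable {Ω S S' T U V W : Type} [Fintype Ω] {p : Ω → ℝ}

theorem MI_congr (hp : ∀ ω, 0 ≤ p ω) (A : Ω → S) {B : Ω → T} {B' : Ω → U} {b : Ω → V} {b' : Ω → W}
    (h1 : Det p (fun ω => (B ω, b ω)) B') (h2 : Det p (fun ω => (B' ω, b' ω)) B)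
    (h3 : Det p b b') (h4 : Det p b' b) : MI p A B b = MI p A B' b' := by
  rw [MI_eq hp, MI_eq hp]
  have e1 : CH p A b = CH p A b' := CH_congr hp (fun ω ω' _ _ h => (Prod.ext_iff.mp h).1)
    (fun ω ω' _ _ h => (Prod.ext_iff.mp h).1) h3 h4
  have e2 : CH p A (fun ω => (B ω, b ω)) = CH p A (fun ω => (B' ω, b' ω)) := by
    refine CH_congr hp (fun ω ω' _ _ h => (Prod.ext_iff.mp h).1)
      (fun ω ω' _ _ h => (Prod.ext_iff.mp h).1) ?_ ?_
    · intro ω ω' a c h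
      exact Prod.ext (h1 ω ω' a c h) (h3 ω ω' a c (Prod.ext_iff.mp h).2)
    · intro ω ω' a c h
      exact Prod.ext (h2 ω ω' a c h) (h4 ω ω' a c (Prod.ext_iff.mp h).2)
  rw [e1, e2]

/-- Fewer data in the first place. -/
theorem MI_mono_left (hp : ∀ ω, 0 ≤ p ω) {A : Ω → S} {A' : Ω → S'} (B : Ω → T) {b : Ω → U}
    (h : Det p (fun ω => (A ω, b ω)) A') : MI p A' B b ≤ MI p A B b := by
  have := MI_le_add' hp A' A B b
  rw [CH_eq_zero hp h] at this
  linarith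

/-- Another form of the condition. -/
theorem MI_swap (hp : ∀ ω, 0 ≤ p ω) (A : Ω → S) (B : Ω → T) (c : Ω → U) (c' : Ω → V) :
    MI p A B c' ≤ MI p A B c + CH p c c' + CH p c' c := by
  have h1 := MI_chain_right hp A c B c'
  have h2 := MI_chain_right hp A B c c'
  have h3 := MI_nonneg hp A c (fun ω => (B ω, c' ω))
  have h4 : MI p A (fun ω => (c ω, B ω)) c' = MI p A (fun ω => (B ω, c ω)) c' := by
    refine MI_congr hp A ?_ ?_ (fun _ _ _ _ h => h) (fun _ _ _ _ h => h) <;>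
    · intro ω ω' _ _ h
      simp only [Prod.mk.injEq] at h ⊢
      tauto
  have h5 := MI_le_CH hp A c c'
  have h6 := MI_cond_le hp A B c' c
  have h7 : MI p A B (fun ω => (c ω, c' ω)) = MI p A B (fun ω => (c' ω, c ω)) := by
    refine MI_congr hp A ?_ ?_ ?_ ?_ <;>
    · intro ω ω' _ _ h
      simp only [Prod.mk.injEq] at h ⊢
      tauto
  linarith

/-- An integer vector which is known up to `K`. -/
theorem CH_nearv {q : Ω → ℝ} (hq : IsLaw q) {c : ℕ} (X : Ω → Fin c → ℤ) (Z : Ω → T)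
    (g : Ω → Fin c → ℝ) (hg : Det q Z g) {K : ℝ}
    (h : ∀ ω, 0 < q ω → ∀ i, |(X ω i : ℝ) - g ω i| ≤ K) :
    CH q X Z ≤ c * Real.log (4 * K + 1) := by
  have h1 := CH_le_vec hq.nonneg hq.sum_one X Z (fun _ => 2 * K) (fun ω ω' a b e i => by
    have e1 := h ω a i
    have e2 := h ω' b i
    rw [hg ω ω' a b e] at e1
    push_cast
    rw [abs_le] at *
    constructor <;> linarith)
  have h2 : Ex q (fun _ => Real.log (2 * (2 * K) + 1)) = Real.log (4 * K + 1) := by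
    unfold Ex
    rw [← Finset.sum_mul, hq.sum_one, one_mul]
    congr 1
    ring
  rw [h2] at h1
  exact h1

/-- Removing data from the condition which are almost known. -/
theorem CH_drop (hp : ∀ ω, 0 ≤ p ω) (A : Ω → S) (Z : Ω → T) (D : Ω → U) (Z' : Ω → V)
    (h : Det p (fun ω => (D ω, Z' ω)) Z) : CH p A Z' - CH p D Z' ≤ CH p A Z := by
  have h1 := CH_mono_cond hp (X := A) h
  have h2 := CH_le_add hp A D Z'
  linarith

theorem CH_pair_le (hp : ∀ ω, 0 ≤ p ω) (A : Ω → S) (B : Ω → T) (Z : Ω → U) {a b : ℝ}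
    (h1 : CH p A Z ≤ a) (h2 : CH p B Z ≤ b) : CH p (fun ω => (A ω, B ω)) Z ≤ a + b :=
  (CH_subadd hp A B Z).trans (add_le_add h1 h2)

end tools

/-- The digits of a vector. -/
noncomputable def dgv {Ω : Type} {c : ℕ} (X : ℕ) (z : Ω → Fin c → ℝ) (ω : Ω) : Fin c → ℤ :=
  fun i => ⌊(2 : ℝ) ^ X * z ω i⌋

theorem floor_abs (x : ℝ) : |(⌊x⌋ : ℝ) - x| ≤ 1 := by
  rw [abs_le]
  have := Int.floor_le x
  have := Int.lt_floor_add_one x
  constructor <;> linarith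

/-- The digits of a real number which is known up to `K / 2 ^ X`. -/
theorem dg_near {X : ℕ} {x g K : ℝ} (h : |x - g| * 2 ^ X ≤ K) :
    |(⌊(2 : ℝ) ^ X * x⌋ : ℝ) - 2 ^ X * g| ≤ K + 1 := by
  have h1 := floor_abs ((2 : ℝ) ^ X * x)
  have h2 : |(2 : ℝ) ^ X * x - 2 ^ X * g| ≤ K := by
    rw [← mul_sub, abs_mul, abs_of_pos (by positivity : (0 : ℝ) < 2 ^ X), mul_comm]
    exact h
  calc |(⌊(2 : ℝ) ^ X * x⌋ : ℝ) - 2 ^ X * g|
      = |((⌊(2 : ℝ) ^ X * x⌋ : ℝ) - 2 ^ X * x) + (2 ^ X * x - 2 ^ X * g)| := by congr 1; ring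
    _ ≤ _ := abs_add_le _ _
    _ ≤ K + 1 := by linarith

end Pool.PLV
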