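import Pool.Agent.H46.S6.PlvE

/-!
# Theorem PLV, from lemma W
-/

set_option autoImplicit false

namespace Pool.PLV

open Finset Real
open Pool.Agent.H49.Ent Pool.Agent.H32.Dense Pool.STK Pool.KA Pool.PRM Pool.KVA Pool.M5 Pool.K2S

/-- The vector of the frame. -/
def ev {Ω : Type} {c : ℕ} (S : Ω → Fin c → ℝ) (ω : Ω) : Fin (c + 1) → ℝ := Fin.cons 1 (S ω)

theorem sum_ev {Ω : Type} {c : ℕ} (S : Ω → Fin c → ℝ) (n : Fin (c + 1) → ℝ) (ω : Ω) :
    ∑ i, n i * ev S ω i = n 0 + ∑ i, n i.succ * S ω i := by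
  rw [Fin.sum_univ_succ]
  unfold ev
  simp

/-- **The estimate for the block.** -/
theorem plv_aux {Ω β γ Λ Θ ρ υ : Type} [Fintype Ω] {c : ℕ} {K : ℝ} {p : Ω → ℝ} {vis : Ω → β}
    {lam : Ω → γ} {L : Ω → Λ} {T : Ω → Θ} {R : Ω → ρ} {Y : Ω → υ} {y0 om : Ω → ℝ}
    {z0 be : Ω → Fin c → ℝ} {th th' : Ω → ℝ} {S : Ω → Fin c → ℝ} {y : Ω → ℝ}
    {z : Ω → Fin c → ℝ} {X : ℕ} (hK : 0 ≤ K) {η ϖ ι x₀ ε₁ ca a : ℝ}
    (hd : PVData c K p vis lam L T R Y y0 om z0 be th th' S y z X)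
    (hp : PVHyp c p vis lam L T R Y om be th S y z X x₀ η ϖ ι ε₁ ca) (hx : 0 ≤ x₀)
    (hε : 0 ≤ ε₁)
    (ha : a ≤ CH p (Uni.dg X y) (fun ω => (prj X y z S ω, ((vis ω, T ω), (lam ω, R ω))))) :
    (c + 1) * (a - c * (2 * (ι * X)) - (c + 1) * Real.log (4 * (c + 2) + 1) -
      x₀ * X * Real.log 2 - Real.log (2 * c + 3) -
      2 * ε₁ * (X * Real.log 2 + Real.log (4 * (K + 1) + 1))) ≤
      CH p (blk X y z) (fun ω => (vis ω, T ω)) := by
  classical
  have hp0 := hd.law.nonneg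
  obtain ⟨v, hv⟩ : ∃ v : Ω → β × Θ, v = fun ω => (vis ω, T ω) := ⟨_, rfl⟩
  obtain ⟨x, hx'⟩ : ∃ x : Ω → ℤ × (Fin c → ℤ), x = blk X y z := ⟨_, rfl⟩
  obtain ⟨r, hr⟩ : ∃ r : Ω → γ × ρ, r = fun ω => (lam ω, R ω) := ⟨_, rfl⟩
  obtain ⟨Q, hQ⟩ : ∃ Q, Q = itr p (fun ω => (v ω, x ω)) (c + 1) := ⟨_, rfl⟩
  have hlaw : IsLaw Q := hQ ▸ itr_law hd.law
  have h0 := hlaw.nonneg
  have hsup : ∀ w, 0 < Q w → ∀ j, v (w.2 j) = v w.1 ∧ x (w.2 j) = x w.1 := by
    intro w hw j
    rw [hQ] at hw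
    have h := ((itr_pos hd.law hw).2 j).2
    exact ⟨(Prod.ext_iff.mp h).1, (Prod.ext_iff.mp h).2⟩
  have hpos : ∀ w, 0 < Q w → 0 < p w.1 ∧ ∀ j, 0 < p (w.2 j) := by
    intro w hw
    rw [hQ] at hw
    have h := itr_pos hd.law hw
    exact ⟨h.1, fun j => (h.2 j).1⟩
  obtain ⟨C, hC⟩ : ∃ C : Ω × (Fin (c + 1) → Ω) → (β × Θ) × (Fin (c + 1) → γ × ρ),
    C = fun w => (v w.1, fun k => r (w.2 k)) := ⟨_, rfl⟩
  -- information of one reference
  have hMI : MI p x r v ≤ 2 * (ι * X) := by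
    have e1 := MI_chain_right hp0 x lam R v
    have e2 : MI p x lam v ≤ ι * X := by
      rw [hx', hv]
      exact hp.h7
    have e3 : MI p x R (fun ω => (lam ω, v ω)) ≤ ι * X := by
      have f1 := hp.h2
      rw [← hx'] at f1
      have f2 := MI_chain_right hp0 x R (fun ω => (Uni.dg X om ω, dgv X be ω))
        (fun ω => ((vis ω, lam ω), T ω))
      have f3 := MI_nonneg hp0 x (fun ω => (Uni.dg X om ω, dgv X be ω))
        (fun ω => (R ω, ((vis ω, lam ω), T ω)))
      have f4 : MI p x (fun ω => (R ω, (Uni.dg X om ω, dgv X be ω)))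
          (fun ω => ((vis ω, lam ω), T ω)) =
          MI p x (fun ω => ((Uni.dg X om ω, dgv X be ω), R ω))
          (fun ω => ((vis ω, lam ω), T ω)) := by
        refine MI_congr hp0 _ ?_ ?_ (fun _ _ _ _ h => h) (fun _ _ _ _ h => h) <;>
        · intro ω ω' _ _ h
          simp only [Prod.mk.injEq] at h ⊢
          tauto
      have f5 : MI p x R (fun ω => (lam ω, v ω)) = MI p x R (fun ω => ((vis ω, lam ω), T ω)) := by
        rw [hv]
        refine MI_congr hp0 _ (fun _ _ _ _ h => (Prod.ext_iff.mp h).1)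
          (fun _ _ _ _ h => (Prod.ext_iff.mp h).1) ?_ ?_ <;>
        · intro ω ω' _ _ h
          simp only [Prod.mk.injEq] at h ⊢
          tauto
      linarith
    rw [hr]
    linarith
  -- the frames and the forms are functions of the references
  have hS : ∀ k, Det Q C (fun w => S (w.2 k)) := by
    intro k w w' a b e
    rw [hC] at e
    have e1 : v w.1 = v w'.1 := (Prod.ext_iff.mp e).1
    have e2 : r (w.2 k) = r (w'.2 k) := congrFun (Prod.ext_iff.mp e).2 k
    have e3 : v (w.2 k) = v (w'.2 k) := by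
      rw [(hsup w a k).1, (hsup w' b k).1, e1]
    rw [hv] at e3
    rw [hr] at e2
    simp only [Prod.mk.injEq] at e2 e3
    exact hd.dS _ _ ((hpos w a).2 k) ((hpos w' b).2 k) (by simp only [e2.1, e2.2, e3.1])
  obtain ⟨N, hN⟩ : ∃ N : Fin (c + 1) → Ω × (Fin (c + 1) → Ω) → Fin (c + 1) → ℝ,
    N = fun j w => NF (fun k => ev S (w.2 k)) j := ⟨_, rfl⟩
  have hNd : ∀ k, Det Q C (N k) := by
    intro k w w' a b e
    rw [hN]
    dsimp only
    congr 1
    funext j
    have := hS j w w' a b e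
    dsimp only at this
    unfold ev
    rw [this]
  have hN1 : ∀ j w, 0 < Q w → ∀ i, |N j w i| ≤ 1 := by
    intro j w _ i
    rw [hN]
    exact NF_le _ j i
  have hN0 : ∀ j k, k < j → ∀ w, 0 < Q w → N j w 0 + ∑ i, N j w i.succ * S (w.2 k) i = 0 := by
    intro j k hjk w _
    rw [hN]
    dsimp only
    rw [← sum_ev]
    exact NF_zero (fun k => ev S (w.2 k)) j k hjk
  have hy : ∀ w : Ω × (Fin (c + 1) → Ω), 0 < Q w →
      |((Uni.dg X y w.1 : ℤ) : ℝ)| ≤ (K + 1) * 2 ^ X := by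
    intro w hw
    have e1 := hd.hyb w.1 (hpos w hw).1
    have e2 : |(Uni.dg X y w.1 : ℝ) - 2 ^ X * y w.1| ≤ 1 := floor_abs _
    have e3 : |(2 : ℝ) ^ X * y w.1| ≤ 2 ^ X * K := by
      rw [abs_mul, abs_of_pos (by positivity : (0 : ℝ) < 2 ^ X)]
      exact mul_le_mul_of_nonneg_left e1 (by positivity)
    have e4 : (1 : ℝ) ≤ 2 ^ X := one_le_pow₀ (by norm_num)
    rw [abs_le] at e2 e3 ⊢
    constructor <;> nlinarith
  obtain ⟨D, hD⟩ : ∃ D : ℝ, D = (2 : ℝ) ^ (x₀ * X) := ⟨_, rfl⟩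
  have hD1 : 1 ≤ D := by
    rw [hD]
    exact Real.one_le_rpow (by norm_num) (mul_nonneg hx (Nat.cast_nonneg X))
  have hDl : Real.log D = x₀ * X * Real.log 2 := by
    rw [hD, Real.log_rpow (by norm_num)]
  have hDi : D⁻¹ = (2 : ℝ) ^ (-(x₀ * X)) := by
    rw [hD, Real.rpow_neg (by norm_num)]
  -- degenerate references are rare
  have hb : ∀ j, Pe Q (fun w => |N j w 0 + ∑ i, N j w i.succ * S (w.2 j) i| < D⁻¹) ≤
      2 * ε₁ := by
    intro j
    have h6 := hp.h6
    rw [← hx'] at h6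
    have h7 := Pe_update hd.law (fun ω => (v ω, x ω)) j
      (fun u ω => |NF (fun k => ev S (u k)) j 0 +
        ∑ i, NF (fun k => ev S (u k)) j i.succ * S ω i| < D⁻¹) ?_
      {ω | ∃ n : Fin (c + 1) → ℝ, (∀ i, |n i| ≤ 1) ∧ (∃ i, |n i| = 1) ∧
        ε₁ < Pool.KAF.Pr (Pool.Agent.H49.Ent.cond p (fun ω => ((vis ω, T ω), x ω))
          ((vis ω, T ω), x ω))
        {ω' | |n 0 + ∑ i, n i.succ * S ω' i| < (2 : ℝ) ^ (-(x₀ * X))}} hε ?_
    · rw [hN, hQ]
      linarith
    · intro u b ω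
      have h8 : NF (fun k => ev S (Function.update u j b k)) j = NF (fun k => ev S (u k)) j := by
        refine NF_congr fun k hk => ?_
        rw [Function.update_of_ne hk.ne]
      rw [h8]
    · intro ω _ hω u
      rw [Set.mem_setOf_eq, not_exists] at hω
      have h8 := hω (NF (fun k => ev S (u k)) j)
      rw [not_and, not_and, not_lt] at h8
      have h9 := h8 (NF_le _ j) (NF_one _ j)
      rw [← hDi] at h9
      have h10 : Pe (Pool.Agent.H49.Ent.cond p (fun ω => (v ω, x ω)) (v ω, x ω))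
          (fun ω' => |NF (fun k => ev S (u k)) j 0 +
            ∑ i, NF (fun k => ev S (u k)) j i.succ * S ω' i| < D⁻¹) =
          Pool.KAF.Pr (Pool.Agent.H49.Ent.cond p (fun ω => ((vis ω, T ω), x ω))
          ((vis ω, T ω), x ω)) {ω' | |NF (fun k => ev S (u k)) j 0 +
            ∑ i, NF (fun k => ev S (u k)) j i.succ * S ω' i| < D⁻¹} := by
        rw [hv]
        rfl
      rw [h10]
      exact h9
  -- fullness along the frame of a reference, given all references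
  have hfull : ∀ j, a - c * (2 * (ι * X)) ≤ CH Q (fun w => Uni.dg X y w.1)
      (fun w => (prz (fun w => S (w.2 j)) (fun w => Uni.dg X y w.1)
        (fun w => dgv X z w.1) w, C w)) := by
    intro j
    obtain ⟨yd, hyd⟩ : ∃ yd : Ω × (Fin (c + 1) → Ω) → ℤ, yd = fun w => Uni.dg X y w.1 :=
      ⟨_, rfl⟩
    obtain ⟨pj, hpj⟩ : ∃ pj, pj = prz (fun w : Ω × (Fin (c + 1) → Ω) => S (w.2 j))
      (fun w => Uni.dg X y w.1) (fun w => dgv X z w.1) := ⟨_, rfl⟩
    obtain ⟨W, hW⟩ : ∃ W : Ω × (Fin (c + 1) → Ω) → (γ × ρ) × (β × Θ),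
      W = fun w => (r (w.2 j), v w.1) := ⟨_, rfl⟩
    rw [← hpj, ← hyd]
    have s1 : CH Q yd (fun w => (pj w, C w)) =
        CH Q yd (fun w => (oth r j w, (pj w, W w))) := by
      refine CH_congr h0 (fun _ _ _ _ h => (Prod.ext_iff.mp h).1)
        (fun _ _ _ _ h => (Prod.ext_iff.mp h).1) ?_ ?_
      · intro w w' _ _ h
        rw [hC] at h
        rw [hW]
        simp only [Prod.mk.injEq] at h ⊢
        obtain ⟨h1, h2, h3⟩ := h
        refine ⟨funext fun i => ?_, h1, congrFun h3 j, h2⟩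
        unfold oth
        have h4 : r (w.2 i) = r (w'.2 i) := congrFun h3 i
        rw [h4]
      · intro w w' _ _ h
        rw [hW] at h
        rw [hC]
        simp only [Prod.mk.injEq] at h ⊢
        obtain ⟨h1, h2, h3, h4⟩ := h
        refine ⟨h2, h4, funext fun i => ?_⟩
        by_cases h5 : i = j
        · rw [h5]
          exact h3
        · have h6 := congrFun h1 i
          unfold oth at h6
          rw [if_neg h5, if_neg h5] at h6
          exact Option.some.inj h6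
    have s2 := MI_eq h0 yd (oth r j) (fun w => (pj w, W w))
    have s3 := MI_chain_left h0 pj yd (oth r j) W
    have s4 := MI_nonneg h0 pj (oth r j) W
    have s5 : MI Q (fun w => (pj w, yd w)) (oth r j) W ≤ MI Q (fun w => x w.1) (oth r j) W := by
      refine MI_mono_left h0 _ ?_
      intro w w' a b h
      have h1 : x w.1 = x w'.1 := (Prod.ext_iff.mp h).1
      have h2 : W w = W w' := (Prod.ext_iff.mp h).2
      rw [hx'] at h1
      have h3 : Uni.dg X y w.1 = Uni.dg X y w'.1 := (Prod.ext_iff.mp h1).1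
      have h4 : dgv X z w.1 = dgv X z w'.1 := (Prod.ext_iff.mp h1).2
      rw [hW] at h2
      have h5 : r (w.2 j) = r (w'.2 j) := (Prod.ext_iff.mp h2).1
      have h6 : v w.1 = v w'.1 := (Prod.ext_iff.mp h2).2
      have h7 : v (w.2 j) = v (w'.2 j) := by
        rw [(hsup w a j).1, (hsup w' b j).1, h6]
      have h8 : S (w.2 j) = S (w'.2 j) := by
        rw [hv] at h7
        rw [hr] at h5
        simp only [Prod.mk.injEq] at h5 h7
        exact hd.dS _ _ ((hpos w a).2 j) ((hpos w' b).2 j) (by simp only [h5.1, h5.2, h7.1])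
      rw [hpj, hyd]
      refine Prod.ext ?_ h3
      funext i
      show ⌊((dgv X z w.1 i : ℤ) : ℝ) - S (w.2 j) i * (Uni.dg X y w.1 : ℝ)⌋ =
        ⌊((dgv X z w'.1 i : ℤ) : ℝ) - S (w'.2 j) i * (Uni.dg X y w'.1 : ℝ)⌋
      rw [h3, h4, h8]
    have s6 := MI_chain_left h0 (fun w => r (w.2 j)) (fun w => x w.1) (oth r j)
      (fun w : Ω × (Fin (c + 1) → Ω) => v w.1)
    have s7 := MI_nonneg h0 (fun w => r (w.2 j)) (oth r j)
      (fun w : Ω × (Fin (c + 1) → Ω) => v w.1)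
    have s8 : MI Q (fun w => x w.1) (oth r j) (fun w => (r (w.2 j), v w.1)) =
        MI Q (fun w => x w.1) (oth r j) W := by rw [hW]
    have s9 : MI Q (fun w => (r (w.2 j), x w.1)) (oth r j) (fun w => v w.1) ≤
        MI Q (fun w => (x w.1, r (w.2 j))) (oth r j) (fun w => v w.1) := by
      refine MI_mono_left h0 _ ?_
      intro w w' _ _ h
      simp only [Prod.mk.injEq] at h ⊢
      tauto
    have s10 := MI_oth hd.law v x r j
    rw [← hQ] at s10
    have s11 : (((c + 1 : ℕ) : ℝ) - 1) * MI p x r v ≤ c * (2 * (ι * X)) := by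
      push_cast
      have : ((c : ℝ) + 1 - 1) = c := by ring
      rw [this]
      exact mul_le_mul_of_nonneg_left hMI (Nat.cast_nonneg c)
    have s12 : CH Q yd (fun w => (pj w, W w)) =
        CH p (Uni.dg X y) (fun ω => (prj X y z S ω, ((vis ω, T ω), (lam ω, R ω)))) := by
      have t1 := CH_snd (Z := fun ω => (v ω, x ω)) hd.law j (Uni.dg X y)
        (fun ω => (prj X y z S ω, ((vis ω, T ω), (lam ω, R ω))))
      rw [← hQ] at t1
      rw [← t1]
      have t2 : ∀ w, 0 < Q w → Uni.dg X y (w.2 j) = Uni.dg X y w.1 ∧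
          dgv X z (w.2 j) = dgv X z w.1 := by
        intro w hw
        have h := (hsup w hw j).2
        rw [hx'] at h
        exact ⟨(Prod.ext_iff.mp h).1, (Prod.ext_iff.mp h).2⟩
      have t3 : ∀ w, 0 < Q w → pj w = prj X y z S (w.2 j) := by
        intro w hw
        rw [hpj]
        unfold prz prj
        rw [(t2 w hw).1, (t2 w hw).2]
      refine CH_congr h0 ?_ ?_ ?_ ?_
      · intro w w' a b h
        have h1 : yd w = yd w' := (Prod.ext_iff.mp h).1
        show Uni.dg X y (w.2 j) = Uni.dg X y (w'.2 j)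
        rw [(t2 w a).1, (t2 w' b).1]
        rw [hyd] at h1
        exact h1
      · intro w w' a b h
        have h1 : Uni.dg X y (w.2 j) = Uni.dg X y (w'.2 j) := (Prod.ext_iff.mp h).1
        rw [(t2 w a).1, (t2 w' b).1] at h1
        rw [hyd]
        exact h1
      · intro w w' a b h
        have h1 : pj w = pj w' := (Prod.ext_iff.mp h).1
        have h2 : W w = W w' := (Prod.ext_iff.mp h).2
        rw [hW, hr] at h2
        rw [t3 w a, t3 w' b] at h1
        have h3 : v (w.2 j) = v (w'.2 j) := by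
          rw [(hsup w a j).1, (hsup w' b j).1]
          exact (Prod.ext_iff.mp h2).2
        rw [hv] at h3
        simp only [Prod.mk.injEq] at h2 h3 ⊢
        tauto
      · intro w w' a b h
        simp only [Prod.mk.injEq] at h
        obtain ⟨h1, ⟨h2, h3⟩, h4, h5⟩ := h
        rw [← t3 w a, ← t3 w' b] at h1
        refine Prod.ext h1 ?_
        rw [hW, hr]
        have h6 : v (w.2 j) = v (w'.2 j) := by
          rw [hv]
          simp only [h2, h3]
        rw [(hsup w a j).1, (hsup w' b j).1] at h6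
        simp only [Prod.mk.injEq]
        exact ⟨⟨h4, h5⟩, h6⟩
    linarith
  have h := sum_full hlaw C (fun w => Uni.dg X y w.1) (fun w => dgv X z w.1)
    (fun k w => S (w.2 k)) N hS hNd hN1 hN0 (by linarith : (0 : ℝ) ≤ K + 1) hy hD1 hb hfull
  rw [hDl] at h
  refine h.trans ?_
  have t1 : CH Q (fun w => x w.1) (fun w => v w.1) = CH p x v := by
    rw [hQ]
    exact CH_fst hd.law x v
  have t2 : CH Q (fun w => (Uni.dg X y w.1, dgv X z w.1)) C ≤
      CH Q (fun w => x w.1) (fun w => v w.1) := by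
    have t3 : (fun w : Ω × (Fin (c + 1) → Ω) => (Uni.dg X y w.1, dgv X z w.1)) =
        fun w => x w.1 := by
      rw [hx']
      rfl
    rw [t3]
    refine CH_mono_cond h0 ?_
    intro w w' _ _ h
    rw [hC] at h
    exact (Prod.ext_iff.mp h).1
  rw [t1, hx', hv] at t2
  exact t2

/-- **Theorem PLV**, from lemma W. -/
theorem plv_of (hW : WDStmt) (c : ℕ) : PLVStmt c := by
  intro ε ca K hε hca hK
  have l2 : 0 < Real.log 2 := Real.log_pos (by norm_num)
  obtain ⟨m, hm⟩ : ∃ m : ℝ, m = c + 1 := ⟨_, rfl⟩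
  have hm1 : 1 ≤ m := by
    rw [hm]
    linarith [Nat.cast_nonneg (α := ℝ) c]
  obtain ⟨e, he⟩ : ∃ e : ℝ, e = ε / (8 * m) := ⟨_, rfl⟩
  have he0 : 0 < e := by
    rw [he]
    positivity
  have hem : 8 * m * e = ε := by
    rw [he]
    field_simp
  obtain ⟨η, ϖ, ι, n₁, hη, hϖ, hι, hw⟩ := hW e (ca / 2) he0 (by positivity)
  obtain ⟨C1, hC1⟩ : ∃ C1 : ℝ, C1 = (c + 1) * Real.log (4 * (c + 2) + 1) +
    Real.log (2 * c + 3) := ⟨_, rfl⟩
  obtain ⟨ι', hι'⟩ : ∃ ι' : ℝ, ι' = min (ι / 2) (e * Real.log 2 / (2 * c + 2)) := ⟨_, rfl⟩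
  have hι'0 : 0 < ι' := by
    rw [hι']
    exact lt_min (by positivity) (by positivity)
  have hι'1 : ι' ≤ ι / 2 := by rw [hι']; exact min_le_left _ _
  have hι'2 : c * (2 * ι') ≤ e * Real.log 2 := by
    have h1 : ι' ≤ e * Real.log 2 / (2 * c + 2) := by rw [hι']; exact min_le_right _ _
    rw [le_div_iff₀ (by positivity)] at h1
    nlinarith
  have hC := Cst_nonneg c hK
  have lK : 0 ≤ Real.log (4 * (K + 1) + 1) := Real.log_nonneg (by linarith)
  obtain ⟨X₁, hX₁⟩ := exists_nat_ge (6 * Cst c K / ι)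
  obtain ⟨X₂, hX₂⟩ := exists_nat_ge (6 * Cst c K / (ca * η * Real.log 2))
  obtain ⟨X₃, hX₃⟩ := exists_nat_ge ((Cst c K + C1 + e * Real.log (4 * (K + 1) + 1)) /
    (e * Real.log 2))
  refine ⟨e, η, ϖ, ι', e / 2, n₁ + X₁ + X₂ + X₃, he0, hη, hϖ, hι'0, by positivity, ?_⟩
  intro Ω β γ Λ Θ ρ υ _ p vis lam L T R Y y0 om z0 be th th' S y z X hd hX hp
  have hXr : (0 : ℝ) ≤ X := Nat.cast_nonneg X
  have b1 : 3 * Cst c K ≤ ι / 2 * X := by
    have h1 : (6 * Cst c K / ι : ℝ) ≤ X := hX₁.trans (by exact_mod_cast (by omega : X₁ ≤ X))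
    rw [div_le_iff₀ hι] at h1
    linarith
  have b2 : 3 * Cst c K ≤ ca / 2 * (η * X) * Real.log 2 := by
    have h1 : (6 * Cst c K / (ca * η * Real.log 2) : ℝ) ≤ X :=
      hX₂.trans (by exact_mod_cast (by omega : X₂ ≤ X))
    rw [div_le_iff₀ (by positivity)] at h1
    linarith
  have b3 : Cst c K + C1 + e * Real.log (4 * (K + 1) + 1) ≤ e * Real.log 2 * X := by
    have h1 : ((Cst c K + C1 + e * Real.log (4 * (K + 1) + 1)) / (e * Real.log 2) : ℝ) ≤ X :=
      hX₃.trans (by exact_mod_cast (by omega : X₃ ≤ X))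
    rw [div_le_iff₀ (by positivity)] at h1
    linarith
  have h1 := one_ref hK hw hϖ hd hp (by omega) (by linarith : ι' ≤ ι)
    (by
      have h2 : ι' * X ≤ ι / 2 * X := mul_le_mul_of_nonneg_right hι'1 hXr
      linarith) b2 hca
  have h2 := plv_aux hK hd hp he0.le (by positivity : 0 ≤ e / 2) h1
  refine le_trans ?_ h2
  have h3 : c * (2 * (ι' * X)) ≤ e * Real.log 2 * X := by
    have := mul_le_mul_of_nonneg_right hι'2 hXr
    linarith
  have h4 : (c + 1 - ε) * X * Real.log 2 = m * ((1 - 8 * e) * X * Real.log 2) := by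
    rw [← hem, ← hm]
    ring
  have h5 : m * ((1 - 8 * e) * X * Real.log 2) ≤ m * ((1 - e) * X * Real.log 2 - Cst c K -
      c * (2 * (ι' * X)) - (c + 1) * Real.log (4 * (c + 2) + 1) -
      e * X * Real.log 2 - Real.log (2 * c + 3) -
      2 * (e / 2) * (X * Real.log 2 + Real.log (4 * (K + 1) + 1))) := by
    refine mul_le_mul_of_nonneg_left ?_ (by linarith)
    have h6 : 0 ≤ e * Real.log 2 * X := by positivity
    linarith
  rw [← hm] at h5 ⊢
  rw [hm] at h4
  rw [← hm] at h4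
  rw [h4]
  exact h5

end Pool.PLV
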