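import Pool.Agent.H46.S6.Pvb
import Pool.Agent.H8.DPL.Defs
import Pool.Agent.H32.Dense.Conf

/-!
# The double plateau: from the base law to the law of pairs

`dbl p sl` is the law of a sample and a reference on the same line. The hypotheses of the double
plateau give the hypotheses of the theorem for one reference on this law.
-/

set_option autoImplicit false

namespace Pool.PLV

open Finset Real
open Pool.Agent.H49.Ent Pool.Agent.H32.Dense Pool.STK Pool.KA Pool.PRM Pool.KVA Pool.M5 Pool.K2S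

/-- The data of the theorem, without the condition that the own slope is visible. -/
structure DP0 {Ω β γ ν Λ Θ ρ υ : Type} [Fintype Ω] (c : ℕ) (K : ℝ) (p : Ω → ℝ) (b : Ω → β)
    (vis : Ω → ν) (G : Ω → γ) (sl : Ω → Λ) (T : Ω → Θ) (R : Ω → ρ) (Y : Ω → υ) (y0 om : Ω → ℝ)
    (z0 be : Ω → Fin c → ℝ) (th : Ω → ℝ) (S : Ω → Fin c → ℝ) (y : Ω → ℝ) (z : Ω → Fin c → ℝ)
    (X : ℕ) : Prop where
  law : IsLaw p
  db : Det p sl b
  dy0 : Det p sl y0
  dom : Det p sl om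
  dz0 : Det p sl z0
  dbe : Det p sl be
  dth : Det p (fun ω => (b ω, T ω)) th
  dth' : Det p (fun ω => (b ω, R ω)) th
  dS : Det p (fun ω => (b ω, R ω)) S
  dRY : Det p (fun ω => (b ω, Y ω)) R
  dvis : Det p (fun ω => (b ω, (T ω, G ω))) vis
  hom : ∀ ω, 0 < p ω → 0 ≤ om ω ∧ om ω < 1
  hth : ∀ ω, 0 < p ω → 0 ≤ th ω ∧ th ω < 1
  hS : ∀ ω, 0 < p ω → ∀ i, |S ω i| ≤ K
  hyb : ∀ ω, 0 < p ω → |y ω| ≤ K
  hzb : ∀ ω, 0 < p ω → ∀ i, |z ω i| ≤ K
  hy : ∃ k : Ω → ℝ, Det p (fun ω => (b ω, T ω)) k ∧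
    ∀ ω, 0 < p ω → y ω = y0 ω + th ω * om ω + k ω
  hz : ∃ k : Ω → Fin c → ℝ, Det p (fun ω => (b ω, T ω)) k ∧
    ∀ ω, 0 < p ω → ∀ i, z ω i = z0 ω i + th ω * be ω i + k ω i
  hY : ∃ (u : Ω → ℝ) (v W : Ω → Fin c → ℝ),
    Det p (fun ω => (Y ω, b ω)) (fun ω => (u ω, (v ω, W ω))) ∧
    ∀ ω, 0 < p ω → |y0 ω + th ω * om ω - u ω| * 2 ^ X ≤ K ∧
      (∀ i, |z0 ω i + th ω * be ω i - v ω i| * 2 ^ X ≤ K) ∧
      ∀ i, |be ω i - S ω i * om ω - W ω i| * 2 ^ X ≤ K

theorem DP0.of {Ω β γ ν Λ Θ ρ υ : Type} [Fintype Ω] {c : ℕ} {K : ℝ} {p : Ω → ℝ} {b : Ω → β}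
    {vis : Ω → ν} {G : Ω → γ} {sl : Ω → Λ} {T : Ω → Θ} {R : Ω → ρ} {Y : Ω → υ} {y0 om : Ω → ℝ}
    {z0 be : Ω → Fin c → ℝ} {th : Ω → ℝ} {S : Ω → Fin c → ℝ} {y : Ω → ℝ}
    {z : Ω → Fin c → ℝ} {X : ℕ}
    (hd : Pool.DPL.DPData c K p b vis G sl T R Y y0 om z0 be th S y z X) :
    DP0 c K p b vis G sl T R Y y0 om z0 be th S y z X :=
  ⟨hd.law, hd.db, hd.dy0, hd.dom, hd.dz0, hd.dbe, hd.dth, hd.dth', hd.dS, hd.dRY, hd.dvis,
    hd.hom, hd.hth, hd.hS, hd.hyb, hd.hzb, hd.hy, hd.hz, hd.hY⟩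

section tools

variable {Ω S S' T U V W Λ : Type} [Fintype Ω] {p : Ω → ℝ}

/-- Fewer data in the second place. -/
theorem MI_mono_right (hp : ∀ ω, 0 ≤ p ω) (A : Ω → S) {B : Ω → T} {B' : Ω → S'} {b : Ω → U}
    (h : Det p (fun ω => (B ω, b ω)) B') : MI p A B' b ≤ MI p A B b := by
  have h1 := MI_chain_right hp A B B' b
  have h2 := MI_chain_right hp A B' B b
  have h3 : MI p A (fun ω => (B ω, B' ω)) b = MI p A (fun ω => (B' ω, B ω)) b := by
    refine MI_congr hp A ?_ ?_ (fun _ _ _ _ h => h) (fun _ _ _ _ h => h) <;>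
    · intro ω ω' _ _ h
      simp only [Prod.mk.injEq] at h ⊢
      tauto
  have h4 : MI p A B' (fun ω => (B ω, b ω)) = 0 := by
    rw [MI_eq hp]
    have : CH p A (fun ω => (B ω, b ω)) = CH p A (fun ω => (B' ω, (B ω, b ω))) := by
      refine CH_congr hp (fun _ _ _ _ h => (Prod.ext_iff.mp h).1)
        (fun _ _ _ _ h => (Prod.ext_iff.mp h).1) ?_ ?_
      · intro ω ω' a1 a2 e
        exact Prod.ext (h ω ω' a1 a2 e) e
      · intro ω ω' _ _ e
        exact (Prod.ext_iff.mp e).2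
    rw [this, sub_self]
  have h5 := MI_nonneg hp A B (fun ω => (B' ω, b ω))
  linarith

/-- Part of the second variable in the condition. -/
theorem MI_part (hp : ∀ ω, 0 ≤ p ω) (A : Ω → S) (B : Ω → T) (C : Ω → U) (b : Ω → V) :
    MI p A B (fun ω => (C ω, b ω)) ≤ MI p A (fun ω => (C ω, B ω)) b := by
  have h1 := MI_chain_right hp A C B b
  have h2 := MI_nonneg hp A C b
  linarith

/-- The two copies are independent given the common label. -/
theorem dbl_indep (hp : ∀ ω, 0 ≤ p ω) (sl : Ω → Λ) (f : Ω → S) (g : Ω → T) :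
    CH (dbl p sl) (fun x => f x.1) (fun x => (g x.2, sl x.1)) = CH p f sl := by
  have hq := dbl_nonneg (b := sl) hp
  have e1 : H (dbl p sl) (fun x => (f x.1, (g x.2, sl x.1))) =
      H (dbl p sl) (fun x => ((f x.1, sl x.1), (g x.2, sl x.2))) := by
    refine H_congr hq ?_ ?_ <;>
    · intro x x' a a' h
      have h1 := dbl_eq hp a
      have h2 := dbl_eq hp a'
      simp only [Prod.mk.injEq, ← h1, ← h2] at h ⊢
      tauto
  have e2 : H (dbl p sl) (fun x => (g x.2, sl x.1)) =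
      H (dbl p sl) (fun x => (g x.2, sl x.2)) := by
    refine H_congr hq ?_ ?_ <;>
    · intro x x' a a' h
      have h1 := dbl_eq hp a
      have h2 := dbl_eq hp a'
      simp only [Prod.mk.injEq, ← h1, ← h2] at h ⊢
      tauto
  have e3 : H (dbl p sl) (fun x => ((f x.1, sl x.1), (g x.2, sl x.2))) =
      H p (fun ω => (f ω, sl ω)) + H p (fun ω => (g ω, sl ω)) - H p sl :=
    H_glue_pair (X := fun ω => (f ω, sl ω)) (Y := fun ω => (g ω, sl ω)) hp hp (fun _ => rfl)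
      (fun _ _ _ _ h => (Prod.ext_iff.mp h).2) (fun _ _ _ _ h => (Prod.ext_iff.mp h).2)
  have e4 : H (dbl p sl) (fun x => (g x.2, sl x.2)) = H p (fun ω => (g ω, sl ω)) :=
    (dbl_snd hp).H (fun ω => (g ω, sl ω))
  unfold CH
  rw [e1, e2, e3, e4]
  ring

end tools

section

variable {Ω β γ ν Λ Θ ρ υ : Type} [Fintype Ω] {c : ℕ} {K : ℝ} {p : Ω → ℝ} {b : Ω → β}
    {vis : Ω → ν} {G : Ω → γ} {sl : Ω → Λ} {T : Ω → Θ} {R : Ω → ρ} {Y : Ω → υ} {y0 om : Ω → ℝ}
    {z0 be : Ω → Fin c → ℝ} {th : Ω → ℝ} {S : Ω → Fin c → ℝ} {y : Ω → ℝ}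
    {z : Ω → Fin c → ℝ} {X : ℕ}

/-- Det for functions of the first copy. -/
theorem det_fst {α τ : Type} (hp : ∀ ω, 0 ≤ p ω) {f : Ω → α} {g : Ω → τ} (h : Det p f g) :
    Det (dbl p sl) (fun x => f x.1) (fun x => g x.1) :=
  (dbl_fst hp).det (dbl_nonneg hp) h

theorem dbl_b (hd : DP0 c K p b vis G sl T R Y y0 om z0 be th S y z X) {x : Ω × Ω}
    (h : 0 < dbl p sl x) : b x.1 = b x.2 :=
  hd.db _ _ ((dbl_fst hd.law.nonneg).pos (dbl_nonneg hd.law.nonneg) h)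
    ((dbl_snd hd.law.nonneg).pos (dbl_nonneg hd.law.nonneg) h) (dbl_eq hd.law.nonneg h)

/-- The data of a sample and a reference. -/
theorem toPVD (hd : DP0 c K p b vis G sl T R Y y0 om z0 be th S y z X) :
    PVData c K (dbl p sl) (fun x => b x.1) (fun _ => ()) (fun x => sl x.1) (fun x => T x.1)
      (fun x => R x.2) (fun x => Y x.2) (fun x => y0 x.1) (fun x => om x.1) (fun x => z0 x.1)
      (fun x => be x.1) (fun x => th x.1) (fun x => th x.2) (fun x => S x.2) (fun x => y x.1)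
      (fun x => z x.1) X := by
  have hp := hd.law.nonneg
  have hq := dbl_nonneg (b := sl) hp
  have P1 : ∀ {x}, 0 < dbl p sl x → 0 < p x.1 := fun h => (dbl_fst hp).pos hq h
  have P2 : ∀ {x}, 0 < dbl p sl x → 0 < p x.2 := fun h => (dbl_snd hp).pos hq h
  have S1 : ∀ {α : Type} {f : Ω → α}, Det p sl f →
      Det (dbl p sl) (fun x => ((b x.1, ()), sl x.1)) (fun x => f x.1) := by
    intro α f h x x' a a' e
    simp only [Prod.mk.injEq] at e
    exact h _ _ (P1 a) (P1 a') e.2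
  have T1 : ∀ {α : Type} {f : Ω → α}, Det p (fun ω => (b ω, T ω)) f →
      Det (dbl p sl) (fun x => ((b x.1, ()), T x.1)) (fun x => f x.1) := by
    intro α f h x x' a a' e
    simp only [Prod.mk.injEq] at e
    exact h _ _ (P1 a) (P1 a') (by simp only [e.1.1, e.2])
  have R2 : ∀ {α : Type} {f : Ω → α}, Det p (fun ω => (b ω, R ω)) f →
      Det (dbl p sl) (fun x => ((b x.1, ()), R x.2)) (fun x => f x.2) := by
    intro α f h x x' a a' e
    simp only [Prod.mk.injEq] at e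
    refine h _ _ (P2 a) (P2 a') ?_
    have e1 := dbl_b hd a
    have e2 := dbl_b hd a'
    simp only [Prod.mk.injEq]
    exact ⟨by rw [← e1, ← e2]; exact e.1.1, e.2⟩
  obtain ⟨k, hk, ek⟩ := hd.hy
  obtain ⟨k', hk', ek'⟩ := hd.hz
  obtain ⟨u, v, W, hu, eu⟩ := hd.hY
  have hlaw : IsLaw (dbl p sl) := ⟨hq, by rw [(dbl_fst hp).sum]; exact hd.law.sum_one⟩
  refine ⟨hlaw, S1 hd.dy0, S1 hd.dom, S1 hd.dz0, S1 hd.dbe, T1 hd.dth, R2 hd.dth', R2 hd.dS,
    fun x h => hd.hom _ (P1 h), fun x h => hd.hth _ (P1 h), ?_, fun x h => hd.hS _ (P2 h),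
    fun x h => hd.hyb _ (P1 h), ⟨fun x => k x.1, T1 hk, fun x h => ek _ (P1 h)⟩,
    ⟨fun x => k' x.1, T1 hk', fun x h => ek' _ (P1 h)⟩, fun x => u x.2, fun x => v x.2,
    fun x => W x.2, ?_, ?_⟩
  · intro x h
    have := hd.hth _ (P2 h)
    rw [abs_of_nonneg this.1]
    exact this.2.le
  · intro x x' a a' e
    simp only [Prod.mk.injEq] at e
    have e1 := dbl_b hd a
    have e2 := dbl_b hd a'
    exact hu _ _ (P2 a) (P2 a') (by
      simp only [Prod.mk.injEq]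
      exact ⟨e.1, by rw [← e1, ← e2]; exact e.2.2.1⟩)
  · intro x h
    have e0 := dbl_eq hp h
    have e1 : y0 x.1 = y0 x.2 := hd.dy0 _ _ (P1 h) (P2 h) e0
    have e2 : om x.1 = om x.2 := hd.dom _ _ (P1 h) (P2 h) e0
    have e3 : z0 x.1 = z0 x.2 := hd.dz0 _ _ (P1 h) (P2 h) e0
    have e4 : be x.1 = be x.2 := hd.dbe _ _ (P1 h) (P2 h) e0
    simp only [e1, e2, e3, e4]
    exact eu _ (P2 h)

theorem dp_h2 (hd : DP0 c K p b vis G sl T R Y y0 om z0 be th S y z X)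
    {η ϖ ι ca : ℝ} (hh : Pool.DPL.DPHyp c p b vis G sl T R Y om be th y z X η ϖ ι ca) :
    MI (dbl p sl) (fun x => blk X y z x.1)
      (fun x => ((Pool.DPL.vbl X om be x.1, G x.1), R x.2)) (fun x => (b x.1, T x.1)) ≤
      2 * (ι * X) := by
  have hp := hd.law.nonneg
  have hq := dbl_nonneg (b := sl) hp
  have h1 := MI_chain_right hq (fun x => blk X y z x.1)
    (fun x => (Pool.DPL.vbl X om be x.1, G x.1)) (fun x => R x.2) (fun x => (b x.1, T x.1))
  have h2 : MI (dbl p sl) (fun x => blk X y z x.1)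
      (fun x => (Pool.DPL.vbl X om be x.1, G x.1)) (fun x => (b x.1, T x.1)) =
      MI p (blk X y z) (fun ω => (Pool.DPL.vbl X om be ω, G ω)) (fun ω => (b ω, T ω)) := by
    rw [MI_eq hq, MI_eq hp]
    have e1 := (dbl_fst (b := sl) hp).CH (blk X y z) (fun ω => (b ω, T ω))
    have e2 := (dbl_fst (b := sl) hp).CH (blk X y z)
      (fun ω => ((Pool.DPL.vbl X om be ω, G ω), (b ω, T ω)))
    rw [e1, e2]
  have h3 := hh.h2
  have h4 := hh.h3
  linarith

/-- The visible data and the reference. -/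
theorem dp_mi (hd : DP0 c K p b vis G sl T R Y y0 om z0 be th S y z X)
    {η ϖ ι ca : ℝ} (hh : Pool.DPL.DPHyp c p b vis G sl T R Y om be th y z X η ϖ ι ca) :
    MI (dbl p sl) (fun x => blk X y z x.1) (fun x => (b x.1, R x.2))
      (fun x => (vis x.1, T x.1)) ≤ 3 * (ι * X) := by
  have hp := hd.law.nonneg
  have hq := dbl_nonneg (b := sl) hp
  have P1 : ∀ {x}, 0 < dbl p sl x → 0 < p x.1 := fun h => (dbl_fst hp).pos hq h
  have h0 := dp_h2 hd hh
  have h1 := MI_chain_right hq (fun x => blk X y z x.1) (fun x => b x.1) (fun x => R x.2)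
    (fun x => (vis x.1, T x.1))
  have h2 : MI (dbl p sl) (fun x => blk X y z x.1) (fun x => b x.1)
      (fun x => (vis x.1, T x.1)) = MI p (blk X y z) b (fun ω => (vis ω, T ω)) := by
    rw [MI_eq hq, MI_eq hp]
    have e1 := (dbl_fst (b := sl) hp).CH (blk X y z) (fun ω => (vis ω, T ω))
    have e2 := (dbl_fst (b := sl) hp).CH (blk X y z) (fun ω => (b ω, (vis ω, T ω)))
    rw [e1, e2]
  have h3 := hh.h7
  have h4 : MI (dbl p sl) (fun x => blk X y z x.1) (fun x => R x.2)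
      (fun x => (b x.1, (vis x.1, T x.1))) =
      MI (dbl p sl) (fun x => blk X y z x.1) (fun x => R x.2)
      (fun x => (vis x.1, (b x.1, T x.1))) := by
    refine MI_congr hq _ (fun _ _ _ _ h => (Prod.ext_iff.mp h).1)
      (fun _ _ _ _ h => (Prod.ext_iff.mp h).1) ?_ ?_ <;>
    · intro ω ω' _ _ h
      simp only [Prod.mk.injEq] at h ⊢
      tauto
  have h5 := MI_part hq (fun x => blk X y z x.1) (fun x => R x.2) (fun x => vis x.1)
    (fun x => (b x.1, T x.1))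
  have h6 : MI (dbl p sl) (fun x => blk X y z x.1) (fun x => (vis x.1, R x.2))
      (fun x => (b x.1, T x.1)) ≤ MI (dbl p sl) (fun x => blk X y z x.1)
      (fun x => ((Pool.DPL.vbl X om be x.1, G x.1), R x.2)) (fun x => (b x.1, T x.1)) := by
    refine MI_mono_right hq _ ?_
    intro x x' a a' e
    simp only [Prod.mk.injEq] at e ⊢
    refine ⟨hd.dvis _ _ (P1 a) (P1 a') ?_, e.1.2⟩
    simp only [Prod.mk.injEq]
    tauto
  linarith

theorem dp_gd (hd : DP0 c K p b vis G sl T R Y y0 om z0 be th S y z X) :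
    GD K (dbl p sl) (fun x => vis x.1) (fun x => b x.1) (fun x => R x.2) (fun x => S x.2)
      (fun x => y x.1) := by
  have h := toPVD hd
  refine ⟨h.law, ?_, h.hyb⟩
  intro x x' a a' e
  refine h.dS x x' a a' ?_
  simp only [Prod.mk.injEq] at e ⊢
  tauto

end

end Pool.PLV
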