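import Pool.Agent.H46.S6.DpwA

/-!
# The double plateau: fullness along the frame of one reference
-/

set_option autoImplicit false

namespace Pool.PLV

open Finset Real
open Pool.Agent.H49.Ent Pool.Agent.H32.Dense Pool.STK Pool.KA Pool.PRM Pool.KVA Pool.M5 Pool.K2S

section push

variable {Ω Ω' : Type} [Fintype Ω] [Fintype Ω']

open Classical in
/-- The image of a law. -/
noncomputable def push (q : Ω' → ℝ) (f : Ω' → Ω) (ω : Ω) : ℝ :=
  ∑ w, (if f w = ω then q w else 0)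

theorem push_marg (q : Ω' → ℝ) (f : Ω' → Ω) : Marg q (push q f) f := fun _ => rfl

theorem push_law {q : Ω' → ℝ} (hq : IsLaw q) (f : Ω' → Ω) : IsLaw (push q f) := by
  refine ⟨fun ω => ?_, ?_⟩
  · unfold push
    exact Finset.sum_nonneg fun w _ => by
      split_ifs
      · exact hq.nonneg w
      · exact le_rfl
  · rw [← (push_marg q f).sum, hq.sum_one]

theorem push_le {Q : Ω' → ℝ} (hQ : IsLaw Q) {p : Ω → ℝ} {f : Ω' → Ω} (hm : Marg Q p f)
    {E : Ω' → Prop} {v : ℝ} (hv : 0 < v) (hE : v ≤ Pe Q E) (ω : Ω) :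
    push (Pool.Agent.H49.Ent.cond Q E True) f ω ≤ 1 / v * p ω := by
  classical
  rw [← hm ω]
  unfold push
  rw [Finset.mul_sum]
  refine Finset.sum_le_sum fun w _ => ?_
  by_cases h : f w = ω
  · rw [if_pos h]
    have h1 : Pool.Agent.H49.Ent.cond Q E True w ≤ Q w / Pe Q E := by
      unfold Pool.Agent.H49.Ent.cond
      split_ifs
      · exact le_rfl
      · exact div_nonneg (hQ.nonneg w) (hv.le.trans hE)
    have h2 : Q w / Pe Q E ≤ Q w / v := div_le_div_of_nonneg_left (hQ.nonneg w) hv hE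
    have h3 : (if f w = ω then Q w else 0) = Q w := if_pos h
    calc Pool.Agent.H49.Ent.cond Q E True w ≤ Q w / v := h1.trans h2
      _ = 1 / v * Q w := by ring
      _ ≤ _ := by
        refine mul_le_mul_of_nonneg_left (le_of_eq ?_) (by positivity)
        simp [h]
  · simp [h]

end push

section

variable {Ω β γ ν Λ Θ ρ υ : Type} [Fintype Ω] {c : ℕ} {K : ℝ} {p : Ω → ℝ} {b : Ω → β}
    {vis : Ω → ν} {G : Ω → γ} {sl : Ω → Λ} {T : Ω → Θ} {R : Ω → ρ} {Y : Ω → υ} {y0 om : Ω → ℝ}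
    {z0 be : Ω → Fin c → ℝ} {th : Ω → ℝ} {S : Ω → Fin c → ℝ} {y : Ω → ℝ}
    {z : Ω → Fin c → ℝ} {X : ℕ}

/-- The activity on events of the law of pairs. -/
theorem dp_h4 (hd : DP0 c K p b vis G sl T R Y y0 om z0 be th S y z X)
    {η ϖ ϖ' ι ca : ℝ} (hh : Pool.DPL.DPHyp c p b vis G sl T R Y om be th y z X η ϖ ι ca)
    (hca : 0 < ca) (hϖ' : 0 < ϖ')
    (hL : ∀ (Ω S T : Type) [Fintype Ω] (p q : Ω → ℝ) (x : Ω → S) (v : Ω → T) (h : ℝ), IsLaw p →
      IsLaw q → (∀ ω, q ω ≤ 1 / ϖ' * p ω) → 0 ≤ h →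
      (∀ A : Ω → Prop, ϖ ≤ Pe p A → h ≤ CH (Pool.Agent.H49.Ent.cond p A True) x v) →
      (1 - 1 / 2) * h ≤ CH q x v)
    (r X' : ℕ) (h1 : η * X ≤ X') (h2 : r + X' ≤ X) (A : Ω × Ω → Prop)
    (hA : ϖ' ≤ Pe (dbl p sl) A) :
    ca / 2 * X' * Real.log 2 ≤ CH (Pool.Agent.H49.Ent.cond (dbl p sl) A True)
      (Uni.dg (r + X') fun x => om x.1)
      (fun x => (Uni.dg r (fun x => om x.1) x, (Y x.2, (R x.2, (b x.1, ()))))) := by
  have hp := hd.law.nonneg
  have hq := dbl_nonneg (b := sl) hp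
  have hlaw : IsLaw (dbl p sl) := ⟨hq, by rw [(dbl_fst hp).sum]; exact hd.law.sum_one⟩
  have hA0 : 0 < Pe (dbl p sl) A := hϖ'.trans_le hA
  obtain ⟨q, hqe⟩ : ∃ q, q = Pool.Agent.H49.Ent.cond (dbl p sl) A True := ⟨_, rfl⟩
  rw [← hqe]
  have hql : IsLaw q := hqe ▸ isLaw_cond hlaw hA0
  have hqp : ∀ {x}, 0 < q x → 0 < dbl p sl x := by
    intro x hx
    rw [hqe] at hx
    exact ((cond_pos_iff hlaw.nonneg A True x).1 hx).1
  have P1 : ∀ {x}, 0 < q x → 0 < p x.1 := fun h => (dbl_fst hp).pos hq (hqp h)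
  have P2 : ∀ {x}, 0 < q x → 0 < p x.2 := fun h => (dbl_snd hp).pos hq (hqp h)
  have Ob : ∀ {x}, 0 < q x → b x.1 = b x.2 := fun h => dbl_b hd (hqp h)
  have Oo : ∀ {x}, 0 < q x → om x.1 = om x.2 := fun h =>
    hd.dom _ _ (P1 h) (P2 h) (dbl_eq hp (hqp h))
  have e1 : CH q (Uni.dg (r + X') fun x => om x.1)
      (fun x => (Uni.dg r (fun x => om x.1) x, (Y x.2, (R x.2, (b x.1, ()))))) =
      CH q (fun x => Uni.dg (r + X') om x.2) (fun x => (Uni.dg r om x.2, (Y x.2, b x.2))) := by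
    have F : ∀ (k : ℕ) {x}, 0 < q x → Uni.dg k (fun x : Ω × Ω => om x.1) x = Uni.dg k om x.2 := by
      intro k x hx
      unfold Uni.dg
      simp only [Oo hx]
    refine CH_congr hql.nonneg ?_ ?_ ?_ ?_
    · intro x x' a a' e
      simp only [Prod.mk.injEq] at e
      show Uni.dg (r + X') om x.2 = Uni.dg (r + X') om x'.2
      rw [← F _ a, ← F _ a']
      exact e.1
    · intro x x' a a' e
      simp only [Prod.mk.injEq] at e
      rw [F _ a, F _ a']
      exact e.1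
    · intro x x' a a' e
      simp only [Prod.mk.injEq] at e ⊢
      rw [← F _ a, ← F _ a', ← Ob a, ← Ob a']
      tauto
    · intro x x' a a' e
      simp only [Prod.mk.injEq] at e ⊢
      obtain ⟨e1, e2, e3⟩ := e
      rw [F _ a, F _ a', Ob a, Ob a']
      exact ⟨e1, e2, hd.dRY _ _ (P2 a) (P2 a') (by simp only [e2, e3]), e3, trivial⟩
  rw [e1, (push_marg q Prod.snd).CH (Uni.dg (r + X') om) (fun ω => (Uni.dg r om ω, (Y ω, b ω)))]
  have h3 := hL Ω ℤ _ p (push q Prod.snd) (Uni.dg (r + X') om)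
    (fun ω => (Uni.dg r om ω, (Y ω, b ω))) (ca * X' * Real.log 2) hd.law (push_law hql _)
    (fun ω => by
      rw [hqe]
      exact push_le hlaw (dbl_snd hp) hϖ' hA ω)
    (mul_nonneg (mul_nonneg hca.le (Nat.cast_nonneg _)) (Real.log_nonneg (by norm_num)))
    (fun A' hA' => hh.h4 r X' h1 h2 A' hA')
  linarith

/-- The hypotheses for a sample and a reference. -/
theorem toPVH (hd : DP0 c K p b vis G sl T R Y y0 om z0 be th S y z X)
    {η ϖ ϖ' ι ca : ℝ} (hι : 0 ≤ ι)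
    (hh : Pool.DPL.DPHyp c p b vis G sl T R Y om be th y z X η ϖ ι ca)
    (hca : 0 < ca) (hϖ' : 0 < ϖ')
    (hL : ∀ (Ω S T : Type) [Fintype Ω] (p q : Ω → ℝ) (x : Ω → S) (v : Ω → T) (h : ℝ), IsLaw p →
      IsLaw q → (∀ ω, q ω ≤ 1 / ϖ' * p ω) → 0 ≤ h →
      (∀ A : Ω → Prop, ϖ ≤ Pe p A → h ≤ CH (Pool.Agent.H49.Ent.cond p A True) x v) →
      (1 - 1 / 2) * h ≤ CH q x v) :
    PVHyp c (dbl p sl) (fun x => b x.1) (fun _ => ()) (fun x => sl x.1) (fun x => T x.1)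
      (fun x => R x.2) (fun x => Y x.2) (fun x => om x.1) (fun x => be x.1) (fun x => th x.1)
      (fun x => S x.2) (fun x => y x.1) (fun x => z x.1) X 0 η ϖ' (2 * ι) 1 (ca / 2) := by
  classical
  have hp := hd.law.nonneg
  have hq := dbl_nonneg (b := sl) hp
  have hlaw : IsLaw (dbl p sl) := ⟨hq, by rw [(dbl_fst hp).sum]; exact hd.law.sum_one⟩
  have P1 : ∀ {x}, 0 < dbl p sl x → 0 < p x.1 := fun h => (dbl_fst hp).pos hq h
  have P2 : ∀ {x}, 0 < dbl p sl x → 0 < p x.2 := fun h => (dbl_snd hp).pos hq h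
  have hX : (0 : ℝ) ≤ X := Nat.cast_nonneg X
  have hιX : 0 ≤ ι * X := mul_nonneg hι hX
  refine ⟨?_, ?_, ?_, dp_h4 hd hh hca hϖ' hL, ?_, ?_⟩
  · -- the time
    rw [MI_eq hq]
    have e1 : CH (dbl p sl) (fun x => T x.1) (fun x => (b x.1, ())) = CH p T b := by
      rw [← (dbl_fst (b := sl) hp).CH T b]
      refine CH_congr hq (fun _ _ _ _ h => (Prod.ext_iff.mp h).1)
        (fun _ _ _ _ h => (Prod.ext_iff.mp h).1) ?_ ?_ <;>
      · intro ω ω' _ _ h
        simp only [Prod.mk.injEq] at h ⊢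
        tauto
    have e2 : CH (dbl p sl) (fun x => T x.1) (fun x => ((sl x.1, R x.2), (b x.1, ()))) =
        CH p T sl := by
      rw [← dbl_indep hp sl T R]
      refine CH_congr hq (fun _ _ _ _ h => (Prod.ext_iff.mp h).1)
        (fun _ _ _ _ h => (Prod.ext_iff.mp h).1) ?_ ?_
      · intro ω ω' _ _ h
        simp only [Prod.mk.injEq] at h ⊢
        tauto
      · intro x x' a a' h
        simp only [Prod.mk.injEq] at h ⊢
        exact ⟨⟨h.2, h.1⟩, hd.db _ _ (P1 a) (P1 a') h.2, trivial⟩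
    have e3 := hh.h1
    rw [MI_eq hp] at e3
    have e4 : CH p T (fun ω => (sl ω, b ω)) = CH p T sl := by
      refine CH_congr hp (fun _ _ _ _ h => (Prod.ext_iff.mp h).1)
        (fun _ _ _ _ h => (Prod.ext_iff.mp h).1) ?_ ?_
      · intro ω ω' _ _ h
        exact (Prod.ext_iff.mp h).1
      · intro ω ω' a a' h
        exact Prod.ext h (hd.db _ _ a a' h)
    rw [e1, e2]
    linarith
  · have e1 : CH (dbl p sl) (Uni.dg X fun x => th x.1)
        (fun x => (sl x.1, (R x.2, (b x.1, ())))) = CH p (Uni.dg X th) sl := by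
      rw [← dbl_indep hp sl (Uni.dg X th) R]
      refine CH_congr hq (fun _ _ _ _ h => (Prod.ext_iff.mp h).1)
        (fun _ _ _ _ h => (Prod.ext_iff.mp h).1) ?_ ?_
      · intro ω ω' _ _ h
        simp only [Prod.mk.injEq] at h ⊢
        tauto
      · intro x x' a a' h
        simp only [Prod.mk.injEq] at h ⊢
        exact ⟨h.2, h.1, hd.db _ _ (P1 a) (P1 a') h.2, trivial⟩
    rw [e1]
    refine le_trans ?_ hh.h1'
    have l2 : 0 ≤ Real.log 2 := Real.log_nonneg (by norm_num)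
    have : 0 ≤ ι * X * Real.log 2 := mul_nonneg hιX l2
    linarith
  · have h1 := dp_h2 hd hh
    have h2 : MI (dbl p sl) (fun x => blk X y z x.1)
        (fun x => ((Uni.dg X (fun x : Ω × Ω => om x.1) x, dgv X (fun x : Ω × Ω => be x.1) x),
          R x.2)) (fun x => (b x.1, T x.1)) ≤ MI (dbl p sl) (fun x => blk X y z x.1)
      (fun x => ((Pool.DPL.vbl X om be x.1, G x.1), R x.2)) (fun x => (b x.1, T x.1)) := by
      refine MI_mono_right hq _ ?_
      intro x x' a a' e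
      have e1 : Pool.DPL.vbl X om be x.1 = Pool.DPL.vbl X om be x'.1 := by
        simp only [Prod.mk.injEq] at e
        exact e.1.1.1
      have e2 : R x.2 = R x'.2 := by
        simp only [Prod.mk.injEq] at e
        exact e.1.2
      have e3 : (Uni.dg X om x.1, dgv X be x.1) = (Uni.dg X om x'.1, dgv X be x'.1) := e1
      have e4 : (Uni.dg X (fun x : Ω × Ω => om x.1) x, dgv X (fun x : Ω × Ω => be x.1) x) =
        (Uni.dg X (fun x : Ω × Ω => om x.1) x', dgv X (fun x : Ω × Ω => be x.1) x') := e3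
      exact Prod.ext e4 e2
    have h3 : MI (dbl p sl) (blk X (fun x => y x.1) fun x => z x.1)
        (fun x => ((Uni.dg X (fun x : Ω × Ω => om x.1) x, dgv X (fun x : Ω × Ω => be x.1) x),
          R x.2)) (fun x => ((b x.1, ()), T x.1)) = MI (dbl p sl) (fun x => blk X y z x.1)
        (fun x => ((Uni.dg X (fun x : Ω × Ω => om x.1) x, dgv X (fun x : Ω × Ω => be x.1) x),
          R x.2)) (fun x => (b x.1, T x.1)) := by
      refine MI_congr hq _ (fun _ _ _ _ h => (Prod.ext_iff.mp h).1)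
        (fun _ _ _ _ h => (Prod.ext_iff.mp h).1) ?_ ?_ <;>
      · intro ω ω' _ _ h
        simp only [Prod.mk.injEq] at h ⊢
        tauto
    rw [h3]
    linarith
  · exact Pool.KAF.Pr_le_one hlaw _
  · refine le_trans (le_of_eq ?_) (by linarith : 0 ≤ 2 * ι * (X : ℝ))
    rw [MI_eq hq, CH_congr hq (X := blk X (fun x => y x.1) fun x => z x.1)
      (X' := blk X (fun x => y x.1) fun x => z x.1)
      (fun _ _ _ _ h => (Prod.ext_iff.mp h).1) (fun _ _ _ _ h => (Prod.ext_iff.mp h).1)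
      (W := fun x => (b x.1, T x.1)) (W' := fun x => ((), (b x.1, T x.1))) ?_ ?_,
      sub_self]
    all_goals
      intro ω ω' _ _ h
      simp only [Prod.mk.injEq] at h ⊢
      tauto

/-- **The block is full along the frame of a reference**, given the visible data and the
context. -/
theorem dp_ref (hd : DP0 c K p b vis G sl T R Y y0 om z0 be th S y z X)
    (hK : 0 ≤ K)
    {η ϖ ϖ' ι ι₁ ca ε : ℝ} (hι : 0 ≤ ι)
    (hh : Pool.DPL.DPHyp c p b vis G sl T R Y om be th y z X η ϖ ι ca)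
    (hca : 0 < ca) (hϖ' : 0 < ϖ')
    (hL : ∀ (Ω S T : Type) [Fintype Ω] (p q : Ω → ℝ) (x : Ω → S) (v : Ω → T) (h : ℝ), IsLaw p →
      IsLaw q → (∀ ω, q ω ≤ 1 / ϖ' * p ω) → 0 ≤ h →
      (∀ A : Ω → Prop, ϖ ≤ Pe p A → h ≤ CH (Pool.Agent.H49.Ent.cond p A True) x v) →
      (1 - 1 / 2) * h ≤ CH q x v) {n₀ : ℕ}
    (hW : WDC ε (ca / 2 / 2) η ϖ' ι₁ n₀) (hX : n₀ ≤ X)
    (h1 : 2 * ι ≤ ι₁) (h2 : 2 * ι * X + 3 * Cst c K ≤ ι₁ * X)
    (hη : 3 * Cst c K ≤ ca / 2 / 2 * (η * X) * Real.log 2) :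
    (1 - ε) * X * Real.log 2 - Cst c K - 2 * (ι * X) ≤
      CH (dbl p sl) (Uni.dg X fun x => y x.1)
        (fun x => (prj X (fun x => y x.1) (fun x => z x.1) (fun x => S x.2) x,
          ((vis x.1, T x.1), (b x.1, R x.2)))) := by
  classical
  have hp := hd.law.nonneg
  have hq := dbl_nonneg (b := sl) hp
  have P1 : ∀ {x}, 0 < dbl p sl x → 0 < p x.1 := fun h => (dbl_fst hp).pos hq h
  have k1 := one_ref hK hW hϖ' (toPVD hd) (toPVH hd hι hh hca hϖ' hL) hX h1 h2 hη (by linarith)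
  obtain ⟨yy, hyy⟩ : ∃ yy : Ω × Ω → ℤ, yy = Uni.dg X fun x => y x.1 := ⟨_, rfl⟩
  obtain ⟨pj, hpj⟩ : ∃ pj, pj = prj X (fun x : Ω × Ω => y x.1) (fun x => z x.1)
    (fun x => S x.2) := ⟨_, rfl⟩
  rw [← hyy, ← hpj] at k1 ⊢
  obtain ⟨W, hWe⟩ : ∃ W : Ω × Ω → ρ × (β × Θ), W = fun x => (R x.2, (b x.1, T x.1)) := ⟨_, rfl⟩
  have k2 : CH (dbl p sl) yy (fun x => (pj x, ((((fun x : Ω × Ω => b x.1) x, T x.1)),
      (((), R x.2))))) = CH (dbl p sl) yy (fun x => (pj x, W x)) := by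
    rw [hWe]
    refine CH_congr hq (fun _ _ _ _ h => (Prod.ext_iff.mp h).1)
      (fun _ _ _ _ h => (Prod.ext_iff.mp h).1) ?_ ?_ <;>
    · intro ω ω' _ _ h
      simp only [Prod.mk.injEq] at h ⊢
      tauto
  have k3 : CH (dbl p sl) yy (fun x => (pj x, ((vis x.1, T x.1), (b x.1, R x.2)))) =
      CH (dbl p sl) yy (fun x => (vis x.1, (pj x, W x))) := by
    rw [hWe]
    refine CH_congr hq (fun _ _ _ _ h => (Prod.ext_iff.mp h).1)
      (fun _ _ _ _ h => (Prod.ext_iff.mp h).1) ?_ ?_ <;>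
    · intro ω ω' _ _ h
      simp only [Prod.mk.injEq] at h ⊢
      tauto
  have k4 := MI_eq hq yy (fun x => vis x.1) (fun x => (pj x, W x))
  have k5 := MI_chain_left hq pj yy (fun x => vis x.1) W
  have k6 := MI_nonneg hq pj (fun x => vis x.1) W
  have k7 : MI (dbl p sl) (fun x => (pj x, yy x)) (fun x => vis x.1) W ≤
      MI (dbl p sl) (fun x => blk X y z x.1) (fun x => vis x.1) W := by
    refine MI_mono_left hq _ ?_
    intro x x' a a' h
    have e1 : blk X y z x.1 = blk X y z x'.1 := (Prod.ext_iff.mp h).1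
    have e2 : W x = W x' := (Prod.ext_iff.mp h).2
    have e3 : Uni.dg X y x.1 = Uni.dg X y x'.1 := (Prod.ext_iff.mp e1).1
    have e4 : dgv X z x.1 = dgv X z x'.1 := (Prod.ext_iff.mp e1).2
    have e5 : S x.2 = S x'.2 := by
      rw [hWe] at e2
      simp only [Prod.mk.injEq] at e2
      exact (toPVD hd).dS x x' a a' (by simp only [e2.1, e2.2.1])
    rw [hpj, hyy]
    refine Prod.ext ?_ e3
    funext i
    show ⌊((dgv X z x.1 i : ℤ) : ℝ) - S x.2 i * (Uni.dg X y x.1 : ℝ)⌋ =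
      ⌊((dgv X z x'.1 i : ℤ) : ℝ) - S x'.2 i * (Uni.dg X y x'.1 : ℝ)⌋
    rw [e3, e4, e5]
  have k8 : MI (dbl p sl) (fun x => blk X y z x.1) (fun x => vis x.1) W ≤ 2 * (ι * X) := by
    have f1 := MI_part hq (fun x => blk X y z x.1) (fun x => vis x.1) (fun x => R x.2)
      (fun x => (b x.1, T x.1))
    have f2 : MI (dbl p sl) (fun x => blk X y z x.1) (fun x => (R x.2, vis x.1))
        (fun x => (b x.1, T x.1)) ≤ MI (dbl p sl) (fun x => blk X y z x.1)
        (fun x => ((Pool.DPL.vbl X om be x.1, G x.1), R x.2)) (fun x => (b x.1, T x.1)) := by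
      refine MI_mono_right hq _ ?_
      intro x x' a a' e
      simp only [Prod.mk.injEq] at e ⊢
      refine ⟨e.1.2, hd.dvis _ _ (P1 a) (P1 a') ?_⟩
      simp only [Prod.mk.injEq]
      tauto
    have f3 := dp_h2 hd hh
    rw [hWe]
    linarith
  rw [k3]
  rw [k2] at k1
  linarith

end

end Pool.PLV
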