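import Pool.Agent.H46.S6.DpwB
import Pool.Agent.H46.S6.PlvT

/-!
# The double plateau: determinants
-/

set_option autoImplicit false

namespace Pool.PLV

open Finset Real
open Pool.Agent.H49.Ent Pool.Agent.H32.Dense Pool.STK Pool.KA Pool.PRM Pool.KVA Pool.M5 Pool.K2S

section adj

variable {n : ℕ}

/-- The normals given by the adjugate. -/
noncomputable def adN (M : ℝ) (j : Fin n) (e : Fin n → Fin n → ℝ) (i : Fin n) : ℝ :=
  (Matrix.of e).adjugate i j / M

theorem adN_le {K : ℝ} (hK : 0 ≤ K) (j : Fin n) (e : Fin n → Fin n → ℝ)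
    (he : ∀ k i, |e k i| ≤ K + 1) (i : Fin n) :
    |adN ((n.factorial : ℝ) * (K + 1) ^ n) j e i| ≤ 1 := by
  have hM : (0 : ℝ) < (n.factorial : ℝ) * (K + 1) ^ n := by positivity
  unfold adN
  rw [abs_div, abs_of_pos hM, div_le_one hM, Matrix.adjugate_apply]
  have h := Matrix.det_le (A := (Matrix.of e).updateRow j (Pi.single i 1))
    (abv := AbsoluteValue.abs) (x := K + 1) (by
      intro a b
      by_cases h1 : a = j
      · subst h1
        rw [Matrix.updateRow_self]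
        by_cases h2 : b = i
        · subst h2
          simp only [Pi.single_eq_same]
          show |(1 : ℝ)| ≤ K + 1
          rw [abs_one]
          linarith
        · rw [Pi.single_eq_of_ne h2]
          show |(0 : ℝ)| ≤ K + 1
          rw [abs_zero]
          linarith
      · rw [Matrix.updateRow_ne h1]
        exact he a b)
  rw [Fintype.card_fin, nsmul_eq_mul] at h
  exact h

theorem adN_mul (M : ℝ) (j : Fin n) (e : Fin n → Fin n → ℝ) (k : Fin n) :
    ∑ i, adN M j e i * e k i = (if k = j then (Matrix.of e).det else 0) / M := by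
  have h := congrFun (congrFun ((Matrix.of e).mul_adjugate) k) j
  rw [Matrix.mul_apply, Matrix.smul_apply, Matrix.one_apply, smul_eq_mul] at h
  have h2 : (Matrix.of e).det * (if k = j then (1 : ℝ) else 0) =
      if k = j then (Matrix.of e).det else 0 := by
    split_ifs <;> simp
  rw [h2] at h
  rw [← h, Finset.sum_div]
  refine Finset.sum_congr rfl fun i _ => ?_
  unfold adN
  rw [Matrix.of_apply]
  ring

end adj

section

variable {Ω β γ Θ ρ : Type} [Fintype Ω] {c : ℕ} {K : ℝ} {p : Ω → ℝ} {vis : Ω → β}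
    {lam : Ω → γ} {T : Ω → Θ} {R : Ω → ρ} {S : Ω → Fin c → ℝ} {y : Ω → ℝ}
    {z : Ω → Fin c → ℝ} {X : ℕ}

/-- **The estimate on an event on which the determinant is large.** -/
theorem gdt_aux (hK : 0 ≤ K) {m a x₀ x₁ p₁ : ℝ}
    (hd : GD K p vis lam R S y) (hS : ∀ ω, 0 < p ω → ∀ i, |S ω i| ≤ K)
    (hMI : MI p (blk X y z) (fun ω => (lam ω, R ω)) (fun ω => (vis ω, T ω)) ≤ m)
    (hx : 0 ≤ x₀) (hp₁ : 0 < p₁)
    (ha : a ≤ CH p (Uni.dg X y) (fun ω => (prj X y z S ω, ((vis ω, T ω), (lam ω, R ω)))))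
    (E : Ω × (Fin (c + 1) → Ω) → Prop)
    (hE : p₁ ≤ Pe (itr p (fun ω => ((vis ω, T ω), blk X y z ω)) (c + 1)) E)
    (hM : (2 : ℝ) ^ (-(x₀ * X)) * (((c + 1).factorial : ℝ) * (K + 1) ^ (c + 1)) ≤
      (2 : ℝ) ^ (-(x₁ * X)))
    (hN : ∀ w, 0 < itr p (fun ω => ((vis ω, T ω), blk X y z ω)) (c + 1) w → E w →
      (2 : ℝ) ^ (-(x₁ * X)) ≤ |(Matrix.of fun k => ev S (w.2 k)).det|) :
    (c + 1) * ((X * Real.log 2 + Real.log (2 * (K + 1) + 1)) -
      ((X * Real.log 2 + Real.log (2 * (K + 1) + 1)) - (a - c * m) + Real.log 2) / p₁ -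
      (c + 1) * Real.log (4 * (c + 2) + 1) - x₀ * X * Real.log 2 - Real.log (2 * c + 3)) ≤
      CH (Pool.Agent.H49.Ent.cond (itr p (fun ω => ((vis ω, T ω), blk X y z ω)) (c + 1)) E True)
        (fun w => blk X y z w.1) (fun w => (vis w.1, T w.1)) := by
  obtain ⟨M, hMe⟩ : ∃ M : ℝ, M = ((c + 1).factorial : ℝ) * (K + 1) ^ (c + 1) := ⟨_, rfl⟩
  have hM0 : 0 < M := by
    rw [hMe]
    positivity
  refine glw_gen hK hd hMI hx hp₁ ha E hE (adN M) ?_ ?_ ?_
  · intro w hw j i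
    rw [hMe]
    refine adN_le hK j _ ?_ i
    intro k i
    unfold ev
    refine Fin.cases ?_ (fun i => ?_) i
    · simp only [Fin.cons_zero, abs_one]
      linarith
    · simp only [Fin.cons_succ]
      exact (hS _ ((itr_pos hd.law hw).2 k).1 i).trans (by linarith)
  · intro j k hjk w _
    rw [adN_mul, if_neg hjk.ne, zero_div]
  · intro w hw hEw j
    rw [adN_mul, if_pos rfl, abs_div, abs_of_pos hM0, le_div_iff₀ hM0, hMe]
    exact hM.trans (hN w hw hEw)

end

/-- The entropy of the block is at most the trivial bound. -/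
theorem CH_blk_le {Ω ν : Type} [Fintype Ω] {q : Ω → ℝ} (hq : IsLaw q) {c : ℕ} {K : ℝ}
    (hK : 0 ≤ K) (X : ℕ) (y : Ω → ℝ) (z : Ω → Fin c → ℝ) (hy : ∀ ω, 0 < q ω → |y ω| ≤ K)
    (hz : ∀ ω, 0 < q ω → ∀ i, |z ω i| ≤ K) (v : Ω → ν) :
    CH q (blk X y z) v ≤ (c + 1) * (X * Real.log 2 + Real.log (4 * (K + 1) + 1)) := by
  have l2 : 0 ≤ Real.log 2 := Real.log_nonneg (by norm_num)
  have h2X : (1 : ℝ) ≤ 2 ^ X := one_le_pow₀ (by norm_num)
  have key : ∀ u : ℝ, |u| ≤ K → |((⌊(2 : ℝ) ^ X * u⌋ : ℤ) : ℝ) - 0| ≤ (K + 1) * 2 ^ X := by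
    intro u hu
    have e2 : |((⌊(2 : ℝ) ^ X * u⌋ : ℤ) : ℝ) - 2 ^ X * u| ≤ 1 := floor_abs _
    have e3 : |(2 : ℝ) ^ X * u| ≤ 2 ^ X * K := by
      rw [abs_mul, abs_of_pos (by positivity : (0 : ℝ) < 2 ^ X)]
      exact mul_le_mul_of_nonneg_left hu (by positivity)
    rw [sub_zero]
    rw [abs_le] at e2 e3 ⊢
    constructor <;> nlinarith
  have hlog : Real.log (4 * ((K + 1) * 2 ^ X) + 1) ≤
      X * Real.log 2 + Real.log (4 * (K + 1) + 1) := by
    rw [← Real.log_pow, ← Real.log_mul (by positivity) (by positivity)]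
    refine Real.log_le_log (by positivity) ?_
    nlinarith
  have h1 : CH q (Uni.dg X y) v ≤ 1 * (X * Real.log 2 + Real.log (4 * (K + 1) + 1)) := by
    have f := Sel.CH_near hq (Uni.dg X y) v (fun _ => 0)
        (fun _ _ _ _ _ => rfl) (K := (K + 1) * 2 ^ X) (by positivity) (fun w hw =>
          key _ (hy w hw))
    refine f.trans ?_
    rw [one_mul]
    refine le_trans ?_ hlog
    exact Real.log_le_log (by positivity) (by nlinarith)
  have h2 : CH q (dgv X z) v ≤ c * (X * Real.log 2 + Real.log (4 * (K + 1) + 1)) := by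
    have f := CH_nearv hq (dgv X z) v (fun _ _ => 0) (fun _ _ _ _ _ => rfl)
      (K := (K + 1) * 2 ^ X) (fun w hw i => key _ (hz w hw i))
    refine f.trans (mul_le_mul_of_nonneg_left hlog (Nat.cast_nonneg c))
  have h3 := CH_pair_le hq.nonneg (Uni.dg X y) (dgv X z) v h1 h2
  refine le_trans h3 (le_of_eq (by ring))

end Pool.PLV
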