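import Pool.Agent.H46.S6.DpwC

/-!
# The double plateau: contradiction if the determinant is large with positive probability
-/

set_option autoImplicit false

namespace Pool.PLV

open Finset Real
open Pool.Agent.H49.Ent Pool.Agent.H32.Dense Pool.STK Pool.KA Pool.PRM Pool.KVA Pool.M5 Pool.K2S

/-- **The double plateau, if the frames of the references are not in a hyperplane with
probability `p₁`.** -/
theorem dp_det (hLU : Pool.DPL.LAYStmt) (hLL : Pool.DPL.LAYLStmt) (c : ℕ) (K c₀ ca p₁ : ℝ)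
    (hK : 0 ≤ K) (hc₀ : 0 < c₀) (hca : 0 < ca) (hp₁ : 0 < p₁) :
    ∃ (x₁ η ϖ ι : ℝ) (X₀ : ℕ), 0 < x₁ ∧ 0 < η ∧ 0 < ϖ ∧ 0 < ι ∧
    ∀ (Ω β γ ν Λ Θ ρ υ : Type) [Fintype Ω] (p : Ω → ℝ) (b : Ω → β) (vis : Ω → ν) (G : Ω → γ)
      (sl : Ω → Λ) (T : Ω → Θ) (R : Ω → ρ) (Y : Ω → υ) (y0 om : Ω → ℝ) (z0 be : Ω → Fin c → ℝ)
      (th : Ω → ℝ) (S : Ω → Fin c → ℝ) (y : Ω → ℝ) (z : Ω → Fin c → ℝ) (X : ℕ),
      DP0 c K p b vis G sl T R Y y0 om z0 be th S y z X → X₀ ≤ X →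
      Pool.DPL.DPHyp c p b vis G sl T R Y om be th y z X η ϖ ι ca →
      Pool.DPL.DPH5 c p vis T y z X ϖ c₀ →
      p₁ ≤ Pe (itr (dbl p sl) (fun x => ((vis x.1, T x.1), blk X (fun x : Ω × Ω => y x.1)
        (fun x => z x.1) x)) (c + 1))
        (fun w => (2 : ℝ) ^ (-(x₁ * X)) ≤ |(Matrix.of fun k => ev (fun x : Ω × Ω => S x.2)
          (w.2 k)).det|) → False := by
  have l2 : 0 < Real.log 2 := Real.log_pos (by norm_num)
  obtain ⟨e, he⟩ : ∃ e : ℝ, e = min (c₀ / (8 * (c + 1))) (1 / 16) := ⟨_, rfl⟩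
  have hc1 : (0 : ℝ) < c + 1 := by positivity
  have he0 : 0 < e := by
    rw [he]
    exact lt_min (by positivity) (by norm_num)
  have he16 : e ≤ 1 / 16 := by rw [he]; exact min_le_right _ _
  have hec : 8 * (c + 1) * e ≤ c₀ := by
    have h1 : e ≤ c₀ / (8 * (c + 1)) := by rw [he]; exact min_le_left _ _
    rw [le_div_iff₀ (by positivity)] at h1
    linarith only [h1]
  obtain ⟨e₁, he₁⟩ : ∃ e₁ : ℝ, e₁ = e * p₁ := ⟨_, rfl⟩
  have he₁0 : 0 < e₁ := by
    rw [he₁]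
    positivity
  obtain ⟨η, ϖ', ι₁, n₁, hη, hϖ', hι₁, hw⟩ := wd e₁ (ca / 2 / 2) he₁0 (by positivity)
  obtain ⟨ϖ₁, hϖ₁, hLL1⟩ := hLL (1 / ϖ') (1 / 2) (by positivity) (by norm_num)
  obtain ⟨ϖ₂, CL, hϖ₂, hCL, hLU1⟩ := hLU (1 / p₁) e (by positivity) he0
  obtain ⟨ι, hι⟩ : ∃ ι : ℝ, ι = min (ι₁ / 4) (e₁ * Real.log 2 / (2 + 3 * c)) := ⟨_, rfl⟩
  have hι0 : 0 < ι := by
    rw [hι]
    exact lt_min (by positivity) (by positivity)
  have hι1 : ι ≤ ι₁ / 4 := by rw [hι]; exact min_le_left _ _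
  have hι2 : (2 + 3 * c) * ι ≤ e₁ * Real.log 2 := by
    have h1 : ι ≤ e₁ * Real.log 2 / (2 + 3 * c) := by rw [hι]; exact min_le_right _ _
    rw [le_div_iff₀ (by positivity)] at h1
    linarith only [h1]
  have hC := Cst_nonneg c hK
  obtain ⟨C1, hC1⟩ : ∃ C1 : ℝ, C1 = (c + 1) * Real.log (4 * (c + 2) + 1) +
    Real.log (2 * c + 3) := ⟨_, rfl⟩
  obtain ⟨C2, hC2⟩ : ∃ C2 : ℝ, C2 = Real.log (2 * (K + 1) + 1) + Cst c K + Real.log 2 := ⟨_, rfl⟩
  obtain ⟨C3, hC3⟩ : ∃ C3 : ℝ, C3 = CL + e * ((c + 1) * Real.log (4 * (K + 1) + 1)) := ⟨_, rfl⟩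
  obtain ⟨X₁, hX₁⟩ := exists_nat_ge (6 * Cst c K / ι₁)
  obtain ⟨X₂, hX₂⟩ := exists_nat_ge (12 * Cst c K / (ca * η * Real.log 2))
  obtain ⟨X₃, hX₃⟩ := exists_nat_ge (C1 / (e * Real.log 2))
  obtain ⟨X₄, hX₄⟩ := exists_nat_ge (C2 / (e₁ * Real.log 2))
  obtain ⟨X₅, hX₅⟩ := exists_nat_ge (C3 / (e * Real.log 2))
  obtain ⟨M, hMe⟩ : ∃ M : ℝ, M = ((c + 1).factorial : ℝ) * (K + 1) ^ (c + 1) := ⟨_, rfl⟩
  have hM0 : 0 < M := by
    rw [hMe]
    positivity
  obtain ⟨X₆, hX₆⟩ := exists_nat_ge (Real.log M / (e / 2 * Real.log 2))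
  refine ⟨e / 2, η, min ϖ₁ ϖ₂, ι, n₁ + X₁ + X₂ + X₃ + X₄ + X₅ + X₆ + 1, by positivity, hη,
    lt_min hϖ₁ hϖ₂, hι0, ?_⟩
  intro Ω β γ ν Λ Θ ρ υ _ p b vis G sl T R Y y0 om z0 be th S y z X hd hX hh h5 hE
  have hXr : (0 : ℝ) ≤ X := Nat.cast_nonneg X
  have hX1 : (1 : ℝ) ≤ X := by exact_mod_cast (by omega : 1 ≤ X)
  have hp := hd.law.nonneg
  have hq := dbl_nonneg (b := sl) hp
  have b1 : 3 * Cst c K ≤ ι₁ / 2 * X := by
    have h1 : (6 * Cst c K / ι₁ : ℝ) ≤ X := hX₁.trans (by exact_mod_cast (by omega : X₁ ≤ X))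
    rw [div_le_iff₀ hι₁] at h1
    linarith only [h1]
  have b2 : 3 * Cst c K ≤ ca / 2 / 2 * (η * X) * Real.log 2 := by
    have h1 : (12 * Cst c K / (ca * η * Real.log 2) : ℝ) ≤ X :=
      hX₂.trans (by exact_mod_cast (by omega : X₂ ≤ X))
    rw [div_le_iff₀ (by positivity)] at h1
    linarith only [h1]
  have b3 : C1 ≤ e * Real.log 2 * X := by
    have h1 : (C1 / (e * Real.log 2) : ℝ) ≤ X :=
      hX₃.trans (by exact_mod_cast (by omega : X₃ ≤ X))
    rw [div_le_iff₀ (by positivity)] at h1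
    linarith only [h1]
  have b4 : C2 ≤ e₁ * Real.log 2 * X := by
    have h1 : (C2 / (e₁ * Real.log 2) : ℝ) ≤ X :=
      hX₄.trans (by exact_mod_cast (by omega : X₄ ≤ X))
    rw [div_le_iff₀ (by positivity)] at h1
    linarith only [h1]
  have b5 : C3 ≤ e * Real.log 2 * X := by
    have h1 : (C3 / (e * Real.log 2) : ℝ) ≤ X :=
      hX₅.trans (by exact_mod_cast (by omega : X₅ ≤ X))
    rw [div_le_iff₀ (by positivity)] at h1
    linarith only [h1]
  have b6 : (2 : ℝ) ^ (-(e * X)) * M ≤ (2 : ℝ) ^ (-(e / 2 * X)) := by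
    have h1 : (Real.log M / (e / 2 * Real.log 2) : ℝ) ≤ X :=
      hX₆.trans (by exact_mod_cast (by omega : X₆ ≤ X))
    rw [div_le_iff₀ (by positivity)] at h1
    have h2 : M ≤ (2 : ℝ) ^ (e / 2 * X) := by
      calc M = Real.exp (Real.log M) := (Real.exp_log hM0).symm
        _ ≤ Real.exp (Real.log 2 * (e / 2 * X)) := Real.exp_le_exp.2 (by linarith only [h1])
        _ = (2 : ℝ) ^ (e / 2 * X) := (Real.rpow_def_of_pos (by norm_num) _).symm
    calc (2 : ℝ) ^ (-(e * X)) * M ≤ (2 : ℝ) ^ (-(e * X)) * (2 : ℝ) ^ (e / 2 * X) :=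
          mul_le_mul_of_nonneg_left h2 (by positivity)
      _ = (2 : ℝ) ^ (-(e / 2 * X)) := by
          rw [← Real.rpow_add (by norm_num)]
          congr 1
          ring
  -- one reference
  have k1 := dp_ref (ε := e₁) (n₀ := n₁) (ι₁ := ι₁) hd hK hι0.le hh hca hϖ'
    (fun Ω S T _ p q x v h h1 h2 h3 h4 h5 => hLL1 Ω S T p q x v h h1 h2 h3 h4
      fun A hA => h5 A ((min_le_left _ _).trans hA)) hw (by omega) (by linarith only [hι0, hι1])
    (by
      have h2 : 2 * ι * X ≤ ι₁ / 2 * X := mul_le_mul_of_nonneg_right (by linarith only [hι1]) hXr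
      linarith only [b1, h2]) b2
  have k2 := dp_mi hd hh
  obtain ⟨Qi, hQi⟩ : ∃ Qi, Qi = itr (dbl p sl) (fun x => ((vis x.1, T x.1),
    blk X (fun x : Ω × Ω => y x.1) (fun x => z x.1) x)) (c + 1) := ⟨_, rfl⟩
  obtain ⟨E, hEe⟩ : ∃ E : (Ω × Ω) × (Fin (c + 1) → Ω × Ω) → Prop, E = fun w =>
    (2 : ℝ) ^ (-(e / 2 * X)) ≤ |(Matrix.of fun k => ev (fun x : Ω × Ω => S x.2) (w.2 k)).det| :=
    ⟨_, rfl⟩
  have k3 := gdt_aux (m := 3 * (ι * X)) (x₀ := e) (x₁ := e / 2) (p₁ := p₁) (T := fun x => T x.1)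
    (z := fun x : Ω × Ω => z x.1) (X := X) hK (dp_gd hd)
    (fun x hx => hd.hS _ ((dbl_snd hp).pos hq hx)) k2 he0.le hp₁ k1 E
    (by
      rw [hEe]
      exact hE) (by rw [← hMe]; exact b6) (by
      intro w _ hw
      rw [hEe] at hw
      exact hw)
  rw [← hQi] at k3
  rw [← hQi, ← hEe] at hE
  have hQl : IsLaw Qi := hQi ▸ itr_law (dp_gd hd).law
  -- the image on the base space
  obtain ⟨q, hqe⟩ : ∃ q, q = Pool.Agent.H49.Ent.cond Qi E True := ⟨_, rfl⟩
  have hql : IsLaw q := hqe ▸ isLaw_cond hQl (hp₁.trans_le hE)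
  have hmar : Marg Qi p (fun w => w.1.1) := by
    have h1 : Marg Qi (dbl p sl) (fun w => w.1) := by
      classical
      intro x
      have := sum_fst (Z := fun x => ((vis x.1, T x.1),
        blk X (fun x : Ω × Ω => y x.1) (fun x => z x.1) x)) (K := c + 1) (dp_gd hd).law
        (fun x' => if x' = x then (1 : ℝ) else 0)
      rw [← hQi] at this
      simp only [mul_ite, mul_one, mul_zero, Finset.sum_ite_eq', Finset.mem_univ,
        if_true] at this
      rw [← this]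
      refine Finset.sum_congr rfl fun w _ => ?_
      congr
    exact h1.comp (dbl_fst hp)
  have k4 : CH q (fun w => blk X (fun x : Ω × Ω => y x.1) (fun x => z x.1) w.1)
      (fun w => ((fun x : Ω × Ω => vis x.1) w.1, (fun x : Ω × Ω => T x.1) w.1)) =
      CH (push q fun w => w.1.1) (blk X y z) (fun ω => (vis ω, T ω)) :=
    (push_marg q fun w => w.1.1).CH (blk X y z) (fun ω => (vis ω, T ω))
  rw [← hqe, k4] at k3
  have k5 := hLU1 Ω _ _ p (push q fun w => w.1.1) (blk X y z) (fun ω => (vis ω, T ω))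
    ((c + 1) * (X * Real.log 2 + Real.log (4 * (K + 1) + 1)))
    (max 0 ((c + 1 - c₀) * X * Real.log 2)) hd.law (push_law hql _)
    (fun ω => by
      rw [hqe]
      exact push_le hQl hmar hp₁ hE ω)
    (by
      have : 0 ≤ Real.log (4 * (K + 1) + 1) := Real.log_nonneg (by linarith only [hK, he0, he16])
      positivity) (le_max_left _ _)
    (fun q' hq' h => CH_blk_le hq' hK X y z
      (fun ω hω => hd.hyb ω (by
        refine lt_of_le_of_ne (hp ω) fun h0 => ?_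
        rw [h ω h0.symm] at hω
        exact lt_irrefl _ hω))
      (fun ω hω => hd.hzb ω (by
        refine lt_of_le_of_ne (hp ω) fun h0 => ?_
        rw [h ω h0.symm] at hω
        exact lt_irrefl _ hω)) _)
    (fun A hA => (h5 A ((min_le_right _ _).trans hA)).trans (le_max_right _ _))
  have hXl : 0 < (X : ℝ) * Real.log 2 := mul_pos (by linarith only [he0, he16, hX1]) l2
  -- lower bound
  have k6 : (c + 1) * ((1 - 5 * e) * (X * Real.log 2)) ≤
      CH (push q fun w => w.1.1) (blk X y z) (fun ω => (vis ω, T ω)) := by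
    refine le_trans ?_ k3
    refine mul_le_mul_of_nonneg_left ?_ hc1.le
    have h1 : 0 ≤ Real.log (2 * (K + 1) + 1) := Real.log_nonneg (by linarith only [hK, he0, he16])
    have h2 : (X * Real.log 2 + Real.log (2 * (K + 1) + 1)) -
        ((1 - e₁) * X * Real.log 2 - Cst c K - 2 * (ι * X) - c * (3 * (ι * X))) +
        Real.log 2 ≤ 3 * e * (X * Real.log 2) * p₁ := by
      have h3 : (2 + 3 * c) * ι * X ≤ e₁ * Real.log 2 * X := mul_le_mul_of_nonneg_right hι2 hXr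
      have h4 : 3 * e * (X * Real.log 2) * p₁ = 3 * (e₁ * (X * Real.log 2)) := by
        rw [he₁]
        ring
      rw [h4]
      linarith only [hC2, b4, h3]
    have h5 : ((X * Real.log 2 + Real.log (2 * (K + 1) + 1)) -
        ((1 - e₁) * X * Real.log 2 - Cst c K - 2 * (ι * X) - c * (3 * (ι * X))) +
        Real.log 2) / p₁ ≤ 3 * e * (X * Real.log 2) := by
      rw [div_le_iff₀ hp₁]
      exact h2
    linarith only [hC1, b3, h1, h5]
  have k7 : max 0 ((c + 1 - c₀) * X * Real.log 2) ≤ (c + 1) * ((1 - 8 * e) * (X * Real.log 2)) ∨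
      max 0 ((c + 1 - c₀) * X * Real.log 2) = 0 := by
    rcases le_total 0 ((c + 1 - c₀) * X * Real.log 2) with h | h
    · left
      rw [max_eq_right h]
      have := mul_le_mul_of_nonneg_right hec hXl.le
      linarith only [this]
    · right
      exact max_eq_left h
  have k8 : e * ((c + 1) * (X * Real.log 2 + Real.log (4 * (K + 1) + 1))) + CL ≤
      e * (c + 1) * (X * Real.log 2) + e * (X * Real.log 2) := by
    linarith only [hC3, b5]
  have k9 : e * (X * Real.log 2) ≤ (c + 1) * (e * (X * Real.log 2)) := by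
    have : 0 ≤ (c : ℝ) * (e * (X * Real.log 2)) := by positivity
    linarith only [this]
  rcases k7 with k7 | k7
  · have : (c + 1) * ((1 - 5 * e) * (X * Real.log 2)) ≤ (c + 1) * ((1 - 6 * e) * (X * Real.log 2)) := by
      linarith only [hC3, b5, k5, k6, k9, k7]
    have h1 := le_of_mul_le_mul_left this hc1
    have : 0 < e * (X * Real.log 2) := by positivity
    linarith only [hC3, b5, k5, k6, k9, k7, this]
  · rw [k7] at k5
    have : (c + 1) * ((1 - 5 * e) * (X * Real.log 2)) ≤ (c + 1) * (2 * e * (X * Real.log 2)) := by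
      linarith only [hC3, b5, k5, k6, k9]
    have h1 := le_of_mul_le_mul_left this hc1
    have h2 := mul_le_mul_of_nonneg_right he16 hXl.le
    linarith only [hXl, h1, h2]

end Pool.PLV
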