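import Pool.Agent.H46.S6.DpwD

/-!
# The double plateau, from (LAY), (LAYL), (PLN)
-/

set_option autoImplicit false

namespace Pool.PLV

open Finset Real
open Pool.Agent.H49.Ent Pool.Agent.H32.Dense Pool.STK Pool.KA Pool.PRM Pool.KVA Pool.M5 Pool.K2S

section

variable {Ω Λ ζ : Type} [Fintype Ω]

theorem dbl_prod (p : Ω → ℝ) (sl : Ω → Λ) (x : Ω × Ω) :
    dbl p sl x = p x.1 * Pool.Agent.H49.Ent.cond p sl (sl x.1) x.2 := by
  classical
  unfold dbl glue Pool.Agent.H49.Ent.cond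
  by_cases h : sl x.1 = sl x.2
  · rw [if_pos h, if_pos h.symm]
    ring
  · rw [if_neg h, if_neg (Ne.symm h)]
    ring

theorem cond_dbl {p : Ω → ℝ} (hp : ∀ ω, 0 ≤ p ω) (sl : Ω → Λ) (Zp : Ω → ζ) (s : ζ) (x : Ω × Ω) :
    Pool.Agent.H49.Ent.cond (dbl p sl) (fun x => Zp x.1) s x =
      Pool.Agent.H49.Ent.cond p Zp s x.1 * Pool.Agent.H49.Ent.cond p sl (sl x.1) x.2 := by
  classical
  have h1 : law (dbl p sl) (fun x => Zp x.1) s = law p Zp s := (dbl_fst hp).law Zp s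
  have h2 : Pool.Agent.H49.Ent.cond (dbl p sl) (fun x => Zp x.1) s x =
      if Zp x.1 = s then dbl p sl x / law (dbl p sl) (fun x => Zp x.1) s else 0 := rfl
  have h3 : Pool.Agent.H49.Ent.cond p Zp s x.1 =
      if Zp x.1 = s then p x.1 / law p Zp s else 0 := rfl
  rw [h2, h3, h1, dbl_prod]
  by_cases h : Zp x.1 = s
  · rw [if_pos h, if_pos h]
    ring
  · rw [if_neg h, if_neg h, zero_mul]

open Classical in
/-- The law of a sample with references on other lines, as a sum. -/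
theorem Pe_itr_dbl {p : Ω → ℝ} (hp : IsLaw p) (sl : Ω → Λ) (Zp : Ω → ζ) (k : ℕ)
    (D : (Fin k → Ω × Ω) → Prop) :
    Pe (itr (dbl p sl) (fun x => Zp x.1) k) (fun w => D w.2) =
      ∑ ω, p ω * ∑ w : Fin k → Ω × Ω,
        (∏ i, Pool.Agent.H49.Ent.cond p Zp (Zp ω) (w i).1 *
          Pool.Agent.H49.Ent.cond p sl (sl (w i).1) (w i).2) * (if D w then 1 else 0) := by
  have h0 := hp.nonneg
  rw [Pe_eq, Fintype.sum_prod_type]
  have h1 := (dbl_fst (b := sl) h0).ex (fun ω => ∑ w : Fin k → Ω × Ω,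
        (∏ i, Pool.Agent.H49.Ent.cond p Zp (Zp ω) (w i).1 *
          Pool.Agent.H49.Ent.cond p sl (sl (w i).1) (w i).2) * (if D w then 1 else 0))
  unfold Ex at h1
  rw [← h1]
  refine Finset.sum_congr rfl fun x _ => ?_
  rw [Finset.mul_sum]
  refine Finset.sum_congr rfl fun w _ => ?_
  have h2 : itr (dbl p sl) (fun x => Zp x.1) k (x, w) = dbl p sl x *
      ∏ i, (Pool.Agent.H49.Ent.cond p Zp (Zp x.1) (w i).1 *
          Pool.Agent.H49.Ent.cond p sl (sl (w i).1) (w i).2) := by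
    unfold itr
    dsimp only
    congr 1
    refine Finset.prod_congr rfl fun i _ => ?_
    exact cond_dbl h0 sl Zp _ _
  rw [h2]
  by_cases h : D w
  · rw [if_pos h, if_pos h, mul_one]
  · rw [if_neg h, if_neg h, mul_zero, mul_zero]

end

/-- The determinant of three frames. -/
theorem det_ev {Ω : Type} (S : Ω → Fin 2 → ℝ) (w : Fin 3 → Ω) :
    (Matrix.of fun k => ev S (w k)).det =
      (S (w 1) 0 - S (w 0) 0) * (S (w 2) 1 - S (w 0) 1) -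
        (S (w 1) 1 - S (w 0) 1) * (S (w 2) 0 - S (w 0) 0) := by
  have h0 : ∀ k, ev S (w k) 0 = 1 := fun k => rfl
  have h1 : ∀ k, ev S (w k) 1 = S (w k) 0 := fun k => rfl
  have h2 : ∀ k, ev S (w k) 2 = S (w k) 1 := fun k => rfl
  rw [Matrix.det_fin_three]
  simp only [Matrix.of_apply, h0, h1, h2]
  ring

theorem DPData_mono {Ω β γ ν Λ Θ ρ υ : Type} [Fintype Ω] {c : ℕ} {K K' : ℝ} {p : Ω → ℝ} {b : Ω → β}
    {vis : Ω → ν} {G : Ω → γ} {sl : Ω → Λ} {T : Ω → Θ} {R : Ω → ρ} {Y : Ω → υ} {y0 om : Ω → ℝ}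
    {z0 be : Ω → Fin c → ℝ} {th : Ω → ℝ} {S : Ω → Fin c → ℝ} {y : Ω → ℝ}
    {z : Ω → Fin c → ℝ} {X : ℕ} (h : K ≤ K')
    (hd : Pool.DPL.DPData c K p b vis G sl T R Y y0 om z0 be th S y z X) :
    Pool.DPL.DPData c K' p b vis G sl T R Y y0 om z0 be th S y z X := by
  obtain ⟨u, v, W, hu, eu⟩ := hd.hY
  exact ⟨hd.law, hd.db, hd.dy0, hd.dom, hd.dz0, hd.dbe, hd.dth, hd.dth', hd.dS, hd.dRY, hd.dvis,
    hd.dSv, hd.hom, hd.hth, fun ω hω i => (hd.hS ω hω i).trans h,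
    fun ω hω => (hd.hyb ω hω).trans h, fun ω hω i => (hd.hzb ω hω i).trans h, hd.hy, hd.hz,
    u, v, W, hu, fun ω hω => ⟨(eu ω hω).1.trans h, fun i => ((eu ω hω).2.1 i).trans h,
      fun i => ((eu ω hω).2.2 i).trans h⟩⟩

/-- **The double plateau.** -/
theorem dp_of (hLU : Pool.DPL.LAYStmt) (hLL : Pool.DPL.LAYLStmt) (hP : Pool.DPL.PLNStmt) :
    Pool.DPL.DPStmt := by
  intro K c₀ ca p₀ hc₀ hca hp₀
  obtain ⟨K', hK'⟩ : ∃ K' : ℝ, K' = max K 0 := ⟨_, rfl⟩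
  have hK0 : 0 ≤ K' := by rw [hK']; exact le_max_right _ _
  have hKK : K ≤ K' := by rw [hK']; exact le_max_left _ _
  obtain ⟨p₁, ε, hp₁, hε, hP1⟩ := hP p₀ K' hp₀
  obtain ⟨x₁, η, ϖ, ι, X₁, hx₁, hη, hϖ, hι, hD⟩ := dp_det hLU hLL 2 K' c₀ ca p₁ hK0 hc₀ hca hp₁
  obtain ⟨x₀, X₂, hx₀, hP2⟩ := hP1 x₁ hx₁
  refine ⟨x₀, η, ϖ, ι, ε, X₁ + X₂, hx₀, hη, hϖ, hι, hε, ?_⟩
  intro Ω β γ ν Λ Θ ρ υ _ p b vis G sl T R Y y0 om z0 be th S y z X hd hX hh h5 h6a h6b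
  have hd' := DPData_mono hKK hd
  refine hD Ω β γ ν Λ Θ ρ υ p b vis G sl T R Y y0 om z0 be th S y z X (DP0.of hd') (by omega) hh
    h5 ?_
  have h1 := hP2 Ω Λ _ p sl (fun ω => ((vis ω, T ω), blk X y z ω)) S X hd.law (by omega)
    (fun ω hω i => hd'.hS ω hω i) (fun ω ω' a a' e => hd.dSv ω ω' a a' (Prod.ext_iff.mp e).1)
    h6a h6b
  refine h1.trans (le_of_eq ?_)
  have h2 := Pe_itr_dbl hd.law sl (fun ω => ((vis ω, T ω), blk X y z ω)) 3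
    (fun w => (2 : ℝ) ^ (-(x₁ * X)) ≤ |(Matrix.of fun k => ev (fun x : Ω × Ω => S x.2)
          (w k)).det|)
  refine Eq.trans ?_ h2.symm
  refine Finset.sum_congr rfl fun ω _ => ?_
  congr 1
  refine Finset.sum_congr rfl fun w _ => ?_
  congr 1
  rw [det_ev]

end Pool.PLV
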