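import Pool.Agent.H46.S6.DpwE
import Pool.Agent.H8.DPL.Lay
import Pool.Agent.H1.DPL.PlnS

/-!
# The double plateau
-/

set_option autoImplicit false

namespace Pool.PLV

/-- **The double plateau.** -/
theorem dp_thm : Pool.DPL.DPStmt :=
  dp_of Pool.DPL.lay_thm Pool.DPL.layl_thm Pool.PLN.pln_stmt

end Pool.PLV
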