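import Pool.Agent.H46.S6.PlvA

/-!
# Theorem PLV: plateaus in every dimension, statement

On a plateau the digits of the position (all `c + 1` coordinates) after the box are one variable on
the chain of contexts, and the block of the velocity is independent of it. `vis` are the visible
data, `lam` the digits of the velocity which are not visible; the context is `(vis, lam)`. `R` is
a reference: another time `th'` on the line, with the frame `(1, S)` there; `Y` is the exact point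
at that time. If the frames of the references through one position are not all in one hyperplane,
the block is full.
-/

set_option autoImplicit false

namespace Pool.PLV

open Finset Real
open Pool.Agent.H49.Ent Pool.Agent.H32.Dense Pool.STK Pool.KA Pool.K2S

/-- The data of theorem PLV. -/
structure PVData {Ω β γ Λ Θ ρ υ : Type} [Fintype Ω] (c : ℕ) (K : ℝ) (p : Ω → ℝ) (vis : Ω → β)
    (lam : Ω → γ) (L : Ω → Λ) (T : Ω → Θ) (R : Ω → ρ) (Y : Ω → υ) (y0 om : Ω → ℝ)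
    (z0 be : Ω → Fin c → ℝ) (th th' : Ω → ℝ) (S : Ω → Fin c → ℝ) (y : Ω → ℝ) (z : Ω → Fin c → ℝ)
    (X : ℕ) : Prop where
  law : IsLaw p
  dy0 : Det p (fun ω => ((vis ω, lam ω), L ω)) y0
  dom : Det p (fun ω => ((vis ω, lam ω), L ω)) om
  dz0 : Det p (fun ω => ((vis ω, lam ω), L ω)) z0
  dbe : Det p (fun ω => ((vis ω, lam ω), L ω)) be
  dth : Det p (fun ω => ((vis ω, lam ω), T ω)) th
  dth' : Det p (fun ω => ((vis ω, lam ω), R ω)) th'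
  dS : Det p (fun ω => ((vis ω, lam ω), R ω)) S
  hom : ∀ ω, 0 < p ω → 0 ≤ om ω ∧ om ω < 1
  hth : ∀ ω, 0 < p ω → 0 ≤ th ω ∧ th ω < 1
  hth' : ∀ ω, 0 < p ω → |th' ω| ≤ 1
  hS : ∀ ω, 0 < p ω → ∀ i, |S ω i| ≤ K
  hyb : ∀ ω, 0 < p ω → |y ω| ≤ K
  hy : ∃ k : Ω → ℝ, Det p (fun ω => ((vis ω, lam ω), T ω)) k ∧
    ∀ ω, 0 < p ω → y ω = y0 ω + th ω * om ω + k ω
  hz : ∃ k : Ω → Fin c → ℝ, Det p (fun ω => ((vis ω, lam ω), T ω)) k ∧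
    ∀ ω, 0 < p ω → ∀ i, z ω i = z0 ω i + th ω * be ω i + k ω i
  hY : ∃ (u : Ω → ℝ) (v W : Ω → Fin c → ℝ),
    Det p (fun ω => (Y ω, (R ω, (vis ω, lam ω)))) (fun ω => (u ω, (v ω, W ω))) ∧
    ∀ ω, 0 < p ω → |y0 ω + th' ω * om ω - u ω| * 2 ^ X ≤ K ∧
      (∀ i, |z0 ω i + th' ω * be ω i - v ω i| * 2 ^ X ≤ K) ∧
      ∀ i, |be ω i - S ω i * om ω - W ω i| * 2 ^ X ≤ K

/-- The block of the position. -/
noncomputable def blk {Ω : Type} {c : ℕ} (X : ℕ) (y : Ω → ℝ) (z : Ω → Fin c → ℝ) (ω : Ω) :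
    ℤ × (Fin c → ℤ) := (Uni.dg X y ω, dgv X z ω)

/-- The hypotheses of theorem PLV. -/
structure PVHyp {Ω β γ Λ Θ ρ υ : Type} [Fintype Ω] (c : ℕ) (p : Ω → ℝ) (vis : Ω → β)
    (lam : Ω → γ) (L : Ω → Λ) (T : Ω → Θ) (R : Ω → ρ) (Y : Ω → υ) (om : Ω → ℝ)
    (be : Ω → Fin c → ℝ) (th : Ω → ℝ) (S : Ω → Fin c → ℝ) (y : Ω → ℝ) (z : Ω → Fin c → ℝ)
    (X : ℕ) (x₀ η ϖ ι ε₁ ca : ℝ) : Prop where
  h1 : Pool.KVA.MI p T (fun ω => (L ω, R ω)) (fun ω => (vis ω, lam ω)) ≤ ι * X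
  h1' : (1 - ι) * X * Real.log 2 ≤ CH p (Uni.dg X th) (fun ω => (L ω, (R ω, (vis ω, lam ω))))
  h2 : Pool.KVA.MI p (blk X y z) (fun ω => ((Uni.dg X om ω, dgv X be ω), R ω))
    (fun ω => ((vis ω, lam ω), T ω)) ≤ ι * X
  h4 : ∀ r X' : ℕ, η * X ≤ X' → r + X' ≤ X → ∀ A : Ω → Prop, ϖ ≤ Pe p A →
    ca * X' * Real.log 2 ≤ CH (Pool.Agent.H49.Ent.cond p A True) (Uni.dg (r + X') om)
      (fun ω => (Uni.dg r om ω, (Y ω, (R ω, (vis ω, lam ω)))))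
  h6 : Pool.KAF.Pr p {ω | ∃ n : Fin (c + 1) → ℝ, (∀ i, |n i| ≤ 1) ∧ (∃ i, |n i| = 1) ∧
    ε₁ < Pool.KAF.Pr (Pool.Agent.H49.Ent.cond p (fun ω => ((vis ω, T ω), blk X y z ω))
        ((vis ω, T ω), blk X y z ω))
      {ω' | |n 0 + ∑ i, n i.succ * S ω' i| < (2 : ℝ) ^ (-(x₀ * X))}} ≤ ε₁
  h7 : Pool.KVA.MI p (blk X y z) lam (fun ω => (vis ω, T ω)) ≤ ι * X

/-- **Theorem PLV.** -/
def PLVStmt (c : ℕ) : Prop :=
  ∀ ε ca K : ℝ, 0 < ε → 0 < ca → 0 ≤ K → ∃ (x₀ η ϖ ι ε₁ : ℝ) (n₀ : ℕ), 0 < x₀ ∧ 0 < η ∧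
    0 < ϖ ∧ 0 < ι ∧ 0 < ε₁ ∧
    ∀ (Ω β γ Λ Θ ρ υ : Type) [Fintype Ω] (p : Ω → ℝ) (vis : Ω → β) (lam : Ω → γ) (L : Ω → Λ)
      (T : Ω → Θ) (R : Ω → ρ) (Y : Ω → υ) (y0 om : Ω → ℝ) (z0 be : Ω → Fin c → ℝ)
      (th th' : Ω → ℝ) (S : Ω → Fin c → ℝ) (y : Ω → ℝ) (z : Ω → Fin c → ℝ) (X : ℕ),
      PVData c K p vis lam L T R Y y0 om z0 be th th' S y z X → n₀ ≤ X →
      PVHyp c p vis lam L T R Y om be th S y z X x₀ η ϖ ι ε₁ ca →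
      (c + 1 - ε) * X * Real.log 2 ≤ CH p (blk X y z) (fun ω => (vis ω, T ω))

end Pool.PLV
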