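import Pool.Agent.H46.S6.Plv

/-!
# Theorem PLV: one reference

The block of the position is full along the frame of a reference (`one_ref`).
-/

set_option autoImplicit false

namespace Pool.PLV

open Finset Real
open Pool.Agent.H49.Ent Pool.Agent.H32.Dense Pool.STK Pool.KA Pool.PRM Pool.KVA Pool.M5 Pool.K2S

/-- The projection of the block along the frame `(1, S)`. -/
noncomputable def prj {Ω : Type} {c : ℕ} (X : ℕ) (y : Ω → ℝ) (z S : Ω → Fin c → ℝ) (ω : Ω) :
    Fin c → ℤ := fun i => ⌊(dgv X z ω i : ℝ) - S ω i * (Uni.dg X y ω : ℝ)⌋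

/-- The constant of the roundings. -/
noncomputable def Cst (c : ℕ) (K : ℝ) : ℝ := (c + 1) * Real.log (4 * (K ^ 2 + 7 * K + 12) + 1)

theorem Cst_nonneg (c : ℕ) {K : ℝ} (hK : 0 ≤ K) : 0 ≤ Cst c K :=
  mul_nonneg (by positivity) (Real.log_nonneg (by nlinarith [sq_nonneg K]))

theorem le_Cst (c : ℕ) {K M : ℝ} (hM : 0 ≤ M) (h : M ≤ K ^ 2 + 7 * K + 12) :
    c * Real.log (4 * M + 1) ≤ Cst c K := by
  have h1 : Real.log (4 * M + 1) ≤ Real.log (4 * (K ^ 2 + 7 * K + 12) + 1) :=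
    Real.log_le_log (by linarith) (by linarith)
  have h2 : 0 ≤ Real.log (4 * M + 1) := Real.log_nonneg (by linarith)
  unfold Cst
  have h3 : (c : ℝ) * Real.log (4 * M + 1) ≤ c * Real.log (4 * (K ^ 2 + 7 * K + 12) + 1) :=
    mul_le_mul_of_nonneg_left h1 (by positivity)
  have h4 : 0 ≤ Real.log (4 * (K ^ 2 + 7 * K + 12) + 1) := h2.trans h1
  nlinarith

theorem le_Cst1 (c : ℕ) {K M : ℝ} (hM : 0 ≤ M) (h : M ≤ K ^ 2 + 7 * K + 12) :
    Real.log (2 * M + 1) ≤ Cst c K := by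
  have h1 : Real.log (2 * M + 1) ≤ Real.log (4 * (K ^ 2 + 7 * K + 12) + 1) :=
    Real.log_le_log (by linarith) (by linarith)
  have h4 : 0 ≤ Real.log (4 * (K ^ 2 + 7 * K + 12) + 1) :=
    (Real.log_nonneg (by linarith)).trans h1
  unfold Cst
  have : 0 ≤ (c : ℝ) * Real.log (4 * (K ^ 2 + 7 * K + 12) + 1) :=
    mul_nonneg (Nat.cast_nonneg c) h4
  nlinarith

section one

variable {Ω β γ Λ Θ ρ υ : Type} [Fintype Ω] {c : ℕ} {K : ℝ} {p : Ω → ℝ} {vis : Ω → β}
    {lam : Ω → γ} {L : Ω → Λ} {T : Ω → Θ} {R : Ω → ρ} {Y : Ω → υ} {y0 om : Ω → ℝ}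
    {z0 be : Ω → Fin c → ℝ} {th th' : Ω → ℝ} {S : Ω → Fin c → ℝ} {y : Ω → ℝ} {z : Ω → Fin c → ℝ}
    {X : ℕ}

/-- The context with the reference and with the coordinates transversal to its frame. -/
noncomputable def b1 (X : ℕ) (vis : Ω → β) (lam : Ω → γ) (R : Ω → ρ) (y0 om : Ω → ℝ)
    (z0 be S : Ω → Fin c → ℝ) (ω : Ω) : ((β × γ) × ρ) × ((Fin c → ℤ) × (Fin c → ℤ)) :=
  (((vis ω, lam ω), R ω), (dgv X (fun ω i => z0 ω i - S ω i * y0 ω) ω,
    dgv X (fun ω i => be ω i - S ω i * om ω) ω))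

/-- Activity of the velocity, for lemma W. -/
theorem act_ref (hK : 0 ≤ K) (hd : PVData c K p vis lam L T R Y y0 om z0 be th th' S y z X)
    {r X' : ℕ} (hrX : r + X' ≤ X) {A : Ω → Prop} (hA : 0 < Pe p A) {a : ℝ}
    (h : a ≤ CH (Pool.Agent.H49.Ent.cond p A True) (Uni.dg (r + X') om)
      (fun ω => (Uni.dg r om ω, (Y ω, (R ω, (vis ω, lam ω)))))) :
    a - 3 * Cst c K ≤ CH (Pool.Agent.H49.Ent.cond p A True) (Uni.dg (r + X') om)
      (fun ω => (Uni.dg r om ω, (Uni.dg r y0 ω, b1 X vis lam R y0 om z0 be S ω))) := by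
  obtain ⟨q, hq⟩ : ∃ q, q = Pool.Agent.H49.Ent.cond p A True := ⟨_, rfl⟩
  have hlaw : IsLaw q := hq ▸ isLaw_cond hd.law hA
  have hpos : ∀ ω, 0 < q ω → 0 < p ω := fun ω hω => by
    rw [hq] at hω
    exact ((cond_pos_iff hd.law.nonneg A True ω).1 hω).1
  rw [← hq] at h ⊢
  obtain ⟨u, v, W, hdet, hb⟩ := hd.hY
  -- the condition
  obtain ⟨C, hC⟩ : ∃ C : Ω → ℤ × (υ × (ρ × (β × γ))),
    C = fun ω => (Uni.dg r om ω, (Y ω, (R ω, (vis ω, lam ω)))) := ⟨_, rfl⟩
  rw [← hC] at h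
  have dS : Det q C S := fun ω ω' a b e => by
    rw [hC] at e
    simp only [Prod.mk.injEq] at e
    refine hd.dS ω ω' (hpos ω a) (hpos ω' b) ?_
    simp only [Prod.mk.injEq]
    tauto
  have dth' : Det q C th' := fun ω ω' a b e => by
    rw [hC] at e
    simp only [Prod.mk.injEq] at e
    refine hd.dth' ω ω' (hpos ω a) (hpos ω' b) ?_
    simp only [Prod.mk.injEq]
    tauto
  have dUVW : Det q C (fun ω => (u ω, (v ω, W ω))) := fun ω ω' a b e => by
    rw [hC] at e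
    simp only [Prod.mk.injEq] at e
    refine hdet ω ω' (hpos ω a) (hpos ω' b) ?_
    simp only [Prod.mk.injEq]
    tauto
  have dom : Det q C (Uni.dg r om) := fun ω ω' a b e => by
    rw [hC] at e
    simp only [Prod.mk.injEq] at e
    exact e.1
  have dU : Det q C u := fun ω ω' a b e => (Prod.ext_iff.mp (dUVW ω ω' a b e)).1
  have dV : Det q C v := fun ω ω' a b e =>
    (Prod.ext_iff.mp (Prod.ext_iff.mp (dUVW ω ω' a b e)).2).1
  have dW : Det q C W := fun ω ω' a b e =>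
    (Prod.ext_iff.mp (Prod.ext_iff.mp (dUVW ω ω' a b e)).2).2
  have h2X : (0 : ℝ) < 2 ^ X := by positivity
  have h2r : (0 : ℝ) < 2 ^ r := by positivity
  have hrX' : (2 : ℝ) ^ r ≤ 2 ^ X := pow_le_pow_right₀ (by norm_num) (by omega)
  -- the position at time zero
  have k1 : CH q (Uni.dg r y0) C ≤ Cst c K := by
    refine (Sel.CH_near hlaw (Uni.dg r y0) C
      (fun ω => 2 ^ r * u ω - th' ω * (Uni.dg r om ω : ℝ)) ?_ (K := K + 2) (by linarith)
      ?_).trans (le_Cst1 c (by linarith) (by nlinarith [sq_nonneg K]))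
    · intro ω ω' a b e
      show 2 ^ r * u ω - th' ω * (Uni.dg r om ω : ℝ) = 2 ^ r * u ω' - th' ω' * (Uni.dg r om ω' : ℝ)
      rw [dU ω ω' a b e, dth' ω ω' a b e, dom ω ω' a b e]
    · intro ω hω
      have e1 := (hb ω (hpos ω hω)).1
      have e2 := hd.hth' ω (hpos ω hω)
      have e3 : |(Uni.dg r om ω : ℝ) - 2 ^ r * om ω| ≤ 1 := floor_abs _
      have e4 : |(Uni.dg r y0 ω : ℝ) - 2 ^ r * y0 ω| ≤ 1 := floor_abs _
      have e5 : |y0 ω + th' ω * om ω - u ω| * 2 ^ r ≤ K :=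
        (mul_le_mul_of_nonneg_left hrX' (abs_nonneg _)).trans e1
      have e6 : |th' ω * ((Uni.dg r om ω : ℝ) - 2 ^ r * om ω)| ≤ 1 := by
        rw [abs_mul]
        calc _ ≤ 1 * 1 := mul_le_mul e2 e3 (abs_nonneg _) zero_le_one
          _ = 1 := one_mul 1
      have e5' : |(y0 ω + th' ω * om ω - u ω) * 2 ^ r| ≤ K := by
        rw [abs_mul, abs_of_pos h2r]
        exact e5
      clear e5 e1
      rw [abs_le] at e4 e5' e6 ⊢
      constructor <;> nlinarith
  -- the velocity across the frame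
  have k2 : CH q (dgv X (fun ω i => be ω i - S ω i * om ω)) C ≤ Cst c K := by
    refine (CH_nearv hlaw _ C (fun ω i => 2 ^ X * W ω i) ?_ (K := K + 1) ?_).trans
      (le_Cst c (by nlinarith [sq_nonneg K]) (by nlinarith [sq_nonneg K]))
    · intro ω ω' a b e
      show (fun i => 2 ^ X * W ω i) = fun i => 2 ^ X * W ω' i
      rw [dW ω ω' a b e]
    · intro ω hω i
      exact dg_near ((hb ω (hpos ω hω)).2.2 i)
  -- the position across the frame
  have k3 : CH q (dgv X (fun ω i => z0 ω i - S ω i * y0 ω)) C ≤ Cst c K := by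
    refine (CH_nearv hlaw _ C (fun ω i => 2 ^ X * (v ω i - S ω i * u ω - th' ω * W ω i)) ?_
      (K := K ^ 2 + 2 * K + 1) ?_).trans (le_Cst c (by nlinarith [sq_nonneg K]) (by nlinarith [sq_nonneg K]))
    · intro ω ω' a b e
      show (fun i => 2 ^ X * (v ω i - S ω i * u ω - th' ω * W ω i)) =
        fun i => 2 ^ X * (v ω' i - S ω' i * u ω' - th' ω' * W ω' i)
      rw [dW ω ω' a b e, dU ω ω' a b e, dV ω ω' a b e, dS ω ω' a b e, dth' ω ω' a b e]
    · intro ω hω i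
      refine dg_near ?_
      obtain ⟨e1, e2, e3⟩ := hb ω (hpos ω hω)
      have f1 := hd.hth' ω (hpos ω hω)
      have f2 := hd.hS ω (hpos ω hω) i
      have g1 : |S ω i * (y0 ω + th' ω * om ω - u ω)| * 2 ^ X ≤ K * K := by
        rw [abs_mul, mul_assoc]
        exact mul_le_mul f2 e1 (by positivity) hK
      have g2 : |th' ω * (be ω i - S ω i * om ω - W ω i)| * 2 ^ X ≤ 1 * K := by
        rw [abs_mul, mul_assoc]
        exact mul_le_mul f1 (e3 i) (by positivity) (by norm_num)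
      have g3 : z0 ω i - S ω i * y0 ω - (v ω i - S ω i * u ω - th' ω * W ω i) =
          (z0 ω i + th' ω * be ω i - v ω i) - S ω i * (y0 ω + th' ω * om ω - u ω) -
            th' ω * (be ω i - S ω i * om ω - W ω i) := by ring
      rw [g3]
      have g4 : ∀ a b c : ℝ, |a - b - c| ≤ |a| + |b| + |c| := fun a b c =>
        (abs_sub _ _).trans (add_le_add (abs_sub _ _) le_rfl)
      have g5 := g4 (z0 ω i + th' ω * be ω i - v ω i) (S ω i * (y0 ω + th' ω * om ω - u ω))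
        (th' ω * (be ω i - S ω i * om ω - W ω i))
      calc _ ≤ (|z0 ω i + th' ω * be ω i - v ω i| + |S ω i * (y0 ω + th' ω * om ω - u ω)| +
            |th' ω * (be ω i - S ω i * om ω - W ω i)|) * 2 ^ X :=
          mul_le_mul_of_nonneg_right g5 h2X.le
        _ = |z0 ω i + th' ω * be ω i - v ω i| * 2 ^ X +
            |S ω i * (y0 ω + th' ω * om ω - u ω)| * 2 ^ X +
            |th' ω * (be ω i - S ω i * om ω - W ω i)| * 2 ^ X := by ring
        _ ≤ K + K * K + 1 * K := add_le_add (add_le_add (e2 i) g1) g2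
        _ = K ^ 2 + 2 * K := by ring
  have h5 := CH_drop hlaw.nonneg (Uni.dg (r + X') om)
    (fun ω => (Uni.dg r om ω, (Uni.dg r y0 ω, b1 X vis lam R y0 om z0 be S ω)))
    (fun ω => (Uni.dg r y0 ω, (dgv X (fun ω i => z0 ω i - S ω i * y0 ω) ω,
      dgv X (fun ω i => be ω i - S ω i * om ω) ω))) C (by
      intro ω ω' a b e
      rw [hC] at e
      unfold b1
      simp only [Prod.mk.injEq] at e ⊢
      tauto)
  have h6 := CH_pair_le hlaw.nonneg (Uni.dg r y0) (fun ω =>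
    (dgv X (fun ω i => z0 ω i - S ω i * y0 ω) ω, dgv X (fun ω i => be ω i - S ω i * om ω) ω)) C
    k1 (CH_pair_le hlaw.nonneg _ _ C k3 k2)
  linarith

end one

end Pool.PLV
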