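import Pool.Agent.H46.S6.PlvB

/-!
# Theorem PLV: the block is full along the frame of a reference
-/

set_option autoImplicit false

namespace Pool.PLV

open Finset Real
open Pool.Agent.H49.Ent Pool.Agent.H32.Dense Pool.STK Pool.KA Pool.PRM Pool.KVA Pool.M5 Pool.K2S

variable {Ω β γ Λ Θ ρ υ : Type} [Fintype Ω] {c : ℕ} {K : ℝ} {p : Ω → ℝ} {vis : Ω → β}
    {lam : Ω → γ} {L : Ω → Λ} {T : Ω → Θ} {R : Ω → ρ} {Y : Ω → υ} {y0 om : Ω → ℝ}
    {z0 be : Ω → Fin c → ℝ} {th th' : Ω → ℝ} {S : Ω → Fin c → ℝ} {y : Ω → ℝ} {z : Ω → Fin c → ℝ}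
    {X : ℕ}

/-- The coordinates across the frame at the time of the sample. -/
theorem prj_near (hd : PVData c K p vis lam L T R Y y0 om z0 be th th' S y z X) (hK : 0 ≤ K) :
    ∃ k : Ω → Fin c → ℝ, Det p (fun ω => (R ω, ((vis ω, lam ω), T ω))) k ∧
      ∀ ω, 0 < p ω → ∀ i, |(prj X y z S ω i : ℝ) -
        ((dgv X (fun ω i => z0 ω i - S ω i * y0 ω) ω i : ℝ) +
          th ω * (dgv X (fun ω i => be ω i - S ω i * om ω) ω i : ℝ) + k ω i)| ≤ K + 4 := by
  obtain ⟨ky, hky, ey⟩ := hd.hy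
  obtain ⟨kz, hkz, ez⟩ := hd.hz
  refine ⟨fun ω i => 2 ^ X * (kz ω i - S ω i * ky ω), ?_, ?_⟩
  · intro ω ω' a b e
    simp only [Prod.mk.injEq] at e
    obtain ⟨e1, ⟨e2, e3⟩, e4⟩ := e
    have f1 := hky ω ω' a b (by simp only [e2, e3, e4])
    have f2 := hkz ω ω' a b (by simp only [e2, e3, e4])
    have f3 := hd.dS ω ω' a b (by simp only [e1, e2, e3])
    dsimp only
    rw [f1, f2, f3]
  · intro ω hω i
    have h1 := floor_abs ((dgv X z ω i : ℝ) - S ω i * (Uni.dg X y ω : ℝ))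
    have h2 : |(dgv X z ω i : ℝ) - 2 ^ X * z ω i| ≤ 1 := floor_abs _
    have h3 : |(Uni.dg X y ω : ℝ) - 2 ^ X * y ω| ≤ 1 := floor_abs _
    have h4 : |(dgv X (fun ω i => z0 ω i - S ω i * y0 ω) ω i : ℝ) -
        2 ^ X * (z0 ω i - S ω i * y0 ω)| ≤ 1 := floor_abs _
    have h5 : |(dgv X (fun ω i => be ω i - S ω i * om ω) ω i : ℝ) -
        2 ^ X * (be ω i - S ω i * om ω)| ≤ 1 := floor_abs _
    have g1 := hd.hS ω hω i
    have g2 := hd.hth ω hω
    have h6 : |S ω i * ((Uni.dg X y ω : ℝ) - 2 ^ X * y ω)| ≤ K := by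
      rw [abs_mul]
      calc _ ≤ K * 1 := mul_le_mul g1 h3 (abs_nonneg _) hK
        _ = K := mul_one K
    have h7 : |th ω * ((dgv X (fun ω i => be ω i - S ω i * om ω) ω i : ℝ) -
        2 ^ X * (be ω i - S ω i * om ω))| ≤ 1 := by
      rw [abs_mul, abs_of_nonneg g2.1]
      calc _ ≤ 1 * 1 := mul_le_mul g2.2.le h5 (abs_nonneg _) zero_le_one
        _ = 1 := by norm_num
    have e1 := ey ω hω
    have e2 := ez ω hω i
    have e3 : (2 : ℝ) ^ X * (z ω i - S ω i * y ω) = 2 ^ X * (z0 ω i - S ω i * y0 ω) +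
        th ω * (2 ^ X * (be ω i - S ω i * om ω)) + 2 ^ X * (kz ω i - S ω i * ky ω) := by
      rw [e1, e2]
      ring
    show |(prj X y z S ω i : ℝ) - _| ≤ K + 4
    rw [show (prj X y z S ω i : ℝ) =
      (⌊(dgv X z ω i : ℝ) - S ω i * (Uni.dg X y ω : ℝ)⌋ : ℝ) from rfl]
    rw [abs_le] at h1 h2 h4 h6 h7 ⊢
    constructor <;> nlinarith

/-- Given the coordinates across the frame of the line, those of the position are known. -/
theorem CH_prj (hd : PVData c K p vis lam L T R Y y0 om z0 be th th' S y z X) (hK : 0 ≤ K) :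
    CH p (prj X y z S) (fun ω => (b1 X vis lam R y0 om z0 be S ω, T ω)) ≤ Cst c K := by
  obtain ⟨k, hk, hb⟩ := prj_near hd hK
  refine (CH_nearv hd.law _ _ (fun ω i => (dgv X (fun ω i => z0 ω i - S ω i * y0 ω) ω i : ℝ) +
    th ω * (dgv X (fun ω i => be ω i - S ω i * om ω) ω i : ℝ) + k ω i) ?_ hb).trans
    (le_Cst c (by linarith) (by nlinarith [sq_nonneg K]))
  intro ω ω' a b e
  unfold b1 at e
  simp only [Prod.mk.injEq] at e
  obtain ⟨⟨⟨⟨e1, e2⟩, e3⟩, e4, e5⟩, e6⟩ := e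
  have f1 := hd.dth ω ω' a b (by simp only [e1, e2, e6])
  have f2 := hk ω ω' a b (by simp only [e1, e2, e3, e6])
  funext i
  dsimp only
  rw [e4, e5, f1, f2]

/-- Conversely the position across the frame at time zero. -/
theorem CH_nu0 (hd : PVData c K p vis lam L T R Y y0 om z0 be th th' S y z X) (hK : 0 ≤ K) :
    CH p (dgv X (fun ω i => z0 ω i - S ω i * y0 ω))
      (fun ω => (dgv X (fun ω i => be ω i - S ω i * om ω) ω,
        (prj X y z S ω, (R ω, ((vis ω, lam ω), T ω))))) ≤ Cst c K := by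
  obtain ⟨k, hk, hb⟩ := prj_near hd hK
  refine (CH_nearv hd.law _ _ (fun ω i => (prj X y z S ω i : ℝ) -
    th ω * (dgv X (fun ω i => be ω i - S ω i * om ω) ω i : ℝ) - k ω i) ?_ (K := K + 4) ?_).trans
    (le_Cst c (by linarith) (by nlinarith [sq_nonneg K]))
  · intro ω ω' a b e
    simp only [Prod.mk.injEq] at e
    obtain ⟨e5, e4, e3, ⟨e1, e2⟩, e6⟩ := e
    have f1 := hd.dth ω ω' a b (by simp only [e1, e2, e6])
    have f2 := hk ω ω' a b (by simp only [e1, e2, e3, e6])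
    funext i
    dsimp only
    rw [e4, e5, f1, f2]
  · intro ω hω i
    have h := hb ω hω i
    rw [abs_le] at h ⊢
    constructor <;> linarith

/-- The velocity across the frame from the velocity. -/
theorem CH_ka (hd : PVData c K p vis lam L T R Y y0 om z0 be th th' S y z X) (hK : 0 ≤ K) :
    CH p (dgv X (fun ω i => be ω i - S ω i * om ω))
      (fun ω => ((Uni.dg X om ω, dgv X be ω), (R ω, ((vis ω, lam ω), T ω)))) ≤ Cst c K := by
  refine (CH_nearv hd.law _ _ (fun ω i => (dgv X be ω i : ℝ) - S ω i * (Uni.dg X om ω : ℝ)) ?_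
    (K := K + 2) ?_).trans (le_Cst c (by linarith) (by nlinarith [sq_nonneg K]))
  · intro ω ω' a b e
    simp only [Prod.mk.injEq] at e
    obtain ⟨⟨e1, e2⟩, e3, ⟨e4, e5⟩, e6⟩ := e
    have f3 := hd.dS ω ω' a b (by simp only [e3, e4, e5])
    funext i
    dsimp only
    rw [e1, e2, f3]
  · intro ω hω i
    have h2 : |(dgv X be ω i : ℝ) - 2 ^ X * be ω i| ≤ 1 := floor_abs _
    have h3 : |(Uni.dg X om ω : ℝ) - 2 ^ X * om ω| ≤ 1 := floor_abs _
    have h5 : |(dgv X (fun ω i => be ω i - S ω i * om ω) ω i : ℝ) -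
        2 ^ X * (be ω i - S ω i * om ω)| ≤ 1 := floor_abs _
    have g1 := hd.hS ω hω i
    have h6 : |S ω i * ((Uni.dg X om ω : ℝ) - 2 ^ X * om ω)| ≤ K := by
      rw [abs_mul]
      calc _ ≤ K * 1 := mul_le_mul g1 h3 (abs_nonneg _) hK
        _ = K := mul_one K
    rw [abs_le] at h2 h5 h6 ⊢
    constructor <;> nlinarith

/-- Independence, for lemma W. -/
theorem ind_ref (hd : PVData c K p vis lam L T R Y y0 om z0 be th th' S y z X) (hK : 0 ≤ K)
    {a : ℝ} (h : MI p (blk X y z) (fun ω => ((Uni.dg X om ω, dgv X be ω), R ω))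
      (fun ω => ((vis ω, lam ω), T ω)) ≤ a) :
    CH p (Uni.dg X y) (fun ω => (b1 X vis lam R y0 om z0 be S ω, T ω)) -
      CH p (Uni.dg X y) (fun ω => (Uni.dg X om ω, (b1 X vis lam R y0 om z0 be S ω, T ω))) ≤
      a + 3 * Cst c K := by
  have h0 := hd.law.nonneg
  obtain ⟨bT, hbT⟩ : ∃ bT : Ω → (β × γ) × Θ, bT = fun ω => ((vis ω, lam ω), T ω) := ⟨_, rfl⟩
  obtain ⟨ka, hka⟩ : ∃ ka : Ω → Fin c → ℤ, ka = dgv X (fun ω i => be ω i - S ω i * om ω) :=
    ⟨_, rfl⟩
  obtain ⟨nu, hnu⟩ : ∃ nu : Ω → Fin c → ℤ, nu = dgv X (fun ω i => z0 ω i - S ω i * y0 ω) :=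
    ⟨_, rfl⟩
  obtain ⟨pr, hpr⟩ : ∃ pr : Ω → Fin c → ℤ, pr = prj X y z S := ⟨_, rfl⟩
  have k1 := CH_prj hd hK
  have k2 := CH_nu0 hd hK
  have k3 := CH_ka hd hK
  rw [← hpr] at k1 k2
  rw [← hnu, ← hka] at k2
  rw [← hka] at k3
  -- the reference in the condition
  have s1 : MI p (blk X y z) (fun ω => (Uni.dg X om ω, dgv X be ω)) (fun ω => (R ω, bT ω)) ≤ a := by
    have e1 := MI_chain_right h0 (blk X y z) R (fun ω => (Uni.dg X om ω, dgv X be ω)) bT
    have e2 := MI_nonneg h0 (blk X y z) R bT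
    have e3 : MI p (blk X y z) (fun ω => (R ω, (Uni.dg X om ω, dgv X be ω))) bT =
        MI p (blk X y z) (fun ω => ((Uni.dg X om ω, dgv X be ω), R ω)) bT := by
      refine MI_congr h0 _ ?_ ?_ (fun _ _ _ _ h => h) (fun _ _ _ _ h => h) <;>
      · intro ω ω' _ _ h
        simp only [Prod.mk.injEq] at h ⊢
        tauto
    rw [← hbT] at h
    linarith
  -- other coordinates
  have s2 : MI p (fun ω => (pr ω, Uni.dg X y ω)) (fun ω => (ka ω, Uni.dg X om ω))
      (fun ω => (R ω, bT ω)) ≤ a + Cst c K := by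
    have e1 : MI p (fun ω => (pr ω, Uni.dg X y ω)) (fun ω => (ka ω, Uni.dg X om ω))
        (fun ω => (R ω, bT ω)) ≤ MI p (blk X y z) (fun ω => (ka ω, Uni.dg X om ω))
        (fun ω => (R ω, bT ω)) := by
      refine MI_mono_left h0 _ ?_
      intro ω ω' a b e
      rw [hbT] at e
      unfold blk at e
      simp only [Prod.mk.injEq] at e
      obtain ⟨⟨e1, e2⟩, e3, ⟨e4, e5⟩, e6⟩ := e
      have f3 := hd.dS ω ω' a b (by simp only [e3, e4, e5])
      rw [hpr]
      refine Prod.ext ?_ e1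
      show prj X y z S ω = prj X y z S ω'
      unfold prj
      funext i
      rw [e1, e2, f3]
    have e2 := MI_le_add h0 (blk X y z) (fun ω => (ka ω, Uni.dg X om ω))
      (fun ω => (Uni.dg X om ω, dgv X be ω)) (fun ω => (R ω, bT ω))
    have e3 : CH p (fun ω => (ka ω, Uni.dg X om ω))
        (fun ω => ((Uni.dg X om ω, dgv X be ω), (R ω, bT ω))) ≤ Cst c K := by
      have k3' : CH p ka (fun ω => ((Uni.dg X om ω, dgv X be ω), (R ω, bT ω))) ≤ Cst c K := by
        rw [hbT]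
        exact k3
      refine le_trans (le_of_eq ?_) k3'
      refine CH_congr h0 ?_ ?_ (fun _ _ _ _ h => h) (fun _ _ _ _ h => h) <;>
      · intro ω ω' _ _ h
        simp only [Prod.mk.injEq] at h ⊢
        tauto
    linarith
  -- the transversal coordinates in the condition
  have s3 : MI p (Uni.dg X y) (Uni.dg X om) (fun ω => (ka ω, (pr ω, (R ω, bT ω)))) ≤
      a + Cst c K := by
    have e1 := MI_chain_left h0 pr (Uni.dg X y) (fun ω => (ka ω, Uni.dg X om ω))
      (fun ω => (R ω, bT ω))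
    have e2 := MI_chain_right h0 (Uni.dg X y) ka (Uni.dg X om) (fun ω => (pr ω, (R ω, bT ω)))
    have e3 := MI_nonneg h0 pr (fun ω => (ka ω, Uni.dg X om ω)) (fun ω => (R ω, bT ω))
    have e4 := MI_nonneg h0 (Uni.dg X y) ka (fun ω => (pr ω, (R ω, bT ω)))
    linarith
  have s4 := MI_swap h0 (Uni.dg X y) (Uni.dg X om) (fun ω => (ka ω, (pr ω, (R ω, bT ω))))
    (fun ω => (b1 X vis lam R y0 om z0 be S ω, T ω))
  have s5 : CH p (fun ω => (ka ω, (pr ω, (R ω, bT ω))))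
      (fun ω => (b1 X vis lam R y0 om z0 be S ω, T ω)) ≤ Cst c K := by
    refine le_trans (le_of_eq ?_) k1
    refine CH_congr h0 ?_ ?_ (fun _ _ _ _ h => h) (fun _ _ _ _ h => h)
    · intro ω ω' _ _ h
      simp only [Prod.mk.injEq] at h
      exact h.1.2.1
    · intro ω ω' _ _ h
      rw [hka, hbT]
      unfold b1 at h
      simp only [Prod.mk.injEq] at h ⊢
      tauto
  have s6 : CH p (fun ω => (b1 X vis lam R y0 om z0 be S ω, T ω))
      (fun ω => (ka ω, (pr ω, (R ω, bT ω)))) ≤ Cst c K := by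
    have k2' : CH p nu (fun ω => (ka ω, (pr ω, (R ω, bT ω)))) ≤ Cst c K := by
      rw [hbT]
      exact k2
    refine le_trans (le_of_eq ?_) k2'
    refine CH_congr h0 ?_ ?_ (fun _ _ _ _ h => h) (fun _ _ _ _ h => h)
    · intro ω ω' _ _ h
      rw [hnu]
      unfold b1 at h
      simp only [Prod.mk.injEq] at h
      exact h.1.1.2.1
    · intro ω ω' _ _ h
      unfold b1
      rw [hnu, hka, hbT] at h
      simp only [Prod.mk.injEq] at h ⊢
      tauto
  have s7 := MI_eq h0 (Uni.dg X y) (Uni.dg X om) (fun ω => (b1 X vis lam R y0 om z0 be S ω, T ω))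
  linarith

/-- Lemma W with its constants. -/
def WDC (ε ca η ϖ ι : ℝ) (n₀ : ℕ) : Prop :=
    ∀ (Ω β Λ Θ : Type) [Fintype Ω] (p : Ω → ℝ) (b : Ω → β) (L : Ω → Λ) (T : Ω → Θ)
      (om m0 th S nu : Ω → ℝ) (X : ℕ), WData p b L T om m0 th S nu → n₀ ≤ X →
      Pool.KVA.MI p T L b ≤ ι * X →
      (1 - ι) * X * Real.log 2 ≤ CH p (Pool.K2S.Uni.dg X th) (fun ω => (L ω, b ω)) →
      CH p (Pool.K2S.Uni.dg X nu) (fun ω => (b ω, T ω)) -
        CH p (Pool.K2S.Uni.dg X nu) (fun ω => (Pool.K2S.Uni.dg X om ω, (b ω, T ω))) ≤ ι * X →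
      (∀ r X' : ℕ, η * X ≤ X' → r + X' ≤ X → ∀ A : Ω → Prop, ϖ ≤ Pe p A →
        ca * X' * Real.log 2 ≤ CH (Pool.Agent.H49.Ent.cond p A True)
          (Pool.K2S.Uni.dg (r + X') om)
          (fun ω => (Pool.K2S.Uni.dg r om ω, (Pool.K2S.Uni.dg r m0 ω, b ω)))) →
      (1 - ε) * X * Real.log 2 ≤ CH p (Pool.K2S.Uni.dg X nu) (fun ω => (b ω, T ω))

/-- **The block is full along the frame of a reference.** -/
theorem one_ref (hK : 0 ≤ K) {ε ca η ϖ ι ι' x₀ ε₁ : ℝ} {n₀ : ℕ}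
    (hW : WDC ε (ca / 2) η ϖ ι n₀) (hϖ : 0 < ϖ)
    (hd : PVData c K p vis lam L T R Y y0 om z0 be th th' S y z X)
    (hp : PVHyp c p vis lam L T R Y om be th S y z X x₀ η ϖ ι' ε₁ ca) (hX : n₀ ≤ X)
    (hι : ι' ≤ ι) (hι2 : ι' * X + 3 * Cst c K ≤ ι * X)
    (hη : 3 * Cst c K ≤ ca / 2 * (η * X) * Real.log 2) (hca : 0 < ca) :
    (1 - ε) * X * Real.log 2 - Cst c K ≤
      CH p (Uni.dg X y) (fun ω => (prj X y z S ω, ((vis ω, T ω), (lam ω, R ω)))) := by
  have h0 := hd.law.nonneg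
  have hX0 : (0 : ℝ) ≤ X := Nat.cast_nonneg X
  have l2 : (0 : ℝ) ≤ Real.log 2 := Real.log_nonneg (by norm_num)
  have hC := Cst_nonneg c hK
  obtain ⟨k, hk, ek⟩ := hd.hy
  have hw : WData p (b1 X vis lam R y0 om z0 be S) L T om y0 th k y := by
    refine ⟨hd.law, ?_, ?_, ?_, ?_, hd.hom, hd.hth, ek⟩
    · intro ω ω' a b e
      unfold b1 at e
      simp only [Prod.mk.injEq] at e
      exact hd.dom ω ω' a b (by simp only [Prod.mk.injEq]; tauto)
    · intro ω ω' a b e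
      unfold b1 at e
      simp only [Prod.mk.injEq] at e
      exact hd.dy0 ω ω' a b (by simp only [Prod.mk.injEq]; tauto)
    · intro ω ω' a b e
      unfold b1 at e
      simp only [Prod.mk.injEq] at e
      exact hd.dth ω ω' a b (by simp only [Prod.mk.injEq]; tauto)
    · intro ω ω' a b e
      unfold b1 at e
      simp only [Prod.mk.injEq] at e
      exact hk ω ω' a b (by simp only [Prod.mk.injEq]; tauto)
  -- the variables of the line and of the reference determine the context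
  have dS : ∀ ω ω', 0 < p ω → 0 < p ω' → (L ω, (R ω, (vis ω, lam ω))) =
      (L ω', (R ω', (vis ω', lam ω'))) →
      b1 X vis lam R y0 om z0 be S ω = b1 X vis lam R y0 om z0 be S ω' := by
    intro ω ω' a b e
    simp only [Prod.mk.injEq] at e
    obtain ⟨e1, e2, e3, e4⟩ := e
    have f1 := hd.dS ω ω' a b (by simp only [e2, e3, e4])
    have f2 := hd.dy0 ω ω' a b (by simp only [e1, e3, e4])
    have f3 := hd.dom ω ω' a b (by simp only [e1, e3, e4])
    have f4 := hd.dz0 ω ω' a b (by simp only [e1, e3, e4])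
    have f5 := hd.dbe ω ω' a b (by simp only [e1, e3, e4])
    unfold b1 dgv
    simp only [e2, e3, e4, f1, f2, f3, f4, f5]
  have H1 : MI p T L (b1 X vis lam R y0 om z0 be S) ≤ ι * X := by
    have e1 := MI_chain_right h0 T (fun ω => (R ω, (dgv X (fun ω i => z0 ω i - S ω i * y0 ω) ω,
      dgv X (fun ω i => be ω i - S ω i * om ω) ω))) L (fun ω => (vis ω, lam ω))
    have e2 := MI_nonneg h0 T (fun ω => (R ω, (dgv X (fun ω i => z0 ω i - S ω i * y0 ω) ω,
      dgv X (fun ω i => be ω i - S ω i * om ω) ω))) (fun ω => (vis ω, lam ω))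
    have e3 : MI p T (fun ω => ((R ω, (dgv X (fun ω i => z0 ω i - S ω i * y0 ω) ω,
        dgv X (fun ω i => be ω i - S ω i * om ω) ω)), L ω)) (fun ω => (vis ω, lam ω)) =
        MI p T (fun ω => (L ω, R ω)) (fun ω => (vis ω, lam ω)) := by
      refine MI_congr h0 T ?_ ?_ (fun _ _ _ _ h => h) (fun _ _ _ _ h => h)
      · intro ω ω' _ _ h
        simp only [Prod.mk.injEq] at h ⊢
        tauto
      · intro ω ω' a b h
        have h2 := dS ω ω' a b (by
          simp only [Prod.mk.injEq] at h ⊢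
          tauto)
        unfold b1 at h2
        simp only [Prod.mk.injEq] at h h2 ⊢
        tauto
    have e4 : MI p T L (fun ω => ((R ω, (dgv X (fun ω i => z0 ω i - S ω i * y0 ω) ω,
        dgv X (fun ω i => be ω i - S ω i * om ω) ω)), (vis ω, lam ω))) =
        MI p T L (b1 X vis lam R y0 om z0 be S) := by
      refine MI_congr h0 T ?_ ?_ ?_ ?_ <;>
      · intro ω ω' _ _ h
        unfold b1 at *
        simp only [Prod.mk.injEq] at h ⊢
        tauto
    have e5 := hp.h1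
    have e6 : ι' * X ≤ ι * X := mul_le_mul_of_nonneg_right hι hX0
    linarith
  have H1' : (1 - ι) * X * Real.log 2 ≤ CH p (Uni.dg X th)
      (fun ω => (L ω, b1 X vis lam R y0 om z0 be S ω)) := by
    have e1 := CH_mono_cond h0 (X := Uni.dg X th) (W' := fun ω => (L ω, (R ω, (vis ω, lam ω))))
      (W := fun ω => (L ω, b1 X vis lam R y0 om z0 be S ω)) (fun ω ω' a b h =>
        Prod.ext (Prod.ext_iff.mp h).1 (dS ω ω' a b h))
    have e2 := hp.h1'
    have e3 : (1 - ι) * X * Real.log 2 ≤ (1 - ι') * X * Real.log 2 :=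
      mul_le_mul_of_nonneg_right (mul_le_mul_of_nonneg_right (by linarith) hX0) l2
    linarith
  have H2 := ind_ref hd hK hp.h2
  have H4 : ∀ r X' : ℕ, η * X ≤ X' → r + X' ≤ X → ∀ A : Ω → Prop, ϖ ≤ Pe p A →
      ca / 2 * X' * Real.log 2 ≤ CH (Pool.Agent.H49.Ent.cond p A True)
        (Uni.dg (r + X') om)
        (fun ω => (Uni.dg r om ω, (Uni.dg r y0 ω, b1 X vis lam R y0 om z0 be S ω))) := by
    intro r X' h1 h2 A hA
    refine le_trans ?_ (act_ref hK hd h2 (hϖ.trans_le hA) (hp.h4 r X' h1 h2 A hA))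
    have e1 : ca / 2 * (η * X) * Real.log 2 ≤ ca / 2 * X' * Real.log 2 :=
      mul_le_mul_of_nonneg_right (mul_le_mul_of_nonneg_left h1 (by linarith)) l2
    have e2 : ca * X' * Real.log 2 = ca / 2 * X' * Real.log 2 + ca / 2 * X' * Real.log 2 := by ring
    linarith
  have H := hW Ω _ Λ Θ p (b1 X vis lam R y0 om z0 be S) L T om y0 th k y X hw hX H1 H1'
    (H2.trans hι2) H4
  -- the transversal coordinates
  have e1 := CH_prj hd hK
  have e2 := CH_le_add h0 (Uni.dg X y) (prj X y z S)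
    (fun ω => (b1 X vis lam R y0 om z0 be S ω, T ω))
  have e3 : CH p (Uni.dg X y) (fun ω => (prj X y z S ω,
      (b1 X vis lam R y0 om z0 be S ω, T ω))) ≤
      CH p (Uni.dg X y) (fun ω => (prj X y z S ω, ((vis ω, T ω), (lam ω, R ω)))) := by
    refine CH_mono_cond h0 ?_
    intro ω ω' _ _ h
    unfold b1 at h
    simp only [Prod.mk.injEq] at h ⊢
    tauto
  linarith

end Pool.PLV
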