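import Pool.Agent.H46.S6.PlvC

/-!
# Theorem PLV: linear algebra, and the sum over the references
-/

set_option autoImplicit false

namespace Pool.PLV

open Finset Real
open Pool.Agent.H49.Ent Pool.Agent.H32.Dense Pool.STK Pool.KA Pool.PRM Pool.KVA Pool.M5 Pool.K2S

/-- Fewer than `m` vectors in dimension `m` have a common normal vector. -/
theorem exists_normal {m : ℕ} (v : Fin m → Fin m → ℝ) (j : Fin m) :
    ∃ n : Fin m → ℝ, (∀ i, |n i| ≤ 1) ∧ (∃ i, |n i| = 1) ∧ ∀ k < j, ∑ i, n i * v k i = 0 := by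
  classical
  let f : (Fin m → ℝ) →ₗ[ℝ] ({k : Fin m // k < j} → ℝ) :=
    { toFun := fun n k => ∑ i, n i * v k i
      map_add' := fun a b => by
        funext k
        simp only [Pi.add_apply, add_mul, Finset.sum_add_distrib]
      map_smul' := fun r a => by
        funext k
        simp only [Pi.smul_apply, smul_eq_mul, RingHom.id_apply, Finset.mul_sum, mul_assoc] }
  have hcard : Fintype.card {k : Fin m // k < j} < m := by
    rw [Fintype.card_subtype]
    have : (Finset.univ.filter fun k : Fin m => k < j) = Finset.Iio j := by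
      ext k
      simp
    rw [this, Fin.card_Iio]
    exact j.2
  have hker : LinearMap.ker f ≠ ⊥ := LinearMap.ker_ne_bot_of_finrank_lt (by
    rw [Module.finrank_fintype_fun_eq_card, Module.finrank_fintype_fun_eq_card, Fintype.card_fin]
    exact hcard)
  obtain ⟨n, hn, hn0⟩ := (Submodule.ne_bot_iff _).1 hker
  have : Nonempty (Fin m) := ⟨j⟩
  obtain ⟨i0, hi0⟩ := Finite.exists_max (fun i => |n i|)
  have hpos : 0 < |n i0| := by
    rcases (abs_nonneg (n i0)).eq_or_lt with h | h
    · exfalso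
      refine hn0 (funext fun i => ?_)
      have := hi0 i
      rw [← h] at this
      exact abs_eq_zero.1 (le_antisymm this (abs_nonneg _))
    · exact h
  refine ⟨fun i => n i / |n i0|, fun i => ?_, ⟨i0, ?_⟩, fun k hk => ?_⟩
  · rw [abs_div, abs_abs, div_le_one hpos]
    exact hi0 i
  · rw [abs_div, abs_abs, div_self hpos.ne']
  · have h1 : ∑ i, n i * v k i = 0 := by
      have h2 : f n = 0 := hn
      exact congrFun h2 ⟨k, hk⟩
    calc ∑ i, n i / |n i0| * v k i = (∑ i, n i * v k i) / |n i0| := by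
          rw [Finset.sum_div]
          exact Finset.sum_congr rfl fun i _ => by ring
      _ = 0 := by rw [h1, zero_div]

/-- The first vectors of a family. -/
def trn {m : ℕ} (v : Fin m → Fin m → ℝ) (j : Fin m) (k : Fin m) : Fin m → ℝ :=
  if k < j then v k else 0

/-- A common normal vector of the vectors with number `< j`. -/
noncomputable def NF {m : ℕ} (v : Fin m → Fin m → ℝ) (j : Fin m) : Fin m → ℝ :=
  (exists_normal (trn v j) j).choose

theorem NF_le {m : ℕ} (v : Fin m → Fin m → ℝ) (j i : Fin m) : |NF v j i| ≤ 1 :=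
  (exists_normal (trn v j) j).choose_spec.1 i

theorem NF_one {m : ℕ} (v : Fin m → Fin m → ℝ) (j : Fin m) : ∃ i, |NF v j i| = 1 :=
  (exists_normal (trn v j) j).choose_spec.2.1

theorem NF_zero {m : ℕ} (v : Fin m → Fin m → ℝ) (j k : Fin m) (h : k < j) :
    ∑ i, NF v j i * v k i = 0 := by
  have h1 := (exists_normal (trn v j) j).choose_spec.2.2 k h
  unfold trn at h1
  simp only [if_pos h] at h1
  exact h1

theorem NF_congr {m : ℕ} {v v' : Fin m → Fin m → ℝ} {j : Fin m} (h : ∀ k < j, v k = v' k) :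
    NF v j = NF v' j := by
  have : trn v j = trn v' j := by
    funext k
    unfold trn
    split_ifs with h1
    · exact h k h1
    · rfl
  unfold NF
  congr 1
  all_goals
    simp only [this]

section sum

variable {Ω' T' : Type} [Fintype Ω'] {q : Ω' → ℝ} {c : ℕ}

/-- The value of a form at the block, rounded. -/
noncomputable def zz (N : Fin (c + 1) → Ω' → Fin (c + 1) → ℝ) (yd : Ω' → ℤ) (zd : Ω' → Fin c → ℤ)
    (j : Fin (c + 1)) (ω : Ω') : ℤ :=
  ⌊N j ω 0 * (yd ω : ℝ) + ∑ i, N j ω i.succ * (zd ω i : ℝ)⌋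

/-- The values of the last forms. -/
noncomputable def Zm (N : Fin (c + 1) → Ω' → Fin (c + 1) → ℝ) (yd : Ω' → ℤ)
    (zd : Ω' → Fin c → ℤ) (j : ℕ) (ω : Ω') : Fin (c + 1) → ℤ :=
  fun i => if j ≤ (i : ℕ) then zz N yd zd i ω else 0

/-- The projection along the frame `(1, S)`. -/
noncomputable def prz (S : Ω' → Fin c → ℝ) (yd : Ω' → ℤ) (zd : Ω' → Fin c → ℤ) (ω : Ω') :
    Fin c → ℤ := fun i => ⌊(zd ω i : ℝ) - S ω i * (yd ω : ℝ)⌋

theorem sum_floor_le {n : Fin c → ℝ} (hn : ∀ i, |n i| ≤ 1) (x : Fin c → ℝ) :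
    |∑ i, n i * x i - ∑ i, n i * (⌊x i⌋ : ℝ)| ≤ c := by
  rw [← Finset.sum_sub_distrib]
  refine (Finset.abs_sum_le_sum_abs _ _).trans ?_
  calc ∑ i, |n i * x i - n i * (⌊x i⌋ : ℝ)| ≤ ∑ _i : Fin c, (1 : ℝ) := by
        refine Finset.sum_le_sum fun i _ => ?_
        rw [← mul_sub, abs_mul]
        have h1 := floor_abs (x i)
        rw [abs_sub_comm] at h1
        calc |n i| * |x i - (⌊x i⌋ : ℝ)| ≤ 1 * 1 :=
              mul_le_mul (hn i) h1 (abs_nonneg _) zero_le_one
          _ = 1 := one_mul 1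
    _ = c := by simp

/-- A form at the block, in the coordinates along and across the frame. -/
theorem form_eq (N : Fin (c + 1) → ℝ) (S : Fin c → ℝ) (yd : ℤ) (zd : Fin c → ℤ) :
    N 0 * (yd : ℝ) + ∑ i, N i.succ * (zd i : ℝ) =
      (N 0 + ∑ i, N i.succ * S i) * yd + ∑ i, N i.succ * ((zd i : ℝ) - S i * (yd : ℝ)) := by
  have h : ∑ i, N i.succ * ((zd i : ℝ) - S i * (yd : ℝ)) =
      ∑ i, N i.succ * (zd i : ℝ) - (∑ i, N i.succ * S i) * yd := by
    rw [Finset.sum_mul, ← Finset.sum_sub_distrib]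
    exact Finset.sum_congr rfl fun i _ => by ring
  rw [h]
  ring

theorem sum_step (hq : IsLaw q) (C : Ω' → T') (yd : Ω' → ℤ) (zd : Ω' → Fin c → ℤ)
    (S : Fin (c + 1) → Ω' → Fin c → ℝ) (N : Fin (c + 1) → Ω' → Fin (c + 1) → ℝ)
    (hS : ∀ k, Det q C (S k)) (hN : ∀ k, Det q C (N k))
    (hN1 : ∀ j ω, 0 < q ω → ∀ i, |N j ω i| ≤ 1)
    (hN0 : ∀ j k, k < j → ∀ ω, 0 < q ω → N j ω 0 + ∑ i, N j ω i.succ * S k ω i = 0)
    {X : ℕ} {M : ℝ} (hM : 0 ≤ M) (hy : ∀ ω, 0 < q ω → |(yd ω : ℝ)| ≤ M * 2 ^ X)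
    {D a b : ℝ} (hD : 1 ≤ D)
    (hb : ∀ j, Pe q (fun ω => |N j ω 0 + ∑ i, N j ω i.succ * S j ω i| < D⁻¹) ≤ b)
    (ha : ∀ j, a ≤ CH q yd (fun ω => (prz (S j) yd zd ω, C ω))) (j : Fin (c + 1)) :
    CH q (Zm N yd zd (j + 1)) C + (a - (c + 1) * Real.log (4 * (c + 2) + 1) - Real.log D -
      Real.log (2 * c + 3) - b * (X * Real.log 2 + Real.log (4 * M + 1))) ≤ CH q (Zm N yd zd j) C := by
  classical
  have h0 := hq.nonneg
  have hD0 : 0 < D := by linarith
  obtain ⟨pr, hpr⟩ : ∃ pr, pr = prz (S j) yd zd := ⟨_, rfl⟩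
  obtain ⟨Z1, hZ1⟩ : ∃ Z1, Z1 = Zm N yd zd (j + 1) := ⟨_, rfl⟩
  obtain ⟨z, hz⟩ : ∃ z, z = zz N yd zd j := ⟨_, rfl⟩
  have ha' := ha j
  rw [← hpr] at ha'
  rw [← hZ1]
  -- the chain rule
  have s1 : CH q (Zm N yd zd j) C = CH q Z1 C + CH q z (fun ω => (Z1 ω, C ω)) := by
    rw [← CH_chain h0]
    refine CH_congr h0 ?_ ?_ (fun _ _ _ _ h => h) (fun _ _ _ _ h => h)
    · intro ω ω' _ _ h
      have h1 : Zm N yd zd j ω = Zm N yd zd j ω' := (Prod.ext_iff.mp h).1
      refine Prod.ext ?_ ?_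
      · have h2 := congrFun h1 j
        unfold Zm at h2
        simp only [le_refl, if_true] at h2
        rw [hz]
        exact h2
      · rw [hZ1]
        funext i
        show Zm N yd zd (j + 1) ω i = Zm N yd zd (j + 1) ω' i
        have h2 := congrFun h1 i
        unfold Zm at h2 ⊢
        by_cases h3 : (j : ℕ) + 1 ≤ i
        · rw [if_pos h3, if_pos h3]
          rw [if_pos (by omega), if_pos (by omega)] at h2
          exact h2
        · rw [if_neg h3, if_neg h3]
    · intro ω ω' _ _ h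
      have h1 := (Prod.ext_iff.mp h).1
      have h2 : z ω = z ω' := (Prod.ext_iff.mp h1).1
      have h3 : Z1 ω = Z1 ω' := (Prod.ext_iff.mp h1).2
      show Zm N yd zd j ω = Zm N yd zd j ω'
      funext i
      unfold Zm
      by_cases h4 : (j : ℕ) ≤ i
      · rw [if_pos h4, if_pos h4]
        rcases Nat.eq_or_lt_of_le h4 with h5 | h5
        · have : i = j := Fin.ext h5.symm
          subst this
          rw [hz] at h2
          exact h2
        · rw [hZ1] at h3
          have h6 := congrFun h3 i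
          unfold Zm at h6
          rw [if_pos (by omega), if_pos (by omega)] at h6
          exact h6
      · rw [if_neg h4, if_neg h4]
  have s2 : CH q z (fun ω => (pr ω, (Z1 ω, C ω))) ≤ CH q z (fun ω => (Z1 ω, C ω)) :=
    CH_mono_cond h0 fun ω ω' _ _ h => (Prod.ext_iff.mp h).2
  have s3 := CH_le_add h0 yd z (fun ω => (pr ω, (Z1 ω, C ω)))
  have s4 := CH_le_add h0 yd Z1 (fun ω => (pr ω, C ω))
  have s5 : CH q yd (fun ω => (Z1 ω, (pr ω, C ω))) = CH q yd (fun ω => (pr ω, (Z1 ω, C ω))) := by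
    refine CH_congr h0 (fun ω ω' _ _ h => (Prod.ext_iff.mp h).1)
      (fun ω ω' _ _ h => (Prod.ext_iff.mp h).1) ?_ ?_ <;>
    · intro ω ω' _ _ h
      simp only [Prod.mk.injEq] at h ⊢
      tauto
  -- the last forms are functions of the projection
  have s6 : CH q Z1 (fun ω => (pr ω, C ω)) ≤ (c + 1) * Real.log (4 * (c + 2) + 1) := by
    have h1 := CH_nearv hq Z1 (fun ω => (pr ω, C ω)) (fun ω i =>
      if (j : ℕ) + 1 ≤ i then ∑ l, N i ω l.succ * (pr ω l : ℝ) else 0) ?_ (K := c + 2) ?_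
    · push_cast at h1
      exact h1
    · intro ω ω' a b h
      have e1 : pr ω = pr ω' := (Prod.ext_iff.mp h).1
      have e2 : C ω = C ω' := (Prod.ext_iff.mp h).2
      funext i
      dsimp only
      rw [hN i ω ω' a b e2, e1]
    · intro ω hω i
      rw [hZ1]
      unfold Zm
      by_cases h1 : (j : ℕ) + 1 ≤ i
      · rw [if_pos h1, if_pos h1]
        have h2 : j < i := Fin.lt_def.2 (by omega)
        unfold zz
        rw [form_eq (N i ω) (S j ω) (yd ω) (zd ω), hN0 i j h2 ω hω, zero_mul, zero_add]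
        have h3 := floor_abs (∑ l, N i ω l.succ * ((zd ω l : ℝ) - S j ω l * (yd ω : ℝ)))
        have h4 := sum_floor_le (fun l => hN1 i ω hω l.succ)
          (fun l => (zd ω l : ℝ) - S j ω l * (yd ω : ℝ))
        rw [hpr]
        show |((⌊∑ l, N i ω l.succ * ((zd ω l : ℝ) - S j ω l * (yd ω : ℝ))⌋ : ℤ) : ℝ) -
          ∑ l, N i ω l.succ * ((⌊(zd ω l : ℝ) - S j ω l * (yd ω : ℝ)⌋ : ℤ) : ℝ)| ≤ c + 2
        rw [abs_le] at h3 h4 ⊢
        constructor <;> linarith
      · rw [if_neg h1, if_neg h1]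
        simp only [Int.cast_zero, sub_zero, abs_zero]
        positivity
  -- the coordinate along the frame
  have s7 : CH q yd (fun ω => (z ω, (pr ω, (Z1 ω, C ω)))) ≤
      Real.log D + Real.log (2 * c + 3) + b * (X * Real.log 2 + Real.log (4 * M + 1)) := by
    have l2 : (0 : ℝ) ≤ Real.log 2 := Real.log_nonneg (by norm_num)
    have l21 : (0 : ℝ) ≤ Real.log (4 * M + 1) := Real.log_nonneg (by linarith)
    obtain ⟨bad, hbad⟩ : ∃ bad : Ω' → Prop,
      bad = fun ω => |N j ω 0 + ∑ i, N j ω i.succ * S j ω i| < D⁻¹ := ⟨_, rfl⟩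
    have h1 := CH_le_int h0 hq.sum_one yd (fun ω => (z ω, (pr ω, (Z1 ω, C ω))))
      (fun ω => if bad ω then 2 * M * 2 ^ X else (c + 1) * D) ?_
    · refine h1.trans ?_
      have h2 : ∀ ω, q ω * Real.log (2 * (if bad ω then 2 * M * 2 ^ X else (c + 1) * D) + 1) ≤
          q ω * (Real.log D + Real.log (2 * c + 3)) +
            (if bad ω then q ω else 0) * (X * Real.log 2 + Real.log (4 * M + 1)) := by
        intro ω
        have lD : 0 ≤ Real.log D := Real.log_nonneg hD
        have lc : 0 ≤ Real.log (2 * (c : ℝ) + 3) := Real.log_nonneg (by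
          have : (0 : ℝ) ≤ c := Nat.cast_nonneg c
          linarith)
        by_cases h3 : bad ω
        · rw [if_pos h3, if_pos h3]
          have h4 : Real.log (2 * (2 * M * 2 ^ X) + 1) ≤ X * Real.log 2 + Real.log (4 * M + 1) := by
            rw [← Real.log_pow, ← Real.log_mul (by positivity) (by positivity)]
            refine Real.log_le_log (by positivity) ?_
            have : (1 : ℝ) ≤ 2 ^ X := one_le_pow₀ (by norm_num)
            nlinarith
          have h5 := mul_le_mul_of_nonneg_left h4 (h0 ω)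
          have h6 : 0 ≤ q ω * (Real.log D + Real.log (2 * c + 3)) :=
            mul_nonneg (h0 ω) (add_nonneg lD lc)
          linarith
        · rw [if_neg h3, if_neg h3]
          have h4 : Real.log (2 * ((c + 1) * D) + 1) ≤ Real.log D + Real.log (2 * c + 3) := by
            rw [← Real.log_mul hD0.ne' (by positivity)]
            refine Real.log_le_log (by positivity) ?_
            nlinarith [Nat.cast_nonneg (α := ℝ) c]
          have h5 := mul_le_mul_of_nonneg_left h4 (h0 ω)
          linarith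
      have h3 : Ex q (fun ω => Real.log (2 * (if bad ω then 2 * M * 2 ^ X else (c + 1) * D) + 1)) ≤
          ∑ ω, (q ω * (Real.log D + Real.log (2 * c + 3)) +
            (if bad ω then q ω else 0) * (X * Real.log 2 + Real.log (4 * M + 1))) :=
        Finset.sum_le_sum fun ω _ => h2 ω
      refine h3.trans ?_
      rw [Finset.sum_add_distrib, ← Finset.sum_mul, ← Finset.sum_mul, hq.sum_one, one_mul]
      have h4 := hb j
      rw [Pe_eq] at h4
      have h5 : ∑ ω, (if bad ω then q ω else 0) ≤ b := by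
        refine le_trans (le_of_eq ?_) h4
        refine Finset.sum_congr rfl fun ω _ => ?_
        rw [hbad]
      have h6 : (0 : ℝ) ≤ X * Real.log 2 + Real.log (4 * M + 1) := by positivity
      have h7 := mul_le_mul_of_nonneg_right h5 h6
      linarith
    · intro ω ω' hω hω' h
      simp only [Prod.mk.injEq] at h
      obtain ⟨e1, e2, _, e3⟩ := h
      have f1 := hS j ω ω' hω hω' e3
      have f2 := hN j ω ω' hω hω' e3
      by_cases h3 : bad ω
      · rw [if_pos h3]
        have g1 := hy ω hω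
        have g2 := hy ω' hω'
        push_cast
        rw [abs_le] at g1 g2 ⊢
        constructor <;> linarith
      · rw [if_neg h3]
        rw [hbad] at h3
        have h4 : D⁻¹ ≤ |N j ω 0 + ∑ i, N j ω i.succ * S j ω i| := not_lt.1 h3
        -- the values of the form
        have k1 := form_eq (N j ω) (S j ω) (yd ω) (zd ω)
        have k2 := form_eq (N j ω') (S j ω') (yd ω') (zd ω')
        rw [← f1, ← f2] at k2
        have k3 : |(N j ω 0 * (yd ω : ℝ) + ∑ i, N j ω i.succ * (zd ω i : ℝ)) -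
            (N j ω 0 * (yd ω' : ℝ) + ∑ i, N j ω i.succ * (zd ω' i : ℝ))| ≤ 1 := by
          rw [hz] at e1
          unfold zz at e1
          rw [← f2] at e1
          have m1 := Int.floor_le (N j ω 0 * (yd ω : ℝ) + ∑ i, N j ω i.succ * (zd ω i : ℝ))
          have m2 := Int.lt_floor_add_one
            (N j ω 0 * (yd ω : ℝ) + ∑ i, N j ω i.succ * (zd ω i : ℝ))
          have m3 := Int.floor_le (N j ω 0 * (yd ω' : ℝ) + ∑ i, N j ω i.succ * (zd ω' i : ℝ))
          have m4 := Int.lt_floor_add_one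
            (N j ω 0 * (yd ω' : ℝ) + ∑ i, N j ω i.succ * (zd ω' i : ℝ))
          rw [e1] at m1 m2
          rw [abs_le]
          constructor <;> linarith
        have k4 : |∑ i, N j ω i.succ * ((zd ω i : ℝ) - S j ω i * (yd ω : ℝ)) -
            ∑ i, N j ω i.succ * ((zd ω' i : ℝ) - S j ω i * (yd ω' : ℝ))| ≤ c := by
          rw [← Finset.sum_sub_distrib]
          refine (Finset.abs_sum_le_sum_abs _ _).trans ?_
          calc _ ≤ ∑ _i : Fin c, (1 : ℝ) := by
                refine Finset.sum_le_sum fun i _ => ?_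
                rw [← mul_sub, abs_mul]
                have m0 : (⌊(zd ω i : ℝ) - S j ω i * (yd ω : ℝ)⌋ : ℤ) =
                    ⌊(zd ω' i : ℝ) - S j ω i * (yd ω' : ℝ)⌋ := by
                  rw [hpr] at e2
                  have := congrFun e2 i
                  unfold prz at this
                  rw [← f1] at this
                  exact this
                have m1 := Int.floor_le ((zd ω i : ℝ) - S j ω i * (yd ω : ℝ))
                have m2 := Int.lt_floor_add_one ((zd ω i : ℝ) - S j ω i * (yd ω : ℝ))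
                have m3 := Int.floor_le ((zd ω' i : ℝ) - S j ω i * (yd ω' : ℝ))
                have m4 := Int.lt_floor_add_one ((zd ω' i : ℝ) - S j ω i * (yd ω' : ℝ))
                rw [m0] at m1 m2
                have m5 : |(zd ω i : ℝ) - S j ω i * (yd ω : ℝ) -
                    ((zd ω' i : ℝ) - S j ω i * (yd ω' : ℝ))| ≤ 1 := by
                  rw [abs_le]
                  constructor <;> linarith
                calc _ ≤ (1 : ℝ) * 1 := mul_le_mul (hN1 j ω hω i.succ) m5 (abs_nonneg _)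
                      zero_le_one
                  _ = 1 := one_mul 1
            _ = c := by simp
        obtain ⟨g, hg⟩ : ∃ g : ℝ, g = N j ω 0 + ∑ i, N j ω i.succ * S j ω i := ⟨_, rfl⟩
        rw [← hg] at k1 k2 h4
        have k5 : |g * ((yd ω : ℝ) - yd ω')| ≤ c + 1 := by
          have : g * ((yd ω : ℝ) - yd ω') =
              ((N j ω 0 * (yd ω : ℝ) + ∑ i, N j ω i.succ * (zd ω i : ℝ)) -
                (N j ω 0 * (yd ω' : ℝ) + ∑ i, N j ω i.succ * (zd ω' i : ℝ))) -
              (∑ i, N j ω i.succ * ((zd ω i : ℝ) - S j ω i * (yd ω : ℝ)) -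
                ∑ i, N j ω i.succ * ((zd ω' i : ℝ) - S j ω i * (yd ω' : ℝ))) := by
            rw [k1, k2]
            ring
          rw [this]
          refine (abs_sub _ _).trans ?_
          linarith
        push_cast
        rw [abs_mul] at k5
        have k6 : D⁻¹ * |(yd ω : ℝ) - yd ω'| ≤ c + 1 :=
          (mul_le_mul_of_nonneg_right h4 (abs_nonneg _)).trans k5
        have k7 : |(yd ω : ℝ) - yd ω'| = D * (D⁻¹ * |(yd ω : ℝ) - yd ω'|) := by
          field_simp
        rw [k7]
        calc D * (D⁻¹ * |(yd ω : ℝ) - yd ω'|) ≤ D * (c + 1) :=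
              mul_le_mul_of_nonneg_left k6 hD0.le
          _ = (c + 1) * D := by ring
  linarith

/-- **The sum over the references.** -/
theorem sum_full (hq : IsLaw q) (C : Ω' → T') (yd : Ω' → ℤ) (zd : Ω' → Fin c → ℤ)
    (S : Fin (c + 1) → Ω' → Fin c → ℝ) (N : Fin (c + 1) → Ω' → Fin (c + 1) → ℝ)
    (hS : ∀ k, Det q C (S k)) (hN : ∀ k, Det q C (N k))
    (hN1 : ∀ j ω, 0 < q ω → ∀ i, |N j ω i| ≤ 1)
    (hN0 : ∀ j k, k < j → ∀ ω, 0 < q ω → N j ω 0 + ∑ i, N j ω i.succ * S k ω i = 0)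
    {X : ℕ} {M : ℝ} (hM : 0 ≤ M) (hy : ∀ ω, 0 < q ω → |(yd ω : ℝ)| ≤ M * 2 ^ X)
    {D a b : ℝ} (hD : 1 ≤ D)
    (hb : ∀ j, Pe q (fun ω => |N j ω 0 + ∑ i, N j ω i.succ * S j ω i| < D⁻¹) ≤ b)
    (ha : ∀ j, a ≤ CH q yd (fun ω => (prz (S j) yd zd ω, C ω))) :
    (c + 1) * (a - (c + 1) * Real.log (4 * (c + 2) + 1) - Real.log D -
      Real.log (2 * c + 3) - b * (X * Real.log 2 + Real.log (4 * M + 1))) ≤
      CH q (fun ω => (yd ω, zd ω)) C := by
  have h0 := hq.nonneg
  obtain ⟨B, hB⟩ : ∃ B : ℝ, B = a - (c + 1) * Real.log (4 * (c + 2) + 1) - Real.log D -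
      Real.log (2 * c + 3) - b * (X * Real.log 2 + Real.log (4 * M + 1)) := ⟨_, rfl⟩
  rw [← hB]
  have key : ∀ k : ℕ, k ≤ c + 1 → (k : ℝ) * B ≤ CH q (Zm N yd zd (c + 1 - k)) C := by
    intro k
    induction k with
    | zero =>
      intro _
      simp only [Nat.cast_zero, zero_mul]
      exact CH_nonneg h0 _ _
    | succ k ih =>
      intro hk
      have h1 := ih (by omega)
      have h2 := sum_step hq C yd zd S N hS hN hN1 hN0 hM hy hD hb ha ⟨c + 1 - (k + 1), by omega⟩
      rw [← hB] at h2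
      have e : ((⟨c + 1 - (k + 1), by omega⟩ : Fin (c + 1)) : ℕ) + 1 = c + 1 - k := by
        show c + 1 - (k + 1) + 1 = c + 1 - k
        omega
      rw [e] at h2
      have h4 : ((k + 1 : ℕ) : ℝ) * B = k * B + B := by
        push_cast
        ring
      rw [h4]
      have h3 : CH q (Zm N yd zd ((⟨c + 1 - (k + 1), by omega⟩ : Fin (c + 1)) : ℕ)) C =
        CH q (Zm N yd zd (c + 1 - (k + 1))) C := rfl
      rw [h3] at h2
      linarith
  have h1 := key (c + 1) le_rfl
  push_cast at h1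
  refine h1.trans ?_
  refine CH_mono_left h0 ?_
  intro ω ω' a b h
  have e1 := (Prod.ext_iff.mp h).1
  have e2 : C ω = C ω' := (Prod.ext_iff.mp h).2
  have e3 : yd ω = yd ω' := (Prod.ext_iff.mp e1).1
  have e4 : zd ω = zd ω' := (Prod.ext_iff.mp e1).2
  funext i
  unfold Zm zz
  rw [e3, e4, hN i ω ω' a b e2]

end sum

end Pool.PLV
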