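import Pool.Agent.H46.S6.PlvD

/-!
# Theorem PLV: references on different lines through one position
-/

set_option autoImplicit false

namespace Pool.PLV

open Finset Real
open Pool.Agent.H49.Ent Pool.Agent.H32.Dense Pool.STK Pool.KA Pool.PRM Pool.KVA Pool.M5 Pool.K2S

section glue

variable {Ω S T U V ζ : Type} [Fintype Ω] {p : Ω → ℝ}

theorem CH_pi (hp : ∀ ω, 0 ≤ p ω) (W : Ω → T) :
    ∀ (n : ℕ) (X : Fin n → Ω → S), CH p (fun ω i => X i ω) W ≤ ∑ i, CH p (X i) W := by
  intro n
  induction n with
  | zero =>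
    intro X
    rw [Finset.univ_eq_empty, Finset.sum_empty, CH_eq_zero hp]
    intro ω ω' _ _ _
    exact Subsingleton.elim _ _
  | succ n ih =>
    intro X
    rw [Fin.sum_univ_succ]
    have h1 : CH p (fun ω i => X i ω) W ≤ CH p (fun ω => (X 0 ω, fun i : Fin n => X i.succ ω)) W := by
      refine CH_mono_left hp fun ω ω' _ _ e => ?_
      have e1 := (Prod.ext_iff.mp e).1
      funext i
      refine Fin.cases ?_ (fun j => ?_) i
      · exact (Prod.ext_iff.mp e1).1
      · exact congrFun (Prod.ext_iff.mp e1).2 j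
    have h2 := CH_subadd hp (X 0) (fun ω (i : Fin n) => X i.succ ω) W
    have h3 := ih (fun i => X i.succ)
    linarith

/-- The references other than the one with number `k`. -/
def oth {K : ℕ} (r : Ω → S) (k : Fin K) (w : Ω × (Fin K → Ω)) : Fin K → Option S :=
  fun j => if j = k then none else some (r (w.2 j))

/-- **The references on the other lines** carry little information on the common position. -/
theorem MI_oth (hp : IsLaw p) (v : Ω → T) (x : Ω → U) (r : Ω → S) {K : ℕ} (k : Fin K) :
    MI (itr p (fun ω => (v ω, x ω)) K) (fun w => (x w.1, r (w.2 k))) (oth r k)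
      (fun w => v w.1) ≤ ((K : ℝ) - 1) * MI p x r v := by
  classical
  obtain ⟨Q, hQ⟩ : ∃ Q, Q = itr p (fun ω => (v ω, x ω)) K := ⟨_, rfl⟩
  have hlaw : IsLaw Q := hQ ▸ itr_law hp
  have h0 := hlaw.nonneg
  have hp0 := hp.nonneg
  have hsup : ∀ w, 0 < Q w → ∀ j, v (w.2 j) = v w.1 ∧ x (w.2 j) = x w.1 := by
    intro w hw j
    rw [hQ] at hw
    have h := ((itr_pos hp hw).2 j).2
    exact ⟨(Prod.ext_iff.mp h).1, (Prod.ext_iff.mp h).2⟩
  rw [← hQ]
  have e1 : MI Q (fun w => (x w.1, r (w.2 k))) (oth r k) (fun w => v w.1) =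
      CH Q (oth r k) (fun w => v w.1) -
        CH Q (oth r k) (fun w => ((x w.1, r (w.2 k)), v w.1)) := by
    rw [MI_symm h0, MI_eq h0]
  -- the first entropy
  have e2 : CH Q (oth r k) (fun w => v w.1) ≤ ((K : ℝ) - 1) * CH p r v := by
    have h1 := CH_pi h0 (fun w => v w.1) K (fun j w => oth r k w j)
    have h2 : ∀ j, CH Q (fun w => oth r k w j) (fun w => v w.1) ≤
        if j = k then 0 else CH p r v := by
      intro j
      by_cases h3 : j = k
      · rw [if_pos h3]
        refine le_of_eq (CH_eq_zero h0 ?_)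
        intro w w' _ _ _
        simp only [oth, if_pos h3]
      · rw [if_neg h3]
        have h4 : CH Q (fun w => oth r k w j) (fun w => v w.1) =
            CH Q (fun w => r (w.2 j)) (fun w => v (w.2 j)) := by
          refine CH_congr h0 ?_ ?_ ?_ ?_
          · intro w w' _ _ h
            have h5 := (Prod.ext_iff.mp h).1
            simp only [oth, if_neg h3, Option.some.injEq] at h5
            exact h5
          · intro w w' _ _ h
            have h5 := (Prod.ext_iff.mp h).1
            simp only [oth, if_neg h3, Option.some.injEq]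
            exact h5
          · intro w w' a b h
            show v (w.2 j) = v (w'.2 j)
            rw [(hsup w a j).1, (hsup w' b j).1]
            exact h
          · intro w w' a b h
            show v w.1 = v w'.1
            rw [← (hsup w a j).1, ← (hsup w' b j).1]
            exact h
        rw [h4, hQ, CH_snd hp j]
    refine h1.trans ((Finset.sum_le_sum fun j _ => h2 j).trans (le_of_eq ?_))
    have h3 : ∀ j : Fin K, (if j = k then (0 : ℝ) else CH p r v) =
        CH p r v - if j = k then CH p r v else 0 := by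
      intro j
      split_ifs <;> ring
    simp only [h3]
    rw [Finset.sum_sub_distrib, Finset.sum_ite_eq', if_pos (Finset.mem_univ k), Finset.sum_const,
      Finset.card_univ, Fintype.card_fin, nsmul_eq_mul]
    ring
  -- the second entropy
  have e3 : CH Q (oth r k) (fun w => ((x w.1, r (w.2 k)), v w.1)) =
      ((K : ℝ) - 1) * CH p r (fun ω => (v ω, x ω)) := by
    have h1 := H_refs (Z := fun ω => (v ω, x ω)) (K := K) hp r
    rw [← hQ] at h1
    have h2 : H Q (fun w => (oth r k w, ((x w.1, r (w.2 k)), v w.1))) =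
        H Q (fun w => ((fun k => r (w.2 k)), (v w.1, x w.1))) := by
      refine H_congr h0 ?_ ?_
      · intro w w' _ _ h
        simp only [Prod.mk.injEq] at h ⊢
        obtain ⟨h3, h4, h5⟩ := h
        refine ⟨funext fun j => ?_, ⟨h5, congrFun h3 k⟩, h4⟩
        simp only [oth]
        have h6 : r (w.2 j) = r (w'.2 j) := congrFun h3 j
        rw [h6]
      · intro w w' _ _ h
        simp only [Prod.mk.injEq] at h ⊢
        obtain ⟨h3, ⟨h4, h5⟩, h6⟩ := h
        refine ⟨funext fun j => ?_, h6, h4⟩
        by_cases h7 : j = k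
        · rw [h7]
          exact h5
        · have h8 := congrFun h3 j
          simp only [oth, if_neg h7, Option.some.injEq] at h8
          exact h8
    have h3 : H Q (fun w => ((x w.1, r (w.2 k)), v w.1)) = H p (fun ω => (r ω, (v ω, x ω))) := by
      rw [← H_snd (Z := fun ω => (v ω, x ω)) hp k (fun ω => (r ω, (v ω, x ω))), ← hQ]
      refine H_congr h0 ?_ ?_
      · intro w w' a b h
        simp only [Prod.mk.injEq] at h ⊢
        rw [(hsup w a k).1, (hsup w' b k).1, (hsup w a k).2, (hsup w' b k).2] at h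
        tauto
      · intro w w' a b h
        simp only [Prod.mk.injEq] at h ⊢
        rw [(hsup w a k).1, (hsup w' b k).1, (hsup w a k).2, (hsup w' b k).2]
        tauto
    unfold CH
    rw [h2, h1, h3]
    unfold CH
    ring
  have e4 : MI p x r v = CH p r v - CH p r (fun ω => (v ω, x ω)) := by
    rw [MI_symm hp0, MI_eq hp0]
    congr 1
    refine CH_congr hp0 (fun _ _ _ _ h => (Prod.ext_iff.mp h).1)
      (fun _ _ _ _ h => (Prod.ext_iff.mp h).1) ?_ ?_ <;>
    · intro ω ω' _ _ h
      simp only [Prod.mk.injEq] at h ⊢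
      tauto
  rw [e1, e3, e4]
  linarith

/-- The probability that a form which depends on the other references is small. -/
theorem Pe_update (hp : IsLaw p) (Z : Ω → ζ) {K : ℕ} (k : Fin K)
    (B : (Fin K → Ω) → Ω → Prop) (hB : ∀ v a ω, B (Function.update v k a) ω ↔ B v ω)
    (G : Set Ω) {ε : ℝ} (hε : 0 ≤ ε)
    (h : ∀ ω, 0 < p ω → ω ∉ G → ∀ v, Pe (Pool.Agent.H49.Ent.cond p Z (Z ω)) (B v) ≤ ε) :
    Pe (itr p Z K) (fun w => B w.2 (w.2 k)) ≤ ε + Pool.KAF.Pr p G := by
  classical
  have hPr : Pool.KAF.Pr p G = ∑ ω, if ω ∈ G then p ω else 0 := by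
    unfold Pool.KAF.Pr law
    refine Finset.sum_congr rfl fun ω _ => ?_
    simp only [eq_iff_iff, iff_true]
  rw [Pe_eq, Fintype.sum_prod_type, hPr]
  have h1 : ∀ ω, ∑ v, (if B v (v k) then itr p Z K (ω, v) else 0) ≤
      ε * p ω + if ω ∈ G then p ω else 0 := by
    intro ω
    rcases (hp.nonneg ω).eq_or_lt with h0 | h0
    · unfold itr
      dsimp only
      rw [← h0]
      simp
    have h2 : ∑ v, (if B v (v k) then itr p Z K (ω, v) else 0) =
        p ω * ∑ v : Fin K → Ω, (∏ i, Pool.Agent.H49.Ent.cond p Z (Z ω) (v i)) *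
          (if B v (v k) then 1 else 0) := by
      rw [Finset.mul_sum]
      refine Finset.sum_congr rfl fun v _ => ?_
      unfold itr
      split_ifs
      · ring
      · ring
    rw [h2, sum_update k _ (sum_cond_pos hp h0) (fun v => if B v (v k) then 1 else 0)]
    have h3 : ∀ v : Fin K → Ω, ∑ a, Pool.Agent.H49.Ent.cond p Z (Z ω) a *
        (if B (Function.update v k a) (Function.update v k a k) then 1 else 0) =
        Pe (Pool.Agent.H49.Ent.cond p Z (Z ω)) (B v) := by
      intro v
      rw [Pe_eq]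
      refine Finset.sum_congr rfl fun a _ => ?_
      rw [Function.update_self]
      by_cases h4 : B v a
      · rw [if_pos ((hB v a a).2 h4), if_pos h4, mul_one]
      · rw [if_neg (fun h5 => h4 ((hB v a a).1 h5)), if_neg h4, mul_zero]
    simp only [h3]
    have h4 : ∑ v : Fin K → Ω, ∏ i, Pool.Agent.H49.Ent.cond p Z (Z ω) (v i) = 1 := by
      rw [sum_pi (fun _ => Pool.Agent.H49.Ent.cond p Z (Z ω))]
      exact Finset.prod_eq_one fun i _ => sum_cond_pos hp h0
    have h5 : ∀ v : Fin K → Ω, 0 ≤ ∏ i, Pool.Agent.H49.Ent.cond p Z (Z ω) (v i) := fun v =>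
      Finset.prod_nonneg fun i _ => cond_nonneg hp.nonneg _ _ _
    by_cases h6 : ω ∈ G
    · rw [if_pos h6]
      have h7 : ∑ v : Fin K → Ω, (∏ i, Pool.Agent.H49.Ent.cond p Z (Z ω) (v i)) *
          Pe (Pool.Agent.H49.Ent.cond p Z (Z ω)) (B v) ≤ 1 := by
        rw [← h4]
        refine Finset.sum_le_sum fun v _ => ?_
        have h8 : Pe (Pool.Agent.H49.Ent.cond p Z (Z ω)) (B v) ≤ 1 := by
          rw [Pe_eq, ← sum_cond_pos (Z := Z) hp h0]
          refine Finset.sum_le_sum fun a _ => ?_
          split_ifs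
          · exact le_rfl
          · exact cond_nonneg hp.nonneg _ _ _
        exact mul_le_of_le_one_right (h5 v) h8
      have h8 := mul_le_mul_of_nonneg_left h7 h0.le
      have h9 : 0 ≤ ε * p ω := mul_nonneg hε h0.le
      linarith
    · rw [if_neg h6, add_zero]
      have h7 : ∑ v : Fin K → Ω, (∏ i, Pool.Agent.H49.Ent.cond p Z (Z ω) (v i)) *
          Pe (Pool.Agent.H49.Ent.cond p Z (Z ω)) (B v) ≤ ε := by
        calc _ ≤ ∑ v : Fin K → Ω, (∏ i, Pool.Agent.H49.Ent.cond p Z (Z ω) (v i)) * ε :=
              Finset.sum_le_sum fun v _ => mul_le_mul_of_nonneg_left (h ω h0 h6 v) (h5 v)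
          _ = ε := by rw [← Finset.sum_mul, h4, one_mul]
      have h8 := mul_le_mul_of_nonneg_left h7 h0.le
      linarith
  refine (Finset.sum_le_sum fun ω _ => h1 ω).trans (le_of_eq ?_)
  rw [Finset.sum_add_distrib, ← Finset.mul_sum, hp.sum_one, mul_one]

end glue

end Pool.PLV
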