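import Pool.Agent.H46.S6.PlvF
import Pool.Agent.H21.UE.Dg

/-!
# Theorem PLV on an event of the glued law (GLW)

`glw`: no hypothesis on the frames; instead an event `E` of the sample and the references, of
probability at least `p₁`, on which the frames of the references are not in one hyperplane. Under
the conditional law given `E` the block of the position is full given the visible data.
-/

set_option autoImplicit false

namespace Pool.PLV

open Finset Real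
open Pool.Agent.H49.Ent Pool.Agent.H32.Dense Pool.STK Pool.KA Pool.PRM Pool.KVA Pool.M5 Pool.K2S

/-- The hypotheses of theorem PLV without the hypothesis on the frames. -/
structure PVHyp0 {Ω β γ Λ Θ ρ υ : Type} [Fintype Ω] (c : ℕ) (p : Ω → ℝ) (vis : Ω → β)
    (lam : Ω → γ) (L : Ω → Λ) (T : Ω → Θ) (R : Ω → ρ) (Y : Ω → υ) (om : Ω → ℝ)
    (be : Ω → Fin c → ℝ) (th : Ω → ℝ) (y : Ω → ℝ) (z : Ω → Fin c → ℝ)
    (X : ℕ) (η ϖ ι ca : ℝ) : Prop where
  h1 : Pool.KVA.MI p T (fun ω => (L ω, R ω)) (fun ω => (vis ω, lam ω)) ≤ ι * X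
  h1' : (1 - ι) * X * Real.log 2 ≤ CH p (Uni.dg X th) (fun ω => (L ω, (R ω, (vis ω, lam ω))))
  h2 : Pool.KVA.MI p (blk X y z) (fun ω => ((Uni.dg X om ω, dgv X be ω), R ω))
    (fun ω => ((vis ω, lam ω), T ω)) ≤ ι * X
  h4 : ∀ r X' : ℕ, η * X ≤ X' → r + X' ≤ X → ∀ A : Ω → Prop, ϖ ≤ Pe p A →
    ca * X' * Real.log 2 ≤ CH (Pool.Agent.H49.Ent.cond p A True) (Uni.dg (r + X') om)
      (fun ω => (Uni.dg r om ω, (Y ω, (R ω, (vis ω, lam ω)))))
  h7 : Pool.KVA.MI p (blk X y z) lam (fun ω => (vis ω, T ω)) ≤ ι * X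

/-- The visible data of the sample and all the references. -/
def Cw {Ω β γ Θ ρ : Type} (vis : Ω → β) (lam : Ω → γ) (T : Ω → Θ) (R : Ω → ρ) (K : ℕ)
    (w : Ω × (Fin K → Ω)) : (β × Θ) × (Fin K → γ × ρ) :=
  ((vis w.1, T w.1), fun k => (lam (w.2 k), R (w.2 k)))

/-- The frames of the references are not in one hyperplane, up to `δ`. -/
def Ndg {Ω : Type} {c : ℕ} (S : Ω → Fin c → ℝ) (δ : ℝ) (w : Ω × (Fin (c + 1) → Ω)) : Prop :=
  ∀ j, δ ≤ |NF (fun k => ev S (w.2 k)) j 0 +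
    ∑ i : Fin c, NF (fun k => ev S (w.2 k)) j i.succ * S (w.2 j) i|

section

variable {Ω β γ Λ Θ ρ υ : Type} [Fintype Ω] {c : ℕ} {K : ℝ} {p : Ω → ℝ} {vis : Ω → β}
    {lam : Ω → γ} {L : Ω → Λ} {T : Ω → Θ} {R : Ω → ρ} {Y : Ω → υ} {y0 om : Ω → ℝ}
    {z0 be : Ω → Fin c → ℝ} {th th' : Ω → ℝ} {S : Ω → Fin c → ℝ} {y : Ω → ℝ}
    {z : Ω → Fin c → ℝ} {X : ℕ}

/-- Information of one reference on the block. -/
theorem mi_ref (hd : PVData c K p vis lam L T R Y y0 om z0 be th th' S y z X) {η ϖ ι ca : ℝ}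
    (hp : PVHyp0 c p vis lam L T R Y om be th y z X η ϖ ι ca) :
    MI p (blk X y z) (fun ω => (lam ω, R ω)) (fun ω => (vis ω, T ω)) ≤ 2 * (ι * X) := by
  classical
  have hp0 := hd.law.nonneg
  obtain ⟨v, hv⟩ : ∃ v : Ω → β × Θ, v = fun ω => (vis ω, T ω) := ⟨_, rfl⟩
  obtain ⟨x, hx'⟩ : ∃ x : Ω → ℤ × (Fin c → ℤ), x = blk X y z := ⟨_, rfl⟩
  obtain ⟨r, hr⟩ : ∃ r : Ω → γ × ρ, r = fun ω => (lam ω, R ω) := ⟨_, rfl⟩
  -- information of one reference
  have hMI : MI p x r v ≤ 2 * (ι * X) := by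
    have e1 := MI_chain_right hp0 x lam R v
    have e2 : MI p x lam v ≤ ι * X := by
      rw [hx', hv]
      exact hp.h7
    have e3 : MI p x R (fun ω => (lam ω, v ω)) ≤ ι * X := by
      have f1 := hp.h2
      rw [← hx'] at f1
      have f2 := MI_chain_right hp0 x R (fun ω => (Uni.dg X om ω, dgv X be ω))
        (fun ω => ((vis ω, lam ω), T ω))
      have f3 := MI_nonneg hp0 x (fun ω => (Uni.dg X om ω, dgv X be ω))
        (fun ω => (R ω, ((vis ω, lam ω), T ω)))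
      have f4 : MI p x (fun ω => (R ω, (Uni.dg X om ω, dgv X be ω)))
          (fun ω => ((vis ω, lam ω), T ω)) =
          MI p x (fun ω => ((Uni.dg X om ω, dgv X be ω), R ω))
          (fun ω => ((vis ω, lam ω), T ω)) := by
        refine MI_congr hp0 _ ?_ ?_ (fun _ _ _ _ h => h) (fun _ _ _ _ h => h) <;>
        · intro ω ω' _ _ h
          simp only [Prod.mk.injEq] at h ⊢
          tauto
      have f5 : MI p x R (fun ω => (lam ω, v ω)) = MI p x R (fun ω => ((vis ω, lam ω), T ω)) := by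
        rw [hv]
        refine MI_congr hp0 _ (fun _ _ _ _ h => (Prod.ext_iff.mp h).1)
          (fun _ _ _ _ h => (Prod.ext_iff.mp h).1) ?_ ?_ <;>
        · intro ω ω' _ _ h
          simp only [Prod.mk.injEq] at h ⊢
          tauto
      linarith
    rw [hr]
    linarith
  rw [hx', hv, hr] at hMI
  exact hMI

/-- Fullness along the frame of a reference, given all references. -/
theorem full_ref (hd : PVData c K p vis lam L T R Y y0 om z0 be th th' S y z X) {m a : ℝ}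
    (hMI : MI p (blk X y z) (fun ω => (lam ω, R ω)) (fun ω => (vis ω, T ω)) ≤ m)
    (ha : a ≤ CH p (Uni.dg X y) (fun ω => (prj X y z S ω, ((vis ω, T ω), (lam ω, R ω)))))
    (j : Fin (c + 1)) :
    a - c * m ≤ CH (itr p (fun ω => ((vis ω, T ω), blk X y z ω)) (c + 1))
      (fun w => Uni.dg X y w.1)
      (fun w => (prz (fun w => S (w.2 j)) (fun w => Uni.dg X y w.1)
        (fun w => dgv X z w.1) w, Cw vis lam T R (c + 1) w)) := by
  classical
  have hp0 := hd.law.nonneg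
  obtain ⟨v, hv⟩ : ∃ v : Ω → β × Θ, v = fun ω => (vis ω, T ω) := ⟨_, rfl⟩
  obtain ⟨x, hx'⟩ : ∃ x : Ω → ℤ × (Fin c → ℤ), x = blk X y z := ⟨_, rfl⟩
  obtain ⟨r, hr⟩ : ∃ r : Ω → γ × ρ, r = fun ω => (lam ω, R ω) := ⟨_, rfl⟩
  obtain ⟨Q, hQ⟩ : ∃ Q, Q = itr p (fun ω => (v ω, x ω)) (c + 1) := ⟨_, rfl⟩
  have hQ' : itr p (fun ω => ((vis ω, T ω), blk X y z ω)) (c + 1) = Q := by
    rw [hQ, hv, hx']
  rw [hQ']
  have hlaw : IsLaw Q := hQ ▸ itr_law hd.law
  have h0 := hlaw.nonneg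
  have hsup : ∀ w, 0 < Q w → ∀ j, v (w.2 j) = v w.1 ∧ x (w.2 j) = x w.1 := by
    intro w hw j
    rw [hQ] at hw
    have h := ((itr_pos hd.law hw).2 j).2
    exact ⟨(Prod.ext_iff.mp h).1, (Prod.ext_iff.mp h).2⟩
  have hpos : ∀ w, 0 < Q w → 0 < p w.1 ∧ ∀ j, 0 < p (w.2 j) := by
    intro w hw
    rw [hQ] at hw
    have h := itr_pos hd.law hw
    exact ⟨h.1, fun j => (h.2 j).1⟩
  obtain ⟨C, hC⟩ : ∃ C : Ω × (Fin (c + 1) → Ω) → (β × Θ) × (Fin (c + 1) → γ × ρ),
    C = fun w => (v w.1, fun k => r (w.2 k)) := ⟨_, rfl⟩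
  have hC' : Cw vis lam T R (c + 1) = C := by
    rw [hC, hv, hr]
    rfl
  rw [hC']
  rw [← hx', ← hr, ← hv] at hMI
  obtain ⟨yd, hyd⟩ : ∃ yd : Ω × (Fin (c + 1) → Ω) → ℤ, yd = fun w => Uni.dg X y w.1 :=
    ⟨_, rfl⟩
  obtain ⟨pj, hpj⟩ : ∃ pj, pj = prz (fun w : Ω × (Fin (c + 1) → Ω) => S (w.2 j))
    (fun w => Uni.dg X y w.1) (fun w => dgv X z w.1) := ⟨_, rfl⟩
  obtain ⟨W, hW⟩ : ∃ W : Ω × (Fin (c + 1) → Ω) → (γ × ρ) × (β × Θ),
    W = fun w => (r (w.2 j), v w.1) := ⟨_, rfl⟩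
  rw [← hpj, ← hyd]
  have s1 : CH Q yd (fun w => (pj w, C w)) =
      CH Q yd (fun w => (oth r j w, (pj w, W w))) := by
    refine CH_congr h0 (fun _ _ _ _ h => (Prod.ext_iff.mp h).1)
      (fun _ _ _ _ h => (Prod.ext_iff.mp h).1) ?_ ?_
    · intro w w' _ _ h
      rw [hC] at h
      rw [hW]
      simp only [Prod.mk.injEq] at h ⊢
      obtain ⟨h1, h2, h3⟩ := h
      refine ⟨funext fun i => ?_, h1, congrFun h3 j, h2⟩
      unfold oth
      have h4 : r (w.2 i) = r (w'.2 i) := congrFun h3 i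
      rw [h4]
    · intro w w' _ _ h
      rw [hW] at h
      rw [hC]
      simp only [Prod.mk.injEq] at h ⊢
      obtain ⟨h1, h2, h3, h4⟩ := h
      refine ⟨h2, h4, funext fun i => ?_⟩
      by_cases h5 : i = j
      · rw [h5]
        exact h3
      · have h6 := congrFun h1 i
        unfold oth at h6
        rw [if_neg h5, if_neg h5] at h6
        exact Option.some.inj h6
  have s2 := MI_eq h0 yd (oth r j) (fun w => (pj w, W w))
  have s3 := MI_chain_left h0 pj yd (oth r j) W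
  have s4 := MI_nonneg h0 pj (oth r j) W
  have s5 : MI Q (fun w => (pj w, yd w)) (oth r j) W ≤ MI Q (fun w => x w.1) (oth r j) W := by
    refine MI_mono_left h0 _ ?_
    intro w w' a b h
    have h1 : x w.1 = x w'.1 := (Prod.ext_iff.mp h).1
    have h2 : W w = W w' := (Prod.ext_iff.mp h).2
    rw [hx'] at h1
    have h3 : Uni.dg X y w.1 = Uni.dg X y w'.1 := (Prod.ext_iff.mp h1).1
    have h4 : dgv X z w.1 = dgv X z w'.1 := (Prod.ext_iff.mp h1).2
    rw [hW] at h2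
    have h5 : r (w.2 j) = r (w'.2 j) := (Prod.ext_iff.mp h2).1
    have h6 : v w.1 = v w'.1 := (Prod.ext_iff.mp h2).2
    have h7 : v (w.2 j) = v (w'.2 j) := by
      rw [(hsup w a j).1, (hsup w' b j).1, h6]
    have h8 : S (w.2 j) = S (w'.2 j) := by
      rw [hv] at h7
      rw [hr] at h5
      simp only [Prod.mk.injEq] at h5 h7
      exact hd.dS _ _ ((hpos w a).2 j) ((hpos w' b).2 j) (by simp only [h5.1, h5.2, h7.1])
    rw [hpj, hyd]
    refine Prod.ext ?_ h3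
    funext i
    show ⌊((dgv X z w.1 i : ℤ) : ℝ) - S (w.2 j) i * (Uni.dg X y w.1 : ℝ)⌋ =
      ⌊((dgv X z w'.1 i : ℤ) : ℝ) - S (w'.2 j) i * (Uni.dg X y w'.1 : ℝ)⌋
    rw [h3, h4, h8]
  have s6 := MI_chain_left h0 (fun w => r (w.2 j)) (fun w => x w.1) (oth r j)
    (fun w : Ω × (Fin (c + 1) → Ω) => v w.1)
  have s7 := MI_nonneg h0 (fun w => r (w.2 j)) (oth r j)
    (fun w : Ω × (Fin (c + 1) → Ω) => v w.1)
  have s8 : MI Q (fun w => x w.1) (oth r j) (fun w => (r (w.2 j), v w.1)) =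
      MI Q (fun w => x w.1) (oth r j) W := by rw [hW]
  have s9 : MI Q (fun w => (r (w.2 j), x w.1)) (oth r j) (fun w => v w.1) ≤
      MI Q (fun w => (x w.1, r (w.2 j))) (oth r j) (fun w => v w.1) := by
    refine MI_mono_left h0 _ ?_
    intro w w' _ _ h
    simp only [Prod.mk.injEq] at h ⊢
    tauto
  have s10 := MI_oth hd.law v x r j
  rw [← hQ] at s10
  have s11 : (((c + 1 : ℕ) : ℝ) - 1) * MI p x r v ≤ c * m := by
    push_cast
    have : ((c : ℝ) + 1 - 1) = c := by ring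
    rw [this]
    exact mul_le_mul_of_nonneg_left hMI (Nat.cast_nonneg c)
  have s12 : CH Q yd (fun w => (pj w, W w)) =
      CH p (Uni.dg X y) (fun ω => (prj X y z S ω, ((vis ω, T ω), (lam ω, R ω)))) := by
    have t1 := CH_snd (Z := fun ω => (v ω, x ω)) hd.law j (Uni.dg X y)
      (fun ω => (prj X y z S ω, ((vis ω, T ω), (lam ω, R ω))))
    rw [← hQ] at t1
    rw [← t1]
    have t2 : ∀ w, 0 < Q w → Uni.dg X y (w.2 j) = Uni.dg X y w.1 ∧
        dgv X z (w.2 j) = dgv X z w.1 := by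
      intro w hw
      have h := (hsup w hw j).2
      rw [hx'] at h
      exact ⟨(Prod.ext_iff.mp h).1, (Prod.ext_iff.mp h).2⟩
    have t3 : ∀ w, 0 < Q w → pj w = prj X y z S (w.2 j) := by
      intro w hw
      rw [hpj]
      unfold prz prj
      rw [(t2 w hw).1, (t2 w hw).2]
    refine CH_congr h0 ?_ ?_ ?_ ?_
    · intro w w' a b h
      have h1 : yd w = yd w' := (Prod.ext_iff.mp h).1
      show Uni.dg X y (w.2 j) = Uni.dg X y (w'.2 j)
      rw [(t2 w a).1, (t2 w' b).1]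
      rw [hyd] at h1
      exact h1
    · intro w w' a b h
      have h1 : Uni.dg X y (w.2 j) = Uni.dg X y (w'.2 j) := (Prod.ext_iff.mp h).1
      rw [(t2 w a).1, (t2 w' b).1] at h1
      rw [hyd]
      exact h1
    · intro w w' a b h
      have h1 : pj w = pj w' := (Prod.ext_iff.mp h).1
      have h2 : W w = W w' := (Prod.ext_iff.mp h).2
      rw [hW, hr] at h2
      rw [t3 w a, t3 w' b] at h1
      have h3 : v (w.2 j) = v (w'.2 j) := by
        rw [(hsup w a j).1, (hsup w' b j).1]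
        exact (Prod.ext_iff.mp h2).2
      rw [hv] at h3
      simp only [Prod.mk.injEq] at h2 h3 ⊢
      tauto
    · intro w w' a b h
      simp only [Prod.mk.injEq] at h
      obtain ⟨h1, ⟨h2, h3⟩, h4, h5⟩ := h
      rw [← t3 w a, ← t3 w' b] at h1
      refine Prod.ext h1 ?_
      rw [hW, hr]
      have h6 : v (w.2 j) = v (w'.2 j) := by
        rw [hv]
        simp only [h2, h3]
      rw [(hsup w a j).1, (hsup w' b j).1] at h6
      simp only [Prod.mk.injEq]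
      exact ⟨⟨h4, h5⟩, h6⟩
  linarith

/-- **The estimate on an event of the glued law.** -/
theorem glw_aux (hK : 0 ≤ K) {η ϖ ι ca a x₀ p₁ : ℝ}
    (hd : PVData c K p vis lam L T R Y y0 om z0 be th th' S y z X)
    (hp : PVHyp0 c p vis lam L T R Y om be th y z X η ϖ ι ca) (hx : 0 ≤ x₀) (hp₁ : 0 < p₁)
    (ha : a ≤ CH p (Uni.dg X y) (fun ω => (prj X y z S ω, ((vis ω, T ω), (lam ω, R ω)))))
    (E : Ω × (Fin (c + 1) → Ω) → Prop)
    (hE : p₁ ≤ Pe (itr p (fun ω => ((vis ω, T ω), blk X y z ω)) (c + 1)) E)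
    (hN : ∀ w, 0 < itr p (fun ω => ((vis ω, T ω), blk X y z ω)) (c + 1) w → E w →
      Ndg S ((2 : ℝ) ^ (-(x₀ * X))) w) :
    (c + 1) * ((X * Real.log 2 + Real.log (2 * (K + 1) + 1)) -
      ((X * Real.log 2 + Real.log (2 * (K + 1) + 1)) - (a - c * (2 * (ι * X))) + Real.log 2) / p₁ -
      (c + 1) * Real.log (4 * (c + 2) + 1) - x₀ * X * Real.log 2 - Real.log (2 * c + 3)) ≤
      CH (Pool.Agent.H49.Ent.cond (itr p (fun ω => ((vis ω, T ω), blk X y z ω)) (c + 1)) E True)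
        (fun w => blk X y z w.1) (fun w => (vis w.1, T w.1)) := by
  classical
  obtain ⟨Q, hQ⟩ : ∃ Q, Q = itr p (fun ω => ((vis ω, T ω), blk X y z ω)) (c + 1) := ⟨_, rfl⟩
  rw [← hQ] at hE hN ⊢
  have hlaw : IsLaw Q := hQ ▸ itr_law hd.law
  have hE0 : 0 < Pe Q E := hp₁.trans_le hE
  obtain ⟨q, hq⟩ : ∃ q, q = Pool.Agent.H49.Ent.cond Q E True := ⟨_, rfl⟩
  rw [← hq]
  have hql : IsLaw q := hq ▸ isLaw_cond hlaw hE0
  have h0 := hql.nonneg
  have hqQ : ∀ w, 0 < q w → 0 < Q w ∧ E w := by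
    intro w hw
    rw [hq] at hw
    have h := (cond_pos_iff hlaw.nonneg E True w).1 hw
    exact ⟨h.1, by rw [h.2]; trivial⟩
  have hsup : ∀ w, 0 < Q w → ∀ j, vis (w.2 j) = vis w.1 := by
    intro w hw j
    rw [hQ] at hw
    have h := ((itr_pos hd.law hw).2 j).2
    simp only [Prod.mk.injEq] at h
    exact h.1.1
  have hpos : ∀ w, 0 < Q w → 0 < p w.1 ∧ ∀ j, 0 < p (w.2 j) := by
    intro w hw
    rw [hQ] at hw
    have h := itr_pos hd.law hw
    exact ⟨h.1, fun j => (h.2 j).1⟩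
  have hS : ∀ k, Det q (Cw vis lam T R (c + 1)) (fun w => S (w.2 k)) := by
    intro k w w' a b e
    have a' := (hqQ w a).1
    have b' := (hqQ w' b).1
    unfold Cw at e
    simp only [Prod.mk.injEq] at e
    have e2 := congrFun e.2 k
    simp only [Prod.mk.injEq] at e2
    exact hd.dS _ _ ((hpos w a').2 k) ((hpos w' b').2 k) (by
      simp only [hsup w a' k, hsup w' b' k, e.1.1, e2.1, e2.2])
  obtain ⟨N, hNe⟩ : ∃ N : Fin (c + 1) → Ω × (Fin (c + 1) → Ω) → Fin (c + 1) → ℝ,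
    N = fun j w => NF (fun k => ev S (w.2 k)) j := ⟨_, rfl⟩
  have hNd : ∀ k, Det q (Cw vis lam T R (c + 1)) (N k) := by
    intro k w w' a b e
    rw [hNe]
    dsimp only
    congr 1
    funext j
    have := hS j w w' a b e
    dsimp only at this
    unfold ev
    rw [this]
  have hN1 : ∀ j w, 0 < q w → ∀ i, |N j w i| ≤ 1 := by
    intro j w _ i
    rw [hNe]
    exact NF_le _ j i
  have hN0 : ∀ j k, k < j → ∀ w, 0 < q w → N j w 0 + ∑ i, N j w i.succ * S (w.2 k) i = 0 := by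
    intro j k hjk w _
    rw [hNe]
    dsimp only
    rw [← sum_ev]
    exact NF_zero (fun k => ev S (w.2 k)) j k hjk
  have hyQ : ∀ w : Ω × (Fin (c + 1) → Ω), 0 < Q w →
      |((Uni.dg X y w.1 : ℤ) : ℝ)| ≤ (K + 1) * 2 ^ X := by
    intro w hw
    have e1 := hd.hyb w.1 (hpos w hw).1
    have e2 : |(Uni.dg X y w.1 : ℝ) - 2 ^ X * y w.1| ≤ 1 := floor_abs _
    have e3 : |(2 : ℝ) ^ X * y w.1| ≤ 2 ^ X * K := by
      rw [abs_mul, abs_of_pos (by positivity : (0 : ℝ) < 2 ^ X)]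
      exact mul_le_mul_of_nonneg_left e1 (by positivity)
    have e4 : (1 : ℝ) ≤ 2 ^ X := one_le_pow₀ (by norm_num)
    rw [abs_le] at e2 e3 ⊢
    constructor <;> nlinarith
  obtain ⟨D, hD⟩ : ∃ D : ℝ, D = (2 : ℝ) ^ (x₀ * X) := ⟨_, rfl⟩
  have hD1 : 1 ≤ D := by
    rw [hD]
    exact Real.one_le_rpow (by norm_num) (mul_nonneg hx (Nat.cast_nonneg X))
  have hDl : Real.log D = x₀ * X * Real.log 2 := by
    rw [hD, Real.log_rpow (by norm_num)]
  have hDi : D⁻¹ = (2 : ℝ) ^ (-(x₀ * X)) := by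
    rw [hD, Real.rpow_neg (by norm_num)]
  have hb : ∀ j, Pe q (fun w => |N j w 0 + ∑ i, N j w i.succ * S (w.2 j) i| < D⁻¹) ≤ 0 := by
    intro j
    rw [Pe_eq]
    refine le_of_eq (Finset.sum_eq_zero fun w _ => ?_)
    split_ifs with h
    · by_contra h1
      have h2 : 0 < q w := lt_of_le_of_ne (h0 w) (Ne.symm h1)
      obtain ⟨h3, h4⟩ := hqQ w h2
      have h5 := hN w h3 h4 j
      rw [hDi, hNe] at h
      exact absurd h (not_lt.2 h5)
    · rfl
  -- fullness on the event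
  obtain ⟨M, hM⟩ : ∃ M : ℝ, M = X * Real.log 2 + Real.log (2 * (K + 1) + 1) := ⟨_, rfl⟩
  have hfull : ∀ j, M - (M - (a - c * (2 * (ι * X))) + Real.log 2) / p₁ ≤
      CH q (fun w => Uni.dg X y w.1)
      (fun w => (prz (fun w => S (w.2 j)) (fun w => Uni.dg X y w.1)
        (fun w => dgv X z w.1) w, Cw vis lam T R (c + 1) w)) := by
    intro j
    obtain ⟨W, hW⟩ : ∃ W, W = fun w : Ω × (Fin (c + 1) → Ω) =>
      (prz (fun w : Ω × (Fin (c + 1) → Ω) => S (w.2 j)) (fun w => Uni.dg X y w.1)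
        (fun w => dgv X z w.1) w, Cw vis lam T R (c + 1) w) := ⟨_, rfl⟩
    have f1 := full_ref hd (mi_ref hd hp) ha j
    rw [← hQ, ← hW] at f1
    rw [← hW]
    have hup : ∀ q' : Ω × (Fin (c + 1) → Ω) → ℝ, IsLaw q' → (∀ ω, 0 < q' ω → 0 < Q ω) →
        CH q' (fun w => Uni.dg X y w.1) W ≤ M := by
      intro q' hq' hpq
      have f3 := Sel.CH_near hq' (fun w => Uni.dg X y w.1) W (fun _ => 0)
        (fun _ _ _ _ _ => rfl) (K := (K + 1) * 2 ^ X) (by positivity) (fun w hw => by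
          rw [sub_zero]
          exact hyQ w (hpq w hw))
      refine f3.trans ?_
      rw [hM, ← Real.log_pow, ← Real.log_mul (by positivity) (by positivity)]
      refine Real.log_le_log (by positivity) ?_
      have : (1 : ℝ) ≤ 2 ^ X := one_le_pow₀ (by norm_num)
      nlinarith
    have f2 := Pool.UE.def_event hlaw E (fun w => Uni.dg X y w.1) W hup
    rw [← hq] at f2
    have f4 : CH q (fun w => Uni.dg X y w.1) W ≤ M := hup q hql fun w hw => (hqQ w hw).1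
    have f5 : p₁ * (M - CH q (fun w => Uni.dg X y w.1) W) ≤
        M - (a - c * (2 * (ι * X))) + Real.log 2 := by
      have f6 := mul_le_mul_of_nonneg_right hE (by linarith :
        0 ≤ M - CH q (fun w => Uni.dg X y w.1) W)
      linarith
    have f7 : M - CH q (fun w => Uni.dg X y w.1) W ≤
        (M - (a - c * (2 * (ι * X))) + Real.log 2) / p₁ := by
      rw [le_div_iff₀ hp₁]
      linarith
    linarith
  have h := sum_full hql (Cw vis lam T R (c + 1)) (fun w => Uni.dg X y w.1)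
    (fun w => dgv X z w.1) (fun k w => S (w.2 k)) N hS hNd hN1 hN0
    (by linarith : (0 : ℝ) ≤ K + 1) (fun w hw => hyQ w (hqQ w hw).1) hD1 hb hfull
  rw [hDl, zero_mul, sub_zero, hM] at h
  refine h.trans ?_
  refine CH_mono_cond h0 ?_
  intro w w' _ _ h
  exact (Prod.ext_iff.mp h).1

end

end Pool.PLV
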