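import Pool.Agent.H46.S6.Pvg
import Pool.Agent.H46.S6.PlvF
import Pool.Agent.H73.KAF.RST

/-!
# Theorems PLV and GLW: context, visible data, determinants

The context `b` is conserved; the visible data `vis` are a function of the context and the time.
`pvb_aux` is theorem PLV in this form. `gdt_aux` is the form for an event `E` of probability at
least `p₁` of the glued law, on which the determinant of the frames of the references is large.
-/

set_option autoImplicit false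

namespace Pool.PLV

open Finset Real
open Pool.Agent.H49.Ent Pool.Agent.H32.Dense Pool.STK Pool.KA Pool.PRM Pool.KVA Pool.M5 Pool.K2S

/-- The data: context `b`, visible data `vis`. -/
structure PVDb {Ω β ν Λ Θ ρ υ : Type} [Fintype Ω] (c : ℕ) (K : ℝ) (p : Ω → ℝ) (b : Ω → β)
    (vis : Ω → ν) (L : Ω → Λ) (T : Ω → Θ) (R : Ω → ρ) (Y : Ω → υ) (y0 om : Ω → ℝ)
    (z0 be : Ω → Fin c → ℝ) (th th' : Ω → ℝ) (S : Ω → Fin c → ℝ) (y : Ω → ℝ) (z : Ω → Fin c → ℝ)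
    (X : ℕ) : Prop where
  law : IsLaw p
  dv : Det p (fun ω => (b ω, T ω)) vis
  dy0 : Det p (fun ω => (b ω, L ω)) y0
  dom : Det p (fun ω => (b ω, L ω)) om
  dz0 : Det p (fun ω => (b ω, L ω)) z0
  dbe : Det p (fun ω => (b ω, L ω)) be
  dth : Det p (fun ω => (b ω, T ω)) th
  dth' : Det p (fun ω => (b ω, R ω)) th'
  dS : Det p (fun ω => (b ω, R ω)) S
  hom : ∀ ω, 0 < p ω → 0 ≤ om ω ∧ om ω < 1
  hth : ∀ ω, 0 < p ω → 0 ≤ th ω ∧ th ω < 1
  hth' : ∀ ω, 0 < p ω → |th' ω| ≤ 1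
  hS : ∀ ω, 0 < p ω → ∀ i, |S ω i| ≤ K
  hyb : ∀ ω, 0 < p ω → |y ω| ≤ K
  hy : ∃ k : Ω → ℝ, Det p (fun ω => (b ω, T ω)) k ∧
    ∀ ω, 0 < p ω → y ω = y0 ω + th ω * om ω + k ω
  hz : ∃ k : Ω → Fin c → ℝ, Det p (fun ω => (b ω, T ω)) k ∧
    ∀ ω, 0 < p ω → ∀ i, z ω i = z0 ω i + th ω * be ω i + k ω i
  hY : ∃ (u : Ω → ℝ) (v W : Ω → Fin c → ℝ),
    Det p (fun ω => (Y ω, (R ω, b ω))) (fun ω => (u ω, (v ω, W ω))) ∧
    ∀ ω, 0 < p ω → |y0 ω + th' ω * om ω - u ω| * 2 ^ X ≤ K ∧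
      (∀ i, |z0 ω i + th' ω * be ω i - v ω i| * 2 ^ X ≤ K) ∧
      ∀ i, |be ω i - S ω i * om ω - W ω i| * 2 ^ X ≤ K

/-- The hypotheses on the entropies. -/
structure PVHb {Ω β ν Λ Θ ρ υ : Type} [Fintype Ω] (c : ℕ) (p : Ω → ℝ) (b : Ω → β)
    (vis : Ω → ν) (L : Ω → Λ) (T : Ω → Θ) (R : Ω → ρ) (Y : Ω → υ) (om : Ω → ℝ)
    (be : Ω → Fin c → ℝ) (th : Ω → ℝ) (y : Ω → ℝ) (z : Ω → Fin c → ℝ)
    (X : ℕ) (η ϖ ι ca : ℝ) : Prop where
  h1 : Pool.KVA.MI p T (fun ω => (L ω, R ω)) b ≤ ι * X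
  h1' : (1 - ι) * X * Real.log 2 ≤ CH p (Uni.dg X th) (fun ω => (L ω, (R ω, b ω)))
  h2 : Pool.KVA.MI p (blk X y z) (fun ω => ((Uni.dg X om ω, dgv X be ω), R ω))
    (fun ω => (b ω, T ω)) ≤ ι * X
  h4 : ∀ r X' : ℕ, η * X ≤ X' → r + X' ≤ X → ∀ A : Ω → Prop, ϖ ≤ Pe p A →
    ca * X' * Real.log 2 ≤ CH (Pool.Agent.H49.Ent.cond p A True) (Uni.dg (r + X') om)
      (fun ω => (Uni.dg r om ω, (Y ω, (R ω, b ω))))
  h7 : Pool.KVA.MI p (blk X y z) b (fun ω => (vis ω, T ω)) ≤ ι * X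

section

variable {Ω β ν Λ Θ ρ υ : Type} [Fintype Ω] {c : ℕ} {K : ℝ} {p : Ω → ℝ} {b : Ω → β}
    {vis : Ω → ν} {L : Ω → Λ} {T : Ω → Θ} {R : Ω → ρ} {Y : Ω → υ} {y0 om : Ω → ℝ}
    {z0 be : Ω → Fin c → ℝ} {th th' : Ω → ℝ} {S : Ω → Fin c → ℝ} {y : Ω → ℝ}
    {z : Ω → Fin c → ℝ} {X : ℕ}

theorem unit_det {Ω' α τ : Type} [Fintype Ω'] {q : Ω' → ℝ} {f : Ω' → α} {g : Ω' → τ} {β' : Type}
    {b' : Ω' → β'} (h : Det q (fun ω => (b' ω, f ω)) g) :
    Det q (fun ω => ((b' ω, ()), f ω)) g := by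
  intro ω ω' a b e
  refine h ω ω' a b ?_
  simp only [Prod.mk.injEq] at e ⊢
  tauto

/-- The data as data with trivial second context. -/
theorem PVDb.toPV (hd : PVDb c K p b vis L T R Y y0 om z0 be th th' S y z X) :
    PVData c K p b (fun _ => ()) L T R Y y0 om z0 be th th' S y z X := by
  obtain ⟨k, hk, ek⟩ := hd.hy
  obtain ⟨k', hk', ek'⟩ := hd.hz
  obtain ⟨u, v, W, hu, eu⟩ := hd.hY
  refine ⟨hd.law, unit_det hd.dy0, unit_det hd.dom, unit_det hd.dz0, unit_det hd.dbe,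
    unit_det hd.dth, unit_det hd.dth', unit_det hd.dS, hd.hom, hd.hth, hd.hth', hd.hS, hd.hyb,
    ⟨k, unit_det hk, ek⟩, ⟨k', unit_det hk', ek'⟩, u, v, W, ?_, eu⟩
  intro ω ω' a b e
  refine hu ω ω' a b ?_
  simp only [Prod.mk.injEq] at e ⊢
  tauto

theorem PVHb.toPV (hd : PVDb c K p b vis L T R Y y0 om z0 be th th' S y z X) {η ϖ ι ca : ℝ}
    (hι : 0 ≤ ι) (hp : PVHb c p b vis L T R Y om be th y z X η ϖ ι ca) :
    PVHyp c p b (fun _ => ()) L T R Y om be th S y z X 0 η ϖ ι 1 ca := by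
  classical
  have hp0 := hd.law.nonneg
  refine ⟨?_, ?_, ?_, ?_, ?_, ?_⟩
  · refine le_of_eq_of_le ?_ hp.h1
    refine MI_congr hp0 _ (fun _ _ _ _ h => (Prod.ext_iff.mp h).1)
      (fun _ _ _ _ h => (Prod.ext_iff.mp h).1) ?_ ?_ <;>
    · intro ω ω' _ _ h
      simp only [Prod.mk.injEq] at h ⊢
      tauto
  · refine le_of_le_of_eq hp.h1' ?_
    refine CH_congr hp0 (fun _ _ _ _ h => (Prod.ext_iff.mp h).1)
      (fun _ _ _ _ h => (Prod.ext_iff.mp h).1) ?_ ?_ <;>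
    · intro ω ω' _ _ h
      simp only [Prod.mk.injEq] at h ⊢
      tauto
  · refine le_of_eq_of_le ?_ hp.h2
    refine MI_congr hp0 _ (fun _ _ _ _ h => (Prod.ext_iff.mp h).1)
      (fun _ _ _ _ h => (Prod.ext_iff.mp h).1) ?_ ?_ <;>
    · intro ω ω' _ _ h
      simp only [Prod.mk.injEq] at h ⊢
      tauto
  · intro r X' h1 h2 A hA
    refine le_of_le_of_eq (hp.h4 r X' h1 h2 A hA) ?_
    refine CH_congr (cond_nonneg hp0 A True) (fun _ _ _ _ h => (Prod.ext_iff.mp h).1)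
      (fun _ _ _ _ h => (Prod.ext_iff.mp h).1) ?_ ?_ <;>
    · intro ω ω' _ _ h
      simp only [Prod.mk.injEq] at h ⊢
      tauto
  · exact Pool.KAF.Pr_le_one hd.law _
  · refine le_trans (le_of_eq ?_) (mul_nonneg hι (Nat.cast_nonneg X))
    rw [MI_eq hp0, CH_congr hp0 (X := blk X y z) (X' := blk X y z)
      (fun _ _ _ _ h => (Prod.ext_iff.mp h).1) (fun _ _ _ _ h => (Prod.ext_iff.mp h).1)
      (W := fun ω => (b ω, T ω)) (W' := fun ω => ((), (b ω, T ω))) ?_ ?_,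
      sub_self]
    all_goals
      intro ω ω' _ _ h
      simp only [Prod.mk.injEq] at h ⊢
      tauto

/-- The information of the context and of the reference on the block. -/
theorem PVHb.mi (hd : PVDb c K p b vis L T R Y y0 om z0 be th th' S y z X) {η ϖ ι ca : ℝ}
    (hp : PVHb c p b vis L T R Y om be th y z X η ϖ ι ca) :
    MI p (blk X y z) (fun ω => (b ω, R ω)) (fun ω => (vis ω, T ω)) ≤ 2 * (ι * X) := by
  classical
  have hp0 := hd.law.nonneg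
  obtain ⟨x, hx'⟩ : ∃ x : Ω → ℤ × (Fin c → ℤ), x = blk X y z := ⟨_, rfl⟩
  have e1 := MI_chain_right hp0 x b R (fun ω => (vis ω, T ω))
  have e2 : MI p x b (fun ω => (vis ω, T ω)) ≤ ι * X := by
    rw [hx']
    exact hp.h7
  have e3 : MI p x R (fun ω => (b ω, (vis ω, T ω))) ≤ ι * X := by
    have f1 := hp.h2
    rw [← hx'] at f1
    have f2 := MI_chain_right hp0 x R (fun ω => (Uni.dg X om ω, dgv X be ω))
      (fun ω => (b ω, T ω))
    have f3 := MI_nonneg hp0 x (fun ω => (Uni.dg X om ω, dgv X be ω))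
      (fun ω => (R ω, (b ω, T ω)))
    have f4 : MI p x (fun ω => (R ω, (Uni.dg X om ω, dgv X be ω)))
        (fun ω => (b ω, T ω)) =
        MI p x (fun ω => ((Uni.dg X om ω, dgv X be ω), R ω))
        (fun ω => (b ω, T ω)) := by
      refine MI_congr hp0 _ ?_ ?_ (fun _ _ _ _ h => h) (fun _ _ _ _ h => h) <;>
      · intro ω ω' _ _ h
        simp only [Prod.mk.injEq] at h ⊢
        tauto
    have f5 : MI p x R (fun ω => (b ω, (vis ω, T ω))) = MI p x R (fun ω => (b ω, T ω)) := by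
      refine MI_congr hp0 _ (fun _ _ _ _ h => (Prod.ext_iff.mp h).1)
        (fun _ _ _ _ h => (Prod.ext_iff.mp h).1) ?_ ?_
      · intro ω ω' _ _ h
        simp only [Prod.mk.injEq] at h ⊢
        tauto
      · intro ω ω' a1 a2 h
        have h' : b ω = b ω' ∧ T ω = T ω' := by
          simp only [Prod.mk.injEq] at h
          tauto
        have h2 := hd.dv ω ω' a1 a2 (by simp only [h'.1, h'.2])
        simp only [Prod.mk.injEq]
        tauto
    linarith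
  rw [← hx']
  linarith

/-- The block is full along the frame of a reference. -/
theorem pvb_ref (hK : 0 ≤ K) {ε ca η ϖ ι ι' : ℝ} {n₀ : ℕ}
    (hW : WDC ε (ca / 2) η ϖ ι n₀) (hϖ : 0 < ϖ)
    (hd : PVDb c K p b vis L T R Y y0 om z0 be th th' S y z X) (hι0 : 0 ≤ ι')
    (hp : PVHb c p b vis L T R Y om be th y z X η ϖ ι' ca) (hX : n₀ ≤ X)
    (hι : ι' ≤ ι) (hι2 : ι' * X + 3 * Cst c K ≤ ι * X)
    (hη : 3 * Cst c K ≤ ca / 2 * (η * X) * Real.log 2) (hca : 0 < ca) :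
    (1 - ε) * X * Real.log 2 - Cst c K ≤
      CH p (Uni.dg X y) (fun ω => (prj X y z S ω, ((vis ω, T ω), (b ω, R ω)))) := by
  have hp0 := hd.law.nonneg
  have h1 := one_ref hK hW hϖ hd.toPV (PVHb.toPV hd hι0 hp) hX hι hι2 hη hca
  refine h1.trans (le_of_eq ?_)
  refine CH_congr hp0 (fun _ _ _ _ h => (Prod.ext_iff.mp h).1)
    (fun _ _ _ _ h => (Prod.ext_iff.mp h).1) ?_ ?_
  · intro ω ω' a1 a2 h
    have h' : prj X y z S ω = prj X y z S ω' ∧ b ω = b ω' ∧ T ω = T ω' ∧ R ω = R ω' := by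
      simp only [Prod.mk.injEq] at h
      tauto
    have h2 := hd.dv ω ω' a1 a2 (by simp only [h'.2.1, h'.2.2.1])
    simp only [Prod.mk.injEq]
    tauto
  · intro ω ω' a1 a2 h
    simp only [Prod.mk.injEq] at h ⊢
    tauto

theorem PVDb.gd (hd : PVDb c K p b vis L T R Y y0 om z0 be th th' S y z X) :
    GD K p vis b R S y := by
  refine ⟨hd.law, ?_, hd.hyb⟩
  intro ω ω' a1 a2 h
  refine hd.dS ω ω' a1 a2 ?_
  simp only [Prod.mk.injEq] at h ⊢
  tauto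

end

section

variable {Ω β γ Θ ρ : Type} [Fintype Ω] {c : ℕ} {K : ℝ} {p : Ω → ℝ} {vis : Ω → β}
    {lam : Ω → γ} {T : Ω → Θ} {R : Ω → ρ} {S : Ω → Fin c → ℝ} {y : Ω → ℝ}
    {z : Ω → Fin c → ℝ} {X : ℕ}

/-- **The estimate on an event of the glued law.** -/
theorem glw_gen (hK : 0 ≤ K) {m a x₀ p₁ : ℝ}
    (hd : GD K p vis lam R S y)
    (hMI : MI p (blk X y z) (fun ω => (lam ω, R ω)) (fun ω => (vis ω, T ω)) ≤ m) (hx : 0 ≤ x₀) (hp₁ : 0 < p₁)
    (ha : a ≤ CH p (Uni.dg X y) (fun ω => (prj X y z S ω, ((vis ω, T ω), (lam ω, R ω)))))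
    (E : Ω × (Fin (c + 1) → Ω) → Prop)
    (hE : p₁ ≤ Pe (itr p (fun ω => ((vis ω, T ω), blk X y z ω)) (c + 1)) E)
    (G : Fin (c + 1) → (Fin (c + 1) → Fin (c + 1) → ℝ) → Fin (c + 1) → ℝ)
    (hG1 : ∀ w, 0 < itr p (fun ω => ((vis ω, T ω), blk X y z ω)) (c + 1) w → ∀ j i,
      |G j (fun k => ev S (w.2 k)) i| ≤ 1)
    (hG0 : ∀ j k, k < j → ∀ w, 0 < itr p (fun ω => ((vis ω, T ω), blk X y z ω)) (c + 1) w →
      ∑ i, G j (fun k => ev S (w.2 k)) i * ev S (w.2 k) i = 0)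
    (hN : ∀ w, 0 < itr p (fun ω => ((vis ω, T ω), blk X y z ω)) (c + 1) w → E w →
      ∀ j, (2 : ℝ) ^ (-(x₀ * X)) ≤ |∑ i, G j (fun k => ev S (w.2 k)) i * ev S (w.2 j) i|) :
    (c + 1) * ((X * Real.log 2 + Real.log (2 * (K + 1) + 1)) -
      ((X * Real.log 2 + Real.log (2 * (K + 1) + 1)) - (a - c * m) + Real.log 2) / p₁ -
      (c + 1) * Real.log (4 * (c + 2) + 1) - x₀ * X * Real.log 2 - Real.log (2 * c + 3)) ≤
      CH (Pool.Agent.H49.Ent.cond (itr p (fun ω => ((vis ω, T ω), blk X y z ω)) (c + 1)) E True)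
        (fun w => blk X y z w.1) (fun w => (vis w.1, T w.1)) := by
  classical
  obtain ⟨Q, hQ⟩ : ∃ Q, Q = itr p (fun ω => ((vis ω, T ω), blk X y z ω)) (c + 1) := ⟨_, rfl⟩
  rw [← hQ] at hE hN hG1 hG0 ⊢
  have hlaw : IsLaw Q := hQ ▸ itr_law hd.law
  have hE0 : 0 < Pe Q E := hp₁.trans_le hE
  obtain ⟨q, hq⟩ : ∃ q, q = Pool.Agent.H49.Ent.cond Q E True := ⟨_, rfl⟩
  rw [← hq]
  have hql : IsLaw q := hq ▸ isLaw_cond hlaw hE0
  have h0 := hql.nonneg
  have hqQ : ∀ w, 0 < q w → 0 < Q w ∧ E w := by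
    intro w hw
    rw [hq] at hw
    have h := (cond_pos_iff hlaw.nonneg E True w).1 hw
    exact ⟨h.1, by rw [h.2]; trivial⟩
  have hsup : ∀ w, 0 < Q w → ∀ j, vis (w.2 j) = vis w.1 := by
    intro w hw j
    rw [hQ] at hw
    have h := ((itr_pos hd.law hw).2 j).2
    simp only [Prod.mk.injEq] at h
    exact h.1.1
  have hpos : ∀ w, 0 < Q w → 0 < p w.1 ∧ ∀ j, 0 < p (w.2 j) := by
    intro w hw
    rw [hQ] at hw
    have h := itr_pos hd.law hw
    exact ⟨h.1, fun j => (h.2 j).1⟩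
  have hS : ∀ k, Det q (Cw vis lam T R (c + 1)) (fun w => S (w.2 k)) := by
    intro k w w' a b e
    have a' := (hqQ w a).1
    have b' := (hqQ w' b).1
    unfold Cw at e
    simp only [Prod.mk.injEq] at e
    have e2 := congrFun e.2 k
    simp only [Prod.mk.injEq] at e2
    exact hd.dS _ _ ((hpos w a').2 k) ((hpos w' b').2 k) (by
      simp only [hsup w a' k, hsup w' b' k, e.1.1, e2.1, e2.2])
  obtain ⟨N, hNe⟩ : ∃ N : Fin (c + 1) → Ω × (Fin (c + 1) → Ω) → Fin (c + 1) → ℝ,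
    N = fun j w => G j (fun k => ev S (w.2 k)) := ⟨_, rfl⟩
  have hNd : ∀ k, Det q (Cw vis lam T R (c + 1)) (N k) := by
    intro k w w' a b e
    rw [hNe]
    dsimp only
    congr 1
    funext j
    have := hS j w w' a b e
    dsimp only at this
    unfold ev
    rw [this]
  have hN1 : ∀ j w, 0 < q w → ∀ i, |N j w i| ≤ 1 := by
    intro j w hw i
    rw [hNe]
    exact hG1 w (hqQ w hw).1 j i
  have hN0 : ∀ j k, k < j → ∀ w, 0 < q w → N j w 0 + ∑ i, N j w i.succ * S (w.2 k) i = 0 := by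
    intro j k hjk w hw
    rw [hNe]
    dsimp only
    rw [← sum_ev]
    exact hG0 j k hjk w (hqQ w hw).1
  have hyQ : ∀ w : Ω × (Fin (c + 1) → Ω), 0 < Q w →
      |((Uni.dg X y w.1 : ℤ) : ℝ)| ≤ (K + 1) * 2 ^ X := by
    intro w hw
    have e1 := hd.hyb w.1 (hpos w hw).1
    have e2 : |(Uni.dg X y w.1 : ℝ) - 2 ^ X * y w.1| ≤ 1 := floor_abs _
    have e3 : |(2 : ℝ) ^ X * y w.1| ≤ 2 ^ X * K := by
      rw [abs_mul, abs_of_pos (by positivity : (0 : ℝ) < 2 ^ X)]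
      exact mul_le_mul_of_nonneg_left e1 (by positivity)
    have e4 : (1 : ℝ) ≤ 2 ^ X := one_le_pow₀ (by norm_num)
    rw [abs_le] at e2 e3 ⊢
    constructor <;> nlinarith
  obtain ⟨D, hD⟩ : ∃ D : ℝ, D = (2 : ℝ) ^ (x₀ * X) := ⟨_, rfl⟩
  have hD1 : 1 ≤ D := by
    rw [hD]
    exact Real.one_le_rpow (by norm_num) (mul_nonneg hx (Nat.cast_nonneg X))
  have hDl : Real.log D = x₀ * X * Real.log 2 := by
    rw [hD, Real.log_rpow (by norm_num)]
  have hDi : D⁻¹ = (2 : ℝ) ^ (-(x₀ * X)) := by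
    rw [hD, Real.rpow_neg (by norm_num)]
  have hb : ∀ j, Pe q (fun w => |N j w 0 + ∑ i, N j w i.succ * S (w.2 j) i| < D⁻¹) ≤ 0 := by
    intro j
    rw [Pe_eq]
    refine le_of_eq (Finset.sum_eq_zero fun w _ => ?_)
    split_ifs with h
    · by_contra h1
      have h2 : 0 < q w := lt_of_le_of_ne (h0 w) (Ne.symm h1)
      obtain ⟨h3, h4⟩ := hqQ w h2
      have h5 := hN w h3 h4 j
      rw [hDi, hNe] at h
      dsimp only at h
      rw [← sum_ev] at h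
      exact absurd h (not_lt.2 h5)
    · rfl
  -- fullness on the event
  obtain ⟨M, hM⟩ : ∃ M : ℝ, M = X * Real.log 2 + Real.log (2 * (K + 1) + 1) := ⟨_, rfl⟩
  have hfull : ∀ j, M - (M - (a - c * m) + Real.log 2) / p₁ ≤
      CH q (fun w => Uni.dg X y w.1)
      (fun w => (prz (fun w => S (w.2 j)) (fun w => Uni.dg X y w.1)
        (fun w => dgv X z w.1) w, Cw vis lam T R (c + 1) w)) := by
    intro j
    obtain ⟨W, hW⟩ : ∃ W, W = fun w : Ω × (Fin (c + 1) → Ω) =>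
      (prz (fun w : Ω × (Fin (c + 1) → Ω) => S (w.2 j)) (fun w => Uni.dg X y w.1)
        (fun w => dgv X z w.1) w, Cw vis lam T R (c + 1) w) := ⟨_, rfl⟩
    have f1 := full_refg hd hMI ha j
    rw [← hQ, ← hW] at f1
    rw [← hW]
    have hup : ∀ q' : Ω × (Fin (c + 1) → Ω) → ℝ, IsLaw q' → (∀ ω, 0 < q' ω → 0 < Q ω) →
        CH q' (fun w => Uni.dg X y w.1) W ≤ M := by
      intro q' hq' hpq
      have f3 := Sel.CH_near hq' (fun w => Uni.dg X y w.1) W (fun _ => 0)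
        (fun _ _ _ _ _ => rfl) (K := (K + 1) * 2 ^ X) (by positivity) (fun w hw => by
          rw [sub_zero]
          exact hyQ w (hpq w hw))
      refine f3.trans ?_
      rw [hM, ← Real.log_pow, ← Real.log_mul (by positivity) (by positivity)]
      refine Real.log_le_log (by positivity) ?_
      have : (1 : ℝ) ≤ 2 ^ X := one_le_pow₀ (by norm_num)
      nlinarith
    have f2 := Pool.UE.def_event hlaw E (fun w => Uni.dg X y w.1) W hup
    rw [← hq] at f2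
    have f4 : CH q (fun w => Uni.dg X y w.1) W ≤ M := hup q hql fun w hw => (hqQ w hw).1
    have f5 : p₁ * (M - CH q (fun w => Uni.dg X y w.1) W) ≤
        M - (a - c * m) + Real.log 2 := by
      have f6 := mul_le_mul_of_nonneg_right hE (by linarith :
        0 ≤ M - CH q (fun w => Uni.dg X y w.1) W)
      linarith
    have f7 : M - CH q (fun w => Uni.dg X y w.1) W ≤
        (M - (a - c * m) + Real.log 2) / p₁ := by
      rw [le_div_iff₀ hp₁]
      linarith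
    linarith
  have h := sum_full hql (Cw vis lam T R (c + 1)) (fun w => Uni.dg X y w.1)
    (fun w => dgv X z w.1) (fun k w => S (w.2 k)) N hS hNd hN1 hN0
    (by linarith : (0 : ℝ) ≤ K + 1) (fun w hw => hyQ w (hqQ w hw).1) hD1 hb hfull
  rw [hDl, zero_mul, sub_zero, hM] at h
  refine h.trans ?_
  refine CH_mono_cond h0 ?_
  intro w w' _ _ h
  exact (Prod.ext_iff.mp h).1

end

end Pool.PLV
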