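import Pool.Agent.H46.S6.Itr
import Pool.Agent.H14.S6.PRM

/-!
# Plateaus: the block of the position is one variable, independent of the block of the velocity

Definitions and the first step: lemma W for one reference time.
-/

set_option autoImplicit false

namespace Pool.PLV

open Finset Real
open Pool.Agent.H49.Ent Pool.Agent.H32.Dense Pool.STK Pool.KA Pool.K2S

/-- The data of lemma W. -/
structure WData {Ω β Λ Θ : Type} [Fintype Ω] (p : Ω → ℝ) (b : Ω → β) (L : Ω → Λ) (T : Ω → Θ)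
    (om m0 th S nu : Ω → ℝ) : Prop where
  law : IsLaw p
  dom : Det p (fun ω => (b ω, L ω)) om
  dm0 : Det p (fun ω => (b ω, L ω)) m0
  dth : Det p (fun ω => (b ω, T ω)) th
  dS : Det p (fun ω => (b ω, T ω)) S
  hom : ∀ ω, 0 < p ω → 0 ≤ om ω ∧ om ω < 1
  hth : ∀ ω, 0 < p ω → 0 ≤ th ω ∧ th ω < 1
  hnu : ∀ ω, 0 < p ω → nu ω = m0 ω + th ω * om ω + S ω

/-- **Lemma W**: a coordinate which moves with an active velocity has full rows, if its block is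
nearly independent of the velocity. -/
def WDStmt : Prop :=
  ∀ ε ca : ℝ, 0 < ε → 0 < ca → ∃ (η ϖ ι : ℝ) (n₀ : ℕ), 0 < η ∧ 0 < ϖ ∧ 0 < ι ∧
    ∀ (Ω β Λ Θ : Type) [Fintype Ω] (p : Ω → ℝ) (b : Ω → β) (L : Ω → Λ) (T : Ω → Θ)
      (om m0 th S nu : Ω → ℝ) (X : ℕ), WData p b L T om m0 th S nu → n₀ ≤ X →
      Pool.KVA.MI p T L b ≤ ι * X →
      (1 - ι) * X * Real.log 2 ≤ CH p (Pool.K2S.Uni.dg X th) (fun ω => (L ω, b ω)) →
      CH p (Pool.K2S.Uni.dg X nu) (fun ω => (b ω, T ω)) -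
        CH p (Pool.K2S.Uni.dg X nu) (fun ω => (Pool.K2S.Uni.dg X om ω, (b ω, T ω))) ≤ ι * X →
      (∀ r X' : ℕ, η * X ≤ X' → r + X' ≤ X → ∀ A : Ω → Prop, ϖ ≤ Pe p A →
        ca * X' * Real.log 2 ≤ CH (Pool.Agent.H49.Ent.cond p A True)
          (Pool.K2S.Uni.dg (r + X') om)
          (fun ω => (Pool.K2S.Uni.dg r om ω, (Pool.K2S.Uni.dg r m0 ω, b ω)))) →
      (1 - ε) * X * Real.log 2 ≤ CH p (Pool.K2S.Uni.dg X nu) (fun ω => (b ω, T ω))

end Pool.PLV
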